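import Pool.Agent.V114.KakCx.Euc2

/-!
The Kakeya maximal function of functions with few shapes.
-/

open MeasureTheory Set Filter Topology Metric
open scoped ENNReal NNReal Pointwise

namespace Pool.Agent.V114.KakCx

lemma norm_le_of_coord {m : ℕ} (R : Eu (m + 1)) {r : ℝ} (hr : 0 ≤ r)
    (h : ∀ j, |R j| ≤ r) : ‖R‖ ≤ ((m : ℝ) + 1) * r := by
  rw [EuclideanSpace.norm_eq]
  rw [Real.sqrt_le_iff]
  refine ⟨by positivity, ?_⟩
  calc ∑ i, ‖R i‖ ^ 2 ≤ ∑ _i : Fin (m + 1), r ^ 2 := by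
        apply Finset.sum_le_sum
        intro i _
        rw [Real.norm_eq_abs]
        have := h i
        have := abs_nonneg (R i)
        gcongr
    _ = ((m : ℝ) + 1) * r ^ 2 := by
        rw [Finset.sum_const, Finset.card_univ, Fintype.card_fin, nsmul_eq_mul]
        push_cast
        ring
    _ ≤ (((m : ℝ) + 1) * r) ^ 2 := by
        rw [mul_pow]
        have h1 : ((m : ℝ) + 1) ≤ ((m : ℝ) + 1) ^ 2 := by
          have : (0 : ℝ) ≤ m := by positivity
          nlinarith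
        gcongr

lemma coord_ge {m : ℕ} {e : Eu (m + 1)} (he : ‖e‖ = 1) {i : Fin (m + 1)}
    (hi : ∀ j, |e j| ≤ |e i|) : 1 / ((m : ℝ) + 1) ≤ |e i| := by
  have h1 : ‖e‖ ^ 2 = ∑ j, ‖e j‖ ^ 2 := EuclideanSpace.norm_sq_eq e
  have h2 : ∑ j, ‖e j‖ ^ 2 ≤ ((m : ℝ) + 1) * |e i| ^ 2 := by
    calc ∑ j, ‖e j‖ ^ 2 ≤ ∑ _j : Fin (m + 1), |e i| ^ 2 := by
          apply Finset.sum_le_sum
          intro j _
          rw [Real.norm_eq_abs]
          have := hi j
          have := abs_nonneg (e j)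
          gcongr
      _ = _ := by
          rw [Finset.sum_const, Finset.card_univ, Fintype.card_fin, nsmul_eq_mul]
          push_cast
          ring
  have h3 : |e i| ≤ 1 := by
    have := PiLp.norm_apply_le e i
    rwa [he, Real.norm_eq_abs] at this
  have h4 : (1 : ℝ) ≤ ((m : ℝ) + 1) * |e i| ^ 2 := by
    rw [← h1, he] at h2
    linarith
  rw [div_le_iff₀ (by positivity)]
  have h5 := abs_nonneg (e i)
  nlinarith

/-- the geometry of the tubes -/
lemma tub_geom {m : ℕ} {e e' a X Y : Eu (m + 1)} (he : ‖e‖ = 1) (he' : ‖e'‖ = 1) {δ t l ρ : ℝ}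
    (hee : ‖e - e'‖ ≤ δ) (ht : t ∈ Icc (0 : ℝ) 1) (hl : |l| ≤ (m : ℝ) + 1)
    (hR : ‖X + t • l • e' - Y‖ ≤ ((m : ℝ) + 1) * ρ) (hρ0 : 0 ≤ ρ) (hρ1 : ρ ≤ 1) (hρδ : ρ ≤ δ)
    (hY : Y ∈ tub δ a e) :
    |inner ℝ (X - a) e| ≤ (5 * ((m : ℝ) + 1)) * (1 / 2) ∧
      ‖(X - a) - (inner ℝ (X - a) e) • e‖ ≤ (5 * ((m : ℝ) + 1)) * δ := by
  obtain ⟨hY1, hY2⟩ := hY
  set R : Eu (m + 1) := X + t • l • e' - Y with hRdef
  have hX : X - a = (Y - a) - (t * l) • e' + R := by
    rw [hRdef, smul_smul]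
    abel
  have hm0 : (0 : ℝ) ≤ m := by positivity
  have htl : |t * l| ≤ (m : ℝ) + 1 := by
    rw [abs_mul, abs_of_nonneg ht.1]
    have := abs_nonneg l
    nlinarith [ht.1, ht.2]
  have hin : ∀ u : Eu (m + 1), |inner ℝ u e| ≤ ‖u‖ := by
    intro u
    have := abs_real_inner_le_norm u e
    rwa [he, mul_one] at this
  have hee1 : inner ℝ e e = (1 : ℝ) := by
    rw [real_inner_self_eq_norm_sq, he, one_pow]
  have hP : ∀ u : Eu (m + 1), ‖u - (inner ℝ u e) • e‖ ≤ 2 * ‖u‖ := by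
    intro u
    calc ‖u - (inner ℝ u e) • e‖ ≤ ‖u‖ + ‖(inner ℝ u e) • e‖ := norm_sub_le _ _
      _ = ‖u‖ + |inner ℝ u e| := by rw [norm_smul, he, mul_one, Real.norm_eq_abs]
      _ ≤ 2 * ‖u‖ := by linarith [hin u]
  have hδ0 : 0 ≤ δ := hρ0.trans hρδ
  have hRn : ‖R‖ ≤ (m : ℝ) + 1 := hR.trans (by nlinarith)
  have hRd : ‖R‖ ≤ ((m : ℝ) + 1) * δ := hR.trans (by gcongr)
  constructor
  · rw [hX, inner_add_left, inner_sub_left, inner_smul_left]
    simp only [conj_trivial]
    have h1 : |t * l * inner ℝ e' e| ≤ (m : ℝ) + 1 := by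
      rw [abs_mul]
      have h2 := hin e'
      rw [he'] at h2
      have h3 := abs_nonneg (inner ℝ e' e : ℝ)
      have h4 := abs_nonneg (t * l)
      nlinarith
    have h5 := hin R
    rw [abs_le] at h1 hY1 h5 ⊢
    constructor <;> linarith [h1.1, h1.2, hY1.1, hY1.2, h5.1, h5.2]
  · have h1 : (X - a) - (inner ℝ (X - a) e) • e =
        ((Y - a) - (inner ℝ (Y - a) e) • e) - (t * l) • (e' - (inner ℝ e' e) • e) +
          (R - (inner ℝ R e) • e) := by
      rw [hX, inner_add_left, inner_sub_left, inner_smul_left]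
      simp only [conj_trivial]
      module
    have h2 : e' - (inner ℝ e' e) • e = (e' - e) - (inner ℝ (e' - e) e) • e := by
      rw [inner_sub_left, hee1]
      module
    have h3 : ‖e' - (inner ℝ e' e) • e‖ ≤ 2 * δ := by
      rw [h2]
      refine (hP _).trans ?_
      rw [norm_sub_rev]
      linarith
    rw [h1]
    calc ‖((Y - a) - (inner ℝ (Y - a) e) • e) - (t * l) • (e' - (inner ℝ e' e) • e) +
          (R - (inner ℝ R e) • e)‖
        ≤ ‖(Y - a) - (inner ℝ (Y - a) e) • e‖ + ‖(t * l) • (e' - (inner ℝ e' e) • e)‖ +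
          ‖R - (inner ℝ R e) • e‖ :=
          (norm_add_le _ _).trans (add_le_add_left (norm_sub_le _ _) _)
      _ ≤ δ + ((m : ℝ) + 1) * (2 * δ) + 2 * (((m : ℝ) + 1) * δ) := by
          have h4 : ‖(t * l) • (e' - (inner ℝ e' e) • e)‖ ≤ ((m : ℝ) + 1) * (2 * δ) := by
            rw [norm_smul, Real.norm_eq_abs]
            gcongr
          have h5 := (hP R).trans (mul_le_mul_of_nonneg_left hRd (by norm_num : (0 : ℝ) ≤ 2))
          linarith
      _ ≤ _ := by nlinarith

theorem euc_main {m : ℕ} (hm : 1 ≤ m) {b : ℕ} (hb : 2 ≤ b) {ε : ℝ} (hε : 0 < ε) :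
    ∃ (Q : ℕ) (C c : ℝ), 0 < C ∧ 0 < c ∧ ∀ N : ℕ, ∃ E : Set (sphere (0 : Eu (m + 1)) 1),
      MeasurableSet E ∧
      (volume : Measure (Eu (m + 1))).toSphere E ≤ ENNReal.ofReal (C * (b : ℝ) ^ (-(c * N))) ∧
      ∀ g : (Fin (m + 1) → ℝ) → ℝ≥0∞, Measurable g →
      ∀ P : ℕ, (∀ k ≤ N, (range (shp g b k)).encard ≤ P) →
      ∀ δ : ℝ, 1 / (b : ℝ) ^ N ≤ δ →
      ∀ e e' : sphere (0 : Eu (m + 1)) 1, e' ∉ E → ‖(e : Eu (m + 1)) - e'‖ ≤ δ →
      ∀ a : Eu (m + 1),
        (volume (tub δ a e))⁻¹ * ∫⁻ y in tub δ a e, g (WithLp.ofLp y) ≤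
          ENNReal.ofReal (C * (b : ℝ) ^ (ε * N)) * (P : ℝ≥0∞) ^ Q *
            (∫⁻ y, g y ^ (m + 1)) ^ (1 / ((m : ℝ) + 1)) := by
  obtain ⟨Q, C0, c, hC0, hc, h⟩ := max_main m 1 hb hε
  have hb0 : 0 < b := by omega
  have hbr : (0 : ℝ) < b := by exact_mod_cast hb0
  have hbr1 : (1 : ℝ) ≤ b := by exact_mod_cast (by omega : 1 ≤ b)
  set K : ℝ := 5 * ((m : ℝ) + 1) with hK
  have hK0 : 0 < K := by positivity
  refine ⟨Q, K ^ (m + 1) * C0 + 2 * ((m : ℝ) + 1) ^ 2, c, by positivity, hc, fun N => ?_⟩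
  obtain ⟨B, hB, hvB, hF⟩ := h N
  refine ⟨excS B, measurableSet_excS hB, ?_, ?_⟩
  · refine (surf_excS hB).trans ?_
    calc 2 * ((m : ℝ≥0∞) + 1) ^ 2 * volume B
        ≤ 2 * ((m : ℝ≥0∞) + 1) ^ 2 * ENNReal.ofReal ((b : ℝ) ^ (-(c * N))) := by gcongr
      _ = ENNReal.ofReal (2 * ((m : ℝ) + 1) ^ 2) * ENNReal.ofReal ((b : ℝ) ^ (-(c * N))) := by
          congr 1
          rw [ENNReal.ofReal_mul (by norm_num), ENNReal.ofReal_pow (by positivity),
            ENNReal.ofReal_add (by positivity) zero_le_one, ENNReal.ofReal_natCast,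
            ENNReal.ofReal_one]
          simp
      _ = ENNReal.ofReal (2 * ((m : ℝ) + 1) ^ 2 * (b : ℝ) ^ (-(c * N))) := by
          rw [← ENNReal.ofReal_mul (by positivity)]
      _ ≤ _ := by
          apply ENNReal.ofReal_le_ofReal
          gcongr
          have : 0 < K ^ (m + 1) * C0 := by positivity
          linarith
  · intro g hg P hP δ hδ e e' he' hee a
    have hP1 : 1 ≤ P := by
      have h1 := hP 0 (Nat.zero_le _)
      have h2 : 0 < (Set.range (shp g b 0)).encard := by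
        rw [Set.encard_pos]
        exact Set.range_nonempty _
      have h3 : (0 : ℕ∞) < (P : ℕ∞) := h2.trans_le h1
      exact_mod_cast h3
    by_cases htop : ∫⁻ y, g y ^ (m + 1) = ∞
    · rw [htop, ENNReal.top_rpow_of_pos (by positivity), ENNReal.mul_top]
      · exact le_top
      · apply mul_ne_zero
        · rw [← pos_iff_ne_zero, ENNReal.ofReal_pos]
          positivity
        · apply pow_ne_zero
          exact_mod_cast (by omega : P ≠ 0)
    have hen : ‖(e : Eu (m + 1))‖ = 1 := by simp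
    have hen' : ‖(e' : Eu (m + 1))‖ = 1 := by simp
    obtain ⟨i, hi⟩ := Finite.exists_max (fun j => |(e' : Eu (m + 1)) j|)
    have hge := coord_ge hen' hi
    have hm1 : (0 : ℝ) < (m : ℝ) + 1 := by positivity
    have hei : 0 < |(e' : Eu (m + 1)) i| := lt_of_lt_of_le (by positivity) hge
    have hei0 : (e' : Eu (m + 1)) i ≠ 0 := abs_pos.1 hei
    set v : Fin m → ℝ := slope i (WithLp.ofLp (e' : Eu (m + 1))) with hv
    have hvB' : v ∉ B := by
      intro h1
      apply he'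
      unfold excS
      rw [mem_iUnion]
      exact ⟨i, h1⟩
    have hv1 : ∀ j, |v j| ≤ ((1 : ℕ) : ℝ) := by
      intro j
      rw [hv]
      simp only [slope]
      rw [abs_div, Nat.cast_one, div_le_one hei]
      exact hi _
    set w : Fin (m + 1) → ℝ := ((e' : Eu (m + 1)) i)⁻¹ • WithLp.ofLp (e' : Eu (m + 1)) with hw
    have hwv : (Fin.cons 1 v : Fin (m + 1) → ℝ) ∘ i.cycleRange = w := by
      rw [Fin.cons_comp_cycleRange]
      funext j
      refine Fin.succAboveCases i ?_ (fun j => ?_) j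
      · simp only [Fin.insertNth_apply_same, hw, Pi.smul_apply, smul_eq_mul]
        rw [inv_mul_cancel₀ hei0]
      · simp only [Fin.insertNth_apply_succAbove, hw, Pi.smul_apply, smul_eq_mul, hv, slope]
        rw [div_eq_inv_mul]
    set L : ℝ≥0∞ := ENNReal.ofReal (C0 * (b : ℝ) ^ (ε * N)) * (P : ℝ≥0∞) ^ Q *
            (∫⁻ y, g y ^ (m + 1)) ^ (1 / ((m : ℝ) + 1)) with hL
    have hline : ∀ p : Fin (m + 1) → ℝ,
        ∫⁻ t in Icc (0 : ℝ) 1, (avg g b N (cell b N (p + t • w)) : ℝ≥0∞) ≤ L := by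
      intro p
      have h1 := hF (permF (avg g b N) i.cycleRange) P (fun k hk =>
        (encard_sh_permF _ _ _ _ _).trans ((encard_sh_avg hb0 hk g).trans (hP k hk))) v hv1 hvB'
        (p ∘ i.cycleRange.symm)
      rw [lintegral_permF hb0] at h1
      have h2 : ∀ t : ℝ, (permF (avg g b N) i.cycleRange
          (cell b N (p ∘ i.cycleRange.symm + t • (Fin.cons 1 v : Fin (m + 1) → ℝ))) : ℝ≥0∞) =
          (avg g b N (cell b N (p + t • w)) : ℝ≥0∞) := by
        intro t
        have h3 : cell b N (p ∘ i.cycleRange.symm + t • (Fin.cons 1 v : Fin (m + 1) → ℝ)) ∘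
            i.cycleRange = cell b N (p + t • w) := by
          rw [← hwv]
          funext j
          simp only [cell, Function.comp_apply, Pi.add_apply, Pi.smul_apply,
            Equiv.symm_apply_apply]
        unfold permF
        rw [h3]
      simp_rw [h2] at h1
      refine h1.trans ?_
      rw [hL]
      exact mul_le_mul' le_rfl (ENNReal.rpow_le_rpow (lintegral_avg_pow hm hb0 N hg) (by positivity))
    set T : Set (Fin (m + 1) → ℝ) := WithLp.toLp 2 ⁻¹' tub δ a e with hT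
    set D : Set (Eu (m + 1)) := {x : Eu (m + 1) | |inner ℝ (x - a) (e : Eu (m + 1))| ≤ K * (1 / 2) ∧
      ‖(x - a) - (inner ℝ (x - a) (e : Eu (m + 1))) • (e : Eu (m + 1))‖ ≤ K * δ} with hD
    have hDm : MeasurableSet D := measurableSet_dil K δ a e
    have htubm : MeasurableSet (tub δ a (e : Eu (m + 1))) := by
      have := measurableSet_dil 1 δ a (e : Eu (m + 1))
      simpa [tub] using this
    have hmp := PiLp.volume_preserving_toLp (Fin (m + 1))
    have hmp' := PiLp.volume_preserving_ofLp (Fin (m + 1))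
    have hset := set_le_lines hm hb0 N hg htop T (WithLp.toLp 2 ⁻¹' D) (hmp.measurable hDm) w (by
      intro x t ht y hy hxy
      show WithLp.toLp 2 x ∈ D
      have hbN : (0 : ℝ) < (b : ℝ) ^ N := by positivity
      have hbN1 : (1 : ℝ) ≤ (b : ℝ) ^ N := one_le_pow₀ hbr1
      refine tub_geom hen hen' (t := t) (l := ((e' : Eu (m + 1)) i)⁻¹) (ρ := 1 / (b : ℝ) ^ N)
        (Y := WithLp.toLp 2 y) hee ht ?_ ?_ (by positivity) ?_ hδ hy
      · rw [abs_inv]
        rw [inv_le_comm₀ hei hm1, ← one_div]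
        exact hge
      · apply norm_le_of_coord _ (by positivity)
        intro j
        have h1 : (WithLp.toLp 2 x + t • ((e' : Eu (m + 1)) i)⁻¹ • (e' : Eu (m + 1)) -
            WithLp.toLp 2 y : Eu (m + 1)) j = (x + t • w) j - y j := by
          simp [hw]
        rw [h1]
        have h2 := congrFun hxy j
        have h3 := floor_bds (x := (b : ℝ) ^ N * (x + t • w) j) (q := cell b N y j) h2
        have h4 := floor_bds (x := (b : ℝ) ^ N * y j) (q := cell b N y j) rfl
        rw [abs_le]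
        constructor
        · rw [neg_le_iff_add_nonneg, ← mul_le_mul_iff_right₀ hbN]
          have : (b : ℝ) ^ N * ((x + t • w) j - y j + 1 / (b : ℝ) ^ N) =
              (b : ℝ) ^ N * (x + t • w) j - (b : ℝ) ^ N * y j + 1 := by
            field_simp
          rw [this]
          linarith [h3.1, h3.2, h4.1, h4.2]
        · rw [← mul_le_mul_iff_right₀ hbN]
          have : (b : ℝ) ^ N * ((x + t • w) j - y j) =
              (b : ℝ) ^ N * (x + t • w) j - (b : ℝ) ^ N * y j := by ring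
          rw [this, mul_one_div_cancel hbN.ne']
          linarith [h3.1, h3.2, h4.1, h4.2]
      · rw [div_le_one hbN]
        exact hbN1) L hline
    have h5 : ∫⁻ y in tub δ a (e : Eu (m + 1)), g (WithLp.ofLp y) = ∫⁻ y in T, g y := by
      have hTm : MeasurableSet T := hmp.measurable htubm
      have h6 := hmp'.setLIntegral_comp_preimage hTm hg
      rw [← h6]
      rfl
    have h7 : volume (WithLp.toLp 2 ⁻¹' D) = volume D := hmp.measure_preimage hDm.nullMeasurableSet
    have h8 : volume D = ENNReal.ofReal (K ^ (m + 1)) * volume (tub δ a (e : Eu (m + 1))) :=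
      vol_dil hK0 a e
    rw [h5]
    calc (volume (tub δ a (e : Eu (m + 1))))⁻¹ * ∫⁻ y in T, g y
        ≤ (volume (tub δ a (e : Eu (m + 1))))⁻¹ *
          (ENNReal.ofReal (K ^ (m + 1)) * volume (tub δ a (e : Eu (m + 1))) * L) := by
          gcongr
          rw [h7, h8] at hset
          exact hset
      _ = (volume (tub δ a (e : Eu (m + 1))))⁻¹ * volume (tub δ a (e : Eu (m + 1))) *
          (ENNReal.ofReal (K ^ (m + 1)) * L) := by ring
      _ ≤ 1 * (ENNReal.ofReal (K ^ (m + 1)) * L) := by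
          gcongr
          exact ENNReal.inv_mul_le_one _
      _ = ENNReal.ofReal (K ^ (m + 1) * C0 * (b : ℝ) ^ (ε * N)) * (P : ℝ≥0∞) ^ Q *
            (∫⁻ y, g y ^ (m + 1)) ^ (1 / ((m : ℝ) + 1)) := by
          rw [one_mul, hL, mul_assoc (K ^ (m + 1)) C0, ENNReal.ofReal_mul (p := K ^ (m + 1))
            (by positivity)]
          ring
      _ ≤ _ := by
          gcongr
          have : (0 : ℝ) ≤ 2 * ((m : ℝ) + 1) ^ 2 := by positivity
          linarith

end Pool.Agent.V114.KakCx
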