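import Pool.Agent.V114.KakCx.Euc3

/-!
Boxes dual to the caps of a paraboloid, tested against functions with few shapes.
-/

open MeasureTheory Set Filter Topology Metric
open scoped ENNReal NNReal Pointwise

namespace Pool.Agent.V114.KakCx

/-- The unit normal of the paraboloid `ω_0 = Σ ω_j²` at the point over `x`. -/
noncomputable def nrm {d : ℕ} (x : Fin d → ℝ) : Eu (d + 1) :=
  (√(1 + 4 * ∑ j, x j ^ 2))⁻¹ • WithLp.toLp 2 (Fin.cons 1 (fun j => -2 * x j) : Fin (d + 1) → ℝ)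

/-- boxes -/
def bx {d : ℕ} (A B : ℝ) (e : Eu (d + 1)) (f : Fin d → Eu (d + 1)) (a : Eu (d + 1)) :
    Set (Eu (d + 1)) :=
  {y | |inner ℝ e (y - a)| ≤ A ∧ ∀ j, |inner ℝ (f j) (y - a)| ≤ B}

lemma measurableSet_bx {d : ℕ} (A B : ℝ) (e : Eu (d + 1)) (f : Fin d → Eu (d + 1)) (a : Eu (d + 1)) :
    MeasurableSet (bx A B e f a) := by
  have h1 : bx A B e f a = {y | |inner ℝ e (y - a)| ≤ A} ∩ ⋂ j, {y | |inner ℝ (f j) (y - a)| ≤ B} := by
    ext y
    simp [bx]
  rw [h1]
  apply MeasurableSet.inter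
  · have h0 : Measurable fun y : Eu (d + 1) => |(inner ℝ e (y - a) : ℝ)| := by fun_prop
    exact measurableSet_le h0 measurable_const
  · apply MeasurableSet.iInter
    intro j
    have h0 : Measurable fun y : Eu (d + 1) => |(inner ℝ (f j) (y - a) : ℝ)| := by fun_prop
    exact measurableSet_le h0 measurable_const

lemma vol_bx {d : ℕ} {A B : ℝ} (hA : 0 ≤ A) (hB : 0 ≤ B) {e : Eu (d + 1)} {f : Fin d → Eu (d + 1)}
    (h : Orthonormal ℝ (Fin.cons e f : Fin (d + 1) → Eu (d + 1))) (a : Eu (d + 1)) :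
    volume (bx A B e f a) = ENNReal.ofReal (2 * A) * ENNReal.ofReal (2 * B) ^ d := by
  classical
  have hcard : Fintype.card (Fin (d + 1)) = Module.finrank ℝ (Eu (d + 1)) := by
    rw [finrank_euclideanSpace]
  let bs : OrthonormalBasis (Fin (d + 1)) ℝ (Eu (d + 1)) :=
    OrthonormalBasis.mk h (by
      rw [h.linearIndependent.span_eq_top_of_card_eq_finrank' hcard])
  have hbs : ∀ i, bs i = (Fin.cons e f : Fin (d + 1) → Eu (d + 1)) i := by
    intro i
    simp [bs]
  set S : Set (Fin (d + 1) → ℝ) := Set.pi univ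
    (fun i => Icc (-(Fin.cons A (fun _ => B) : Fin (d + 1) → ℝ) i)
      ((Fin.cons A (fun _ => B) : Fin (d + 1) → ℝ) i)) with hS
  have h1 : bx A B e f a = (fun y : Eu (d + 1) => y - a) ⁻¹' (bs.repr ⁻¹' (WithLp.ofLp (p := 2) ⁻¹' S)) := by
    ext y
    simp only [bx, mem_ofPred_eq, mem_preimage, hS, Set.mem_pi, mem_univ, forall_true_left, mem_Icc]
    constructor
    · rintro ⟨h1, h2⟩ i
      have h3 : (bs.repr (y - a)) i = inner ℝ (bs i) (y - a) := bs.repr_apply_apply _ _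
      rw [h3, hbs]
      refine Fin.cases ?_ (fun j => ?_) i
      · simpa [abs_le] using h1
      · simpa [abs_le] using h2 j
    · intro h1
      refine ⟨?_, fun j => ?_⟩
      · have h2 := h1 0
        have h3 : (bs.repr (y - a)) 0 = inner ℝ (bs 0) (y - a) := bs.repr_apply_apply _ _
        rw [h3, hbs] at h2
        simpa [abs_le] using h2
      · have h2 := h1 j.succ
        have h3 : (bs.repr (y - a)) j.succ = inner ℝ (bs j.succ) (y - a) := bs.repr_apply_apply _ _
        rw [h3, hbs] at h2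
        simpa [abs_le] using h2
  have hSm : MeasurableSet S := MeasurableSet.univ_pi (fun _ => measurableSet_Icc)
  have hmp1 : MeasurePreserving (fun y : Eu (d + 1) => y - a) := measurePreserving_sub_right volume a
  have hmp2 := bs.measurePreserving_repr
  have hmp3 := PiLp.volume_preserving_ofLp (Fin (d + 1))
  rw [h1, hmp1.measure_preimage, hmp2.measure_preimage, hmp3.measure_preimage hSm.nullMeasurableSet]
  · rw [hS, volume_pi_pi, Fin.prod_univ_succ]
    simp only [Fin.cons_zero, Fin.cons_succ, Real.volume_Icc, Finset.prod_const, Finset.card_univ,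
      Fintype.card_fin]
    congr 2
    · ring
    · congr 1; ring
  · exact (hmp3.measurable hSm).nullMeasurableSet
  · exact (hmp2.measurable (hmp3.measurable hSm)).nullMeasurableSet

lemma nrm_inner {d : ℕ} {x : Fin d → ℝ} {u : Eu (d + 1)} (h : inner ℝ u (nrm x) = (0 : ℝ)) :
    inner ℝ u (WithLp.toLp 2 (Fin.cons 1 (fun j => -2 * x j) : Fin (d + 1) → ℝ)) = (0 : ℝ) := by
  unfold nrm at h
  rw [inner_smul_right] at h
  have h1 : 0 < (√(1 + 4 * ∑ j, x j ^ 2))⁻¹ := by
    have : (0 : ℝ) ≤ ∑ j, x j ^ 2 := Finset.sum_nonneg (fun _ _ => sq_nonneg _)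
    positivity
  rcases mul_eq_zero.1 h with h2 | h2
  · exact absurd h2 h1.ne'
  · exact h2

/-- the estimate for one box of size `1 × (1/N)^d` -/
theorem box_core {d : ℕ} (hd : 1 ≤ d) {b : ℕ} (hb : 2 ≤ b) {ε : ℝ} (hε : 0 < ε) :
    ∃ (Q : ℕ) (C c : ℝ), 0 < C ∧ 0 < c ∧ ∀ M : ℕ, ∃ B : Set (Fin d → ℝ),
      MeasurableSet B ∧ volume B ≤ ENNReal.ofReal ((b : ℝ) ^ (-(c * M))) ∧
      ∀ g : (Fin (d + 1) → ℝ) → ℝ≥0∞, Measurable g →
      ∀ P : ℕ, (∀ k ≤ M, (range (shp g b k)).encard ≤ P) →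
      ∀ N : ℝ, 1 ≤ N → 1 / (b : ℝ) ^ M ≤ 1 / N →
      ∀ x v' : Fin d → ℝ, (∀ j, |x j| ≤ 1) → (∀ j, |v' j - (-2 * x j)| ≤ 1 / N) → v' ∉ B →
      ∀ (f : Fin d → Eu (d + 1)),
        Orthonormal ℝ (Fin.cons (nrm x) f : Fin (d + 1) → Eu (d + 1)) → ∀ a : Eu (d + 1),
        ∫⁻ y in bx (1 / 2) (1 / (2 * N)) (nrm x) f a, g (WithLp.ofLp y) ≤
          ENNReal.ofReal (C * (b : ℝ) ^ (ε * M)) * (P : ℝ≥0∞) ^ Q *
            (ENNReal.ofReal ((1 / N) ^ d) * (∫⁻ y, g y ^ (d + 1)) ^ (1 / ((d : ℝ) + 1))) := by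
  obtain ⟨Q, C0, c, hC0, hc, h⟩ := max_main d 3 hb hε
  have hb0 : 0 < b := by omega
  have hbr : (0 : ℝ) < b := by exact_mod_cast hb0
  have hbr1 : (1 : ℝ) ≤ b := by exact_mod_cast (by omega : 1 ≤ b)
  have hd0 : (0 : ℝ) ≤ d := by positivity
  set K : ℝ := 10 * ((d : ℝ) + 1) with hK
  have hK0 : 0 < K := by positivity
  refine ⟨Q, K ^ (d + 1) * C0, c, by positivity, hc, fun M => ?_⟩
  obtain ⟨B, hB, hvB, hF⟩ := h M
  refine ⟨B, hB, hvB, ?_⟩
  intro g hg P hP N hN hMN x v' hx hxv hvB' f hf a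
  have hN0 : 0 < N := by linarith
  have hP1 : 1 ≤ P := by
    have h1 := hP 0 (Nat.zero_le _)
    have h2 : 0 < (Set.range (shp g b 0)).encard := by
      rw [Set.encard_pos]
      exact Set.range_nonempty _
    have h3 : (0 : ℕ∞) < (P : ℕ∞) := h2.trans_le h1
    exact_mod_cast h3
  by_cases htop : ∫⁻ y, g y ^ (d + 1) = ∞
  · rw [htop, ENNReal.top_rpow_of_pos (by positivity), ENNReal.mul_top, ENNReal.mul_top]
    · exact le_top
    · apply mul_ne_zero
      · rw [← pos_iff_ne_zero, ENNReal.ofReal_pos]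
        positivity
      · apply pow_ne_zero
        exact_mod_cast (by omega : P ≠ 0)
    · rw [← pos_iff_ne_zero, ENNReal.ofReal_pos]
      positivity
  set w : Fin (d + 1) → ℝ := Fin.cons 1 v' with hw
  have h1N : 1 / N ≤ 1 := by rw [div_le_one hN0]; exact hN
  have hv3 : ∀ j, |v' j| ≤ ((3 : ℕ) : ℝ) := by
    intro j
    have h1 := hxv j
    have h2 := hx j
    rw [abs_le] at h1 h2 ⊢
    push_cast
    constructor <;> linarith [h1.1, h1.2, h2.1, h2.2]
  set L : ℝ≥0∞ := ENNReal.ofReal (C0 * (b : ℝ) ^ (ε * M)) * (P : ℝ≥0∞) ^ Q *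
            (∫⁻ y, g y ^ (d + 1)) ^ (1 / ((d : ℝ) + 1)) with hL
  have hline : ∀ p : Fin (d + 1) → ℝ,
      ∫⁻ t in Icc (0 : ℝ) 1, (avg g b M (cell b M (p + t • w)) : ℝ≥0∞) ≤ L := by
    intro p
    refine (hF (avg g b M) P (fun k hk => (encard_sh_avg hb0 hk g).trans (hP k hk)) v' hv3 hvB' p).trans ?_
    rw [hL]
    exact mul_le_mul' le_rfl (ENNReal.rpow_le_rpow (lintegral_avg_pow hd hb0 M hg) (by positivity))
  have hen : ‖nrm x‖ = 1 := by
    have := hf.1 0
    simpa using this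
  have hfn : ∀ j, ‖f j‖ = 1 := by
    intro j
    have := hf.1 j.succ
    simpa using this
  have hfe : ∀ j, inner ℝ (f j) (nrm x) = (0 : ℝ) := by
    intro j
    have := hf.2 (Fin.succ_ne_zero j)
    simpa using this
  set W0 : Eu (d + 1) := WithLp.toLp 2 (Fin.cons 1 (fun j => -2 * x j) : Fin (d + 1) → ℝ) with hW0
  have hfW0 : ∀ j, inner ℝ (f j) W0 = (0 : ℝ) := fun j => nrm_inner (hfe j)
  set W : Eu (d + 1) := WithLp.toLp 2 w with hW
  have hWW0 : ‖W - W0‖ ≤ ((d : ℝ) + 1) * (1 / N) := by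
    apply norm_le_of_coord _ (by positivity)
    intro j
    have h1 : (W - W0 : Eu (d + 1)) j =
        w j - (Fin.cons 1 (fun j => -2 * x j) : Fin (d + 1) → ℝ) j := rfl
    rw [h1, hw]
    refine Fin.cases ?_ (fun j => ?_) j
    · simp only [Fin.cons_zero, sub_self, abs_zero]; positivity
    · simp only [Fin.cons_succ]
      exact hxv j
  have hWn : ‖W‖ ≤ ((d : ℝ) + 1) * 3 := by
    apply norm_le_of_coord _ (by norm_num)
    intro j
    have h1 : W j = w j := rfl
    rw [h1, hw]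
    refine Fin.cases ?_ (fun j => ?_) j
    · simp
    · simp only [Fin.cons_succ]
      exact_mod_cast hv3 j
  set T : Set (Fin (d + 1) → ℝ) := WithLp.toLp 2 ⁻¹' bx (1 / 2) (1 / (2 * N)) (nrm x) f a with hT
  set D : Set (Eu (d + 1)) := bx (K * (1 / 2)) (K * (1 / (2 * N))) (nrm x) f a with hD
  have hDm : MeasurableSet D := measurableSet_bx _ _ _ _ _
  have hmp := PiLp.volume_preserving_toLp (Fin (d + 1))
  have hmp' := PiLp.volume_preserving_ofLp (Fin (d + 1))
  have hset := set_le_lines hd hb0 M hg htop T (WithLp.toLp 2 ⁻¹' D) (hmp.measurable hDm) w (by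
    intro X t ht Y hY hXY
    show WithLp.toLp 2 X ∈ D
    have hbN : (0 : ℝ) < (b : ℝ) ^ M := by positivity
    obtain ⟨hY1, hY2⟩ := hY
    set X' : Eu (d + 1) := WithLp.toLp 2 X with hX'
    set Y' : Eu (d + 1) := WithLp.toLp 2 Y with hY'
    set R : Eu (d + 1) := X' + t • W - Y' with hR
    have hRn : ‖R‖ ≤ ((d : ℝ) + 1) * (1 / N) := by
      refine le_trans ?_ (mul_le_mul_of_nonneg_left hMN (by positivity))
      apply norm_le_of_coord _ (by positivity)
      intro j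
      have h1 : R j = (X + t • w) j - Y j := rfl
      rw [h1]
      have h2 := congrFun hXY j
      have h3 := floor_bds (x := (b : ℝ) ^ M * (X + t • w) j) (q := cell b M Y j) h2
      have h4 := floor_bds (x := (b : ℝ) ^ M * Y j) (q := cell b M Y j) rfl
      rw [abs_le]
      constructor
      · rw [neg_le_iff_add_nonneg, ← mul_le_mul_iff_right₀ hbN]
        have : (b : ℝ) ^ M * ((X + t • w) j - Y j + 1 / (b : ℝ) ^ M) =
            (b : ℝ) ^ M * (X + t • w) j - (b : ℝ) ^ M * Y j + 1 := by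
          field_simp
        rw [this]
        linarith [h3.1, h3.2, h4.1, h4.2]
      · rw [← mul_le_mul_iff_right₀ hbN]
        have : (b : ℝ) ^ M * ((X + t • w) j - Y j) =
            (b : ℝ) ^ M * (X + t • w) j - (b : ℝ) ^ M * Y j := by ring
        rw [this, mul_one_div_cancel hbN.ne']
        linarith [h3.1, h3.2, h4.1, h4.2]
    have hX'a : X' - a = (Y' - a) - t • W + R := by
      rw [hR]; abel
    have hin : ∀ (q : Eu (d + 1)) (u : Eu (d + 1)), ‖q‖ = 1 → |(inner ℝ q u : ℝ)| ≤ ‖u‖ := by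
      intro q u hq
      have := abs_real_inner_le_norm q u
      rwa [hq, one_mul] at this
    have h1N0 : 0 < 1 / N := by positivity
    have ht0 := ht.1
    have ht1 := ht.2
    refine ⟨?_, fun j => ?_⟩
    · rw [hX'a, inner_add_right, inner_sub_right, inner_smul_right]
      have h1 := hin (nrm x) W hen
      have h2 := hin (nrm x) R hen
      have h3 : |t * (inner ℝ (nrm x) W : ℝ)| ≤ ((d : ℝ) + 1) * 3 := by
        rw [abs_mul, abs_of_nonneg ht0]
        have := abs_nonneg (inner ℝ (nrm x) W : ℝ)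
        nlinarith
      have h4 : |(inner ℝ (nrm x) R : ℝ)| ≤ (d : ℝ) + 1 := by
        refine h2.trans (hRn.trans ?_)
        nlinarith
      rw [abs_le] at h3 h4 hY1 ⊢
      constructor <;> linarith [h3.1, h3.2, h4.1, h4.2, hY1.1, hY1.2]
    · rw [hX'a, inner_add_right, inner_sub_right, inner_smul_right]
      have h1 : |t * (inner ℝ (f j) W : ℝ)| ≤ ((d : ℝ) + 1) * (1 / N) := by
        have h5 : inner ℝ (f j) W = inner ℝ (f j) (W - W0) := by
          rw [inner_sub_right, hfW0, sub_zero]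
        rw [h5, abs_mul, abs_of_nonneg ht0]
        have h6 := (hin (f j) (W - W0) (hfn j)).trans hWW0
        have := abs_nonneg (inner ℝ (f j) (W - W0) : ℝ)
        nlinarith
      have h2 := (hin (f j) R (hfn j)).trans hRn
      have h3 := hY2 j
      have h7 : 1 / (2 * N) = 1 / 2 * (1 / N) := by field_simp
      rw [h7] at h3 ⊢
      rw [abs_le] at h1 h2 h3 ⊢
      have h8 : 1 / N ≤ ((d : ℝ) + 1) * (1 / N) := by nlinarith
      constructor <;> nlinarith [h1.1, h1.2, h2.1, h2.2, h3.1, h3.2]) L hline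
  have h5 : ∫⁻ y in bx (1 / 2) (1 / (2 * N)) (nrm x) f a, g (WithLp.ofLp y) = ∫⁻ y in T, g y := by
    have hTm : MeasurableSet T := hmp.measurable (measurableSet_bx _ _ _ _ _)
    have h6 := hmp'.setLIntegral_comp_preimage hTm hg
    rw [← h6]
    rfl
  have h7 : volume (WithLp.toLp 2 ⁻¹' D) = volume D := hmp.measure_preimage hDm.nullMeasurableSet
  have h8 : volume D = ENNReal.ofReal (K ^ (d + 1) * (1 / N) ^ d) := by
    rw [hD, vol_bx (by positivity) (by positivity) hf]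
    have e1 : 2 * (K * (1 / 2)) = K := by ring
    have e2 : 2 * (K * (1 / (2 * N))) = K * (1 / N) := by field_simp
    rw [e1, e2, ← ENNReal.ofReal_pow (by positivity), ← ENNReal.ofReal_mul (by positivity)]
    congr 1
    ring
  rw [h5]
  rw [h7, h8] at hset
  refine hset.trans (le_of_eq ?_)
  rw [hL, ENNReal.ofReal_mul (p := K ^ (d + 1)) (by positivity), mul_assoc (K ^ (d + 1)) C0,
    ENNReal.ofReal_mul (p := K ^ (d + 1)) (by positivity)]
  ring

/-- the number of bad caps -/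
theorem bad_count {d : ℕ} (hd : 1 ≤ d) {ι : Type} [Fintype ι] {ω : ι → (Fin d → ℝ)} {ρ : ℝ}
    (hρ : 0 < ρ) (hsep : ∀ i j, i ≠ j → 2 * ρ ≤ dist (ω i) (ω j))
    {B : Set (Fin d → ℝ)} (s : Finset ι) (hs : ∀ i ∈ s, ball (ω i) ρ ⊆ B) :
    (s.card : ℝ≥0∞) * ENNReal.ofReal ((2 * ρ) ^ d) ≤ volume B := by
  have h1 : ∀ i, volume (ball (ω i) ρ) = ENNReal.ofReal ((2 * ρ) ^ d) := by
    intro i
    rw [Real.volume_pi_ball _ hρ, Fintype.card_fin]
  calc (s.card : ℝ≥0∞) * ENNReal.ofReal ((2 * ρ) ^ d) = ∑ i ∈ s, volume (ball (ω i) ρ) := by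
        rw [Finset.sum_congr rfl (fun i _ => h1 i), Finset.sum_const, nsmul_eq_mul]
    _ = volume (⋃ i ∈ s, ball (ω i) ρ) := by
        rw [measure_biUnion_finset]
        · intro i _ j _ hij
          apply Metric.ball_disjoint_ball
          linarith [hsep i j hij]
        · intro i _
          exact measurableSet_ball
    _ ≤ volume B := measure_mono (iUnion₂_subset hs)

end Pool.Agent.V114.KakCx
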