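import Pool.Agent.V114.KakCx.Tree
import Pool.Agent.H389R2.Dim.Lower

/-!
Regular trees of cells give lower bounds for the Hausdorff dimension.
-/

open MeasureTheory Set Filter Topology Metric
open scoped ENNReal NNReal

namespace Pool.Agent.V114.KakCx

variable {n : ℕ}

lemma card_Icc_floor {x r : ℝ} (hr : 1 ≤ r) :
    ((Finset.Icc ⌊x - r⌋ ⌊x + r⌋).card : ℝ) ≤ 4 * r := by
  rw [Int.card_Icc]
  have h1 := Int.lt_floor_add_one (x - r)
  have h2 := Int.floor_le (x + r)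
  have h3 : ⌊x - r⌋ ≤ ⌊x + r⌋ := Int.floor_le_floor (by linarith)
  have h4 : ((⌊x + r⌋ + 1 - ⌊x - r⌋).toNat : ℤ) = ⌊x + r⌋ + 1 - ⌊x - r⌋ :=
    Int.toNat_of_nonneg (by omega)
  have h5 : ((⌊x + r⌋ + 1 - ⌊x - r⌋).toNat : ℝ) = ⌊x + r⌋ + 1 - ⌊x - r⌋ := by
    exact_mod_cast congrArg (Int.cast (R := ℝ)) h4
  rw [h5]
  linarith

lemma prod_ge {b : ℕ} (hb : 2 ≤ b) {kk ss D : ℕ → ℕ} (hk : ∀ i, kk (i + 1) = kk i + ss i) {e : ℝ}
    (hD : ∀ l, (b : ℝ) ^ (e * ss l) ≤ D l) (i : ℕ) (L : ℕ) :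
    (b : ℝ) ^ (e * ((kk (i + L) : ℝ) - kk i)) ≤ ∏ l ∈ Finset.range L, (D (i + l) : ℝ) := by
  have hb0 : (0 : ℝ) < b := by exact_mod_cast (by omega : 0 < b)
  induction L with
  | zero => simp
  | succ L ih =>
    rw [Finset.prod_range_succ]
    have h1 : e * ((kk (i + (L + 1)) : ℝ) - kk i) = e * ((kk (i + L) : ℝ) - kk i) + e * ss (i + L) := by
      have : kk (i + (L + 1)) = kk (i + L) + ss (i + L) := hk (i + L)
      rw [this]
      push_cast
      ring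
    rw [h1, Real.rpow_add hb0]
    exact mul_le_mul ih (hD _) (by positivity) (Finset.prod_nonneg (fun _ _ => by positivity))

theorem dim_ge {K : Set (Fin n → ℝ)} (hK : IsCompact K) {b : ℕ} (hb : 2 ≤ b) {kk ss D : ℕ → ℕ}
    (hk : ∀ i, kk (i + 1) = kk i + ss i) (hss : ∀ l, 0 < ss l) {lam : ℝ} (hlam : 0 < lam)
    (hk2 : ∀ l, (kk (l + 1) : ℝ) ≤ lam * kk l)
    {κ : ℝ} (hκ0 : 0 < κ) (hκ : lam * κ < n) (hD : ∀ l, (b : ℝ) ^ (((n : ℝ) - κ) * ss l) ≤ D l)
    (i : ℕ) (hz : ∀ j, ∃ z, z ∈ H K b kk ss D j i) :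
    ENNReal.ofReal (n - lam * κ) ≤ dimH K := by
  classical
  have hb0 : (0 : ℝ) < b := by exact_mod_cast (by omega : 0 < b)
  have hb1 : (1 : ℝ) ≤ b := by exact_mod_cast (by omega : 1 ≤ b)
  have hb2 : (2 : ℝ) ≤ b := by exact_mod_cast hb
  have hbN : 0 < b := by omega
  set t : ℝ := n - lam * κ with ht
  have hlk : 0 < lam * κ := by positivity
  have ht0 : 0 < t := by rw [ht]; linarith
  set c : ℝ := ((4 : ℝ) ^ n * (b : ℝ) ^ (n * kk i))⁻¹ with hc
  have hc0 : 0 < c := by positivity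
  refine Pool.Agent.H389R2.Dim.le_dimH_of_good ht0 hc0 hK ?_
  intro δ hδ s hs hcov
  have hnn : ∀ p ∈ s, 0 ≤ p.2 ^ t := fun p hp => Real.rpow_nonneg (hδ.le.trans (hs p hp)) _
  by_cases hA : ∃ p ∈ s, 1 ≤ p.2 * (b : ℝ) ^ (kk i)
  · obtain ⟨p, hp, hp1⟩ := hA
    refine le_trans ?_ (Finset.single_le_sum hnn hp)
    have hρ : ((b : ℝ) ^ (kk i))⁻¹ ≤ p.2 := by
      rw [inv_le_iff_one_le_mul₀ (by positivity)]
      exact hp1
    have h1 : (((b : ℝ) ^ (kk i))⁻¹) ^ t ≤ p.2 ^ t := Real.rpow_le_rpow (by positivity) hρ ht0.le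
    refine le_trans ?_ h1
    have h2 : ((b : ℝ) ^ (kk i))⁻¹ ≤ 1 := inv_le_one_of_one_le₀ (one_le_pow₀ hb1)
    have h3 : (((b : ℝ) ^ (kk i))⁻¹) ^ (n : ℝ) ≤ (((b : ℝ) ^ (kk i))⁻¹) ^ t :=
      Real.rpow_le_rpow_of_exponent_ge (by positivity) h2 (by rw [ht]; linarith)
    refine le_trans ?_ h3
    rw [Real.rpow_natCast, hc, inv_pow, ← pow_mul, mul_comm (kk i) n]
    apply inv_anti₀ (by positivity)
    have : (1 : ℝ) ≤ 4 ^ n := one_le_pow₀ (by norm_num)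
    have h5 : (0 : ℝ) < (b : ℝ) ^ (n * kk i) := by positivity
    nlinarith
  push Not at hA
  -- the depth
  have hkk_ge : ∀ l, l ≤ kk (i + l) := by
    intro l
    induction l with
    | zero => exact Nat.zero_le _
    | succ l ih =>
      have h1 : kk (i + (l + 1)) = kk (i + l) + ss (i + l) := hk (i + l)
      have h2 := hss (i + l)
      omega
  have hex : ∀ ρ : ℝ, 0 < ρ → ∃ l, 1 ≤ ρ * (b : ℝ) ^ (kk (i + l)) := by
    intro ρ hρ
    obtain ⟨l, hl⟩ := pow_unbounded_of_one_lt (1 / ρ) (show (1 : ℝ) < 2 by norm_num)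
    refine ⟨l, ?_⟩
    have h1 : (2 : ℝ) ^ l ≤ (b : ℝ) ^ (kk (i + l)) :=
      (pow_le_pow_right₀ (by norm_num) (hkk_ge l)).trans (pow_le_pow_left₀ (by norm_num) hb2 _)
    rw [div_lt_iff₀ hρ] at hl
    nlinarith
  obtain ⟨j, hj⟩ := hex δ hδ
  have hmono := kk_mono hk
  obtain ⟨z, hz⟩ := hz j
  obtain ⟨F, hF1, -, hF3, hF4⟩ := tree hbN hk j i z hz
  -- the depth of a ball
  have hL : ∀ p : (Fin n → ℝ) × ℝ, ∃ L, p ∈ s → (L + 1 ≤ j ∧ 1 ≤ p.2 * (b : ℝ) ^ (kk (i + (L + 1))) ∧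
      p.2 * (b : ℝ) ^ (kk (i + L)) < 1) := by
    intro p
    by_cases hp : p ∈ s
    · have hp0 : 0 < p.2 := hδ.trans_le (hs p hp)
      have hp1 : 1 ≤ p.2 * (b : ℝ) ^ (kk (i + j)) := by
        have : δ * (b : ℝ) ^ (kk (i + j)) ≤ p.2 * (b : ℝ) ^ (kk (i + j)) :=
          mul_le_mul_of_nonneg_right (hs p hp) (by positivity)
        linarith
      have hexp : ∃ l, 1 ≤ p.2 * (b : ℝ) ^ (kk (i + l)) := ⟨j, hp1⟩
      have hpos : Nat.find hexp ≠ 0 := by
        intro h0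
        have := Nat.find_spec hexp
        rw [h0, add_zero] at this
        exact absurd this (not_le.2 (hA p hp))
      obtain ⟨L, hL⟩ := Nat.exists_eq_succ_of_ne_zero hpos
      refine ⟨L, fun _ => ⟨?_, ?_, ?_⟩⟩
      · have := Nat.find_min' hexp hp1
        omega
      · have := Nat.find_spec hexp
        rw [hL] at this
        exact this
      · have := Nat.find_min hexp (m := L) (by omega)
        exact not_le.1 this
    · exact ⟨0, fun h => absurd h hp⟩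
  choose L hL using hL
  -- the cells met by a ball
  set bx : (Fin n → ℝ) × ℝ → Finset (Fin n → ℤ) := fun p => Fintype.piFinset (fun q =>
    Finset.Icc ⌊(b : ℝ) ^ (kk (i + (L p + 1))) * p.1 q - p.2 * (b : ℝ) ^ (kk (i + (L p + 1)))⌋
      ⌊(b : ℝ) ^ (kk (i + (L p + 1))) * p.1 q + p.2 * (b : ℝ) ^ (kk (i + (L p + 1)))⌋) with hbx
  have hbxcard : ∀ p ∈ s, ((bx p).card : ℝ) ≤ (4 * (p.2 * (b : ℝ) ^ (kk (i + (L p + 1))))) ^ n := by
    intro p hp
    simp only [hbx]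
    rw [Fintype.card_piFinset]
    push_cast
    calc _ ≤ ∏ q : Fin n, (4 * (p.2 * (b : ℝ) ^ (kk (i + (L p + 1))))) := by
          apply Finset.prod_le_prod
          · intro q _; positivity
          · intro q _
            exact card_Icc_floor (hL p hp).2.1
      _ = _ := by simp
  have hFsub : F ⊆ s.biUnion (fun p => (bx p).biUnion (fun c =>
      F.filter (fun y => ∀ q, y q / (b : ℤ) ^ (kk (i + j) - kk (i + (L p + 1))) = c q))) := by
    intro y hy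
    obtain ⟨ξ, hξK, hξ⟩ := ty_nonempty hbN (hF1 y hy)
    obtain ⟨p, hp, hpξ⟩ := mem_iUnion₂.1 (hcov hξK)
    rw [Finset.mem_biUnion]
    refine ⟨p, hp, ?_⟩
    rw [Finset.mem_biUnion]
    refine ⟨cell b (kk (i + (L p + 1))) ξ, ?_, ?_⟩
    · simp only [hbx]
      rw [Fintype.mem_piFinset]
      intro q
      rw [Finset.mem_Icc]
      have h1 : dist (ξ q) (p.1 q) < p.2 := (dist_le_pi_dist ξ p.1 q).trans_lt hpξ
      rw [Real.dist_eq, abs_lt] at h1
      have h2 : (0 : ℝ) < (b : ℝ) ^ (kk (i + (L p + 1))) := by positivity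
      constructor
      · apply Int.floor_le_floor
        nlinarith [h1.1]
      · apply Int.floor_le_floor
        nlinarith [h1.2]
    · rw [Finset.mem_filter]
      refine ⟨hy, fun q => ?_⟩
      have h1 : kk (i + j) = kk (i + (L p + 1)) + (kk (i + j) - kk (i + (L p + 1))) := by
        have := hmono (show i + (L p + 1) ≤ i + j by have := (hL p hp).1; omega)
        omega
      rw [← hξ]
      have h2 := cell_ediv hbN (kk (i + (L p + 1))) (kk (i + j) - kk (i + (L p + 1))) ξ q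
      rw [← h1] at h2
      exact h2
  have hcard : (F.card : ℝ) ≤ ∑ p ∈ s, (4 * (p.2 * (b : ℝ) ^ (kk (i + (L p + 1))))) ^ n *
      ∏ l' ∈ Finset.Ico (L p + 1) j, (D (i + l') : ℝ) := by
    have h1 : F.card ≤ ∑ p ∈ s, (bx p).card * ∏ l' ∈ Finset.Ico (L p + 1) j, D (i + l') := by
      refine (Finset.card_le_card hFsub).trans (Finset.card_biUnion_le.trans ?_)
      apply Finset.sum_le_sum
      intro p hp
      refine Finset.card_biUnion_le.trans ?_
      calc _ ≤ ∑ c ∈ bx p, ∏ l' ∈ Finset.Ico (L p + 1) j, D (i + l') :=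
            Finset.sum_le_sum (fun c _ => hF4 (L p + 1) (hL p hp).1 c)
        _ = _ := by rw [Finset.sum_const, smul_eq_mul]
    have h2 : (F.card : ℝ) ≤ ∑ p ∈ s, ((bx p).card : ℝ) *
        ∏ l' ∈ Finset.Ico (L p + 1) j, (D (i + l') : ℝ) := by exact_mod_cast h1
    refine h2.trans (Finset.sum_le_sum (fun p hp => ?_))
    exact mul_le_mul_of_nonneg_right (hbxcard p hp) (Finset.prod_nonneg (fun _ _ => by positivity))
  have hDpos : ∀ l, (0 : ℝ) < D l := fun l => lt_of_lt_of_le (by positivity) (hD l)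
  have hPpos : ∀ T : Finset ℕ, (0 : ℝ) < ∏ l ∈ T, (D (i + l) : ℝ) :=
    fun T => Finset.prod_pos (fun l _ => hDpos _)
  -- each term
  have hterm : ∀ p ∈ s, (4 * (p.2 * (b : ℝ) ^ (kk (i + (L p + 1))))) ^ n ≤
      c⁻¹ * p.2 ^ t * ∏ l' ∈ Finset.range (L p + 1), (D (i + l') : ℝ) := by
    intro p hp
    obtain ⟨g1, g2, g3⟩ := hL p hp
    have hp0 : 0 < p.2 := hδ.trans_le (hs p hp)
    have hP := prod_ge hb hk hD i (L p + 1)
    set k := kk (i + (L p + 1)) with hkdef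
    set k' := kk (i + L p) with hk'def
    have hkk' : (k : ℝ) ≤ lam * k' := hk2 (i + L p)
    rw [hc, inv_inv]
    refine le_trans ?_ (mul_le_mul_of_nonneg_left hP (by positivity))
    have e1 : (4 * (p.2 * (b : ℝ) ^ k)) ^ n = 4 ^ n * p.2 ^ (n : ℝ) * (b : ℝ) ^ ((n : ℝ) * k) := by
      rw [mul_pow, mul_pow, ← pow_mul, Real.rpow_natCast, mul_comm k n, ← mul_assoc]
      congr 1
      rw [← Nat.cast_mul, Real.rpow_natCast]
    have e2 : p.2 ^ (n : ℝ) = p.2 ^ t * p.2 ^ (lam * κ) := by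
      rw [← Real.rpow_add hp0]
      congr 1
      rw [ht]; ring
    have e3 : (b : ℝ) ^ ((n : ℝ) * k) = (b : ℝ) ^ (((n : ℝ) - κ) * ((k : ℝ) - kk i)) *
        ((b : ℝ) ^ (κ * k) * (b : ℝ) ^ (((n : ℝ) - κ) * kk i)) := by
      rw [← Real.rpow_add hb0, ← Real.rpow_add hb0]
      congr 1
      ring
    have e4 : (b : ℝ) ^ (n * kk i) = (b : ℝ) ^ ((n : ℝ) * kk i) := by
      rw [← Nat.cast_mul, Real.rpow_natCast]
    have h1 : p.2 ≤ (b : ℝ) ^ (-(k' : ℝ)) := by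
      rw [Real.rpow_neg hb0.le, Real.rpow_natCast, ← one_div, le_div_iff₀ (by positivity)]
      exact g3.le
    have h2 : p.2 ^ (lam * κ) ≤ (b : ℝ) ^ (-(lam * κ * k')) := by
      refine (Real.rpow_le_rpow hp0.le h1 (by positivity)).trans (le_of_eq ?_)
      rw [← Real.rpow_mul hb0.le]
      congr 1
      ring
    have h3 : p.2 ^ (lam * κ) * (b : ℝ) ^ (κ * k) ≤ 1 := by
      calc _ ≤ (b : ℝ) ^ (-(lam * κ * k')) * (b : ℝ) ^ (κ * k) :=
            mul_le_mul_of_nonneg_right h2 (by positivity)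
        _ = (b : ℝ) ^ (-(lam * κ * k') + κ * k) := (Real.rpow_add hb0 _ _).symm
        _ ≤ (b : ℝ) ^ (0 : ℝ) := by
            apply Real.rpow_le_rpow_of_exponent_le hb1
            nlinarith
        _ = 1 := Real.rpow_zero _
    have h4 : (b : ℝ) ^ (((n : ℝ) - κ) * kk i) ≤ (b : ℝ) ^ ((n : ℝ) * kk i) := by
      apply Real.rpow_le_rpow_of_exponent_le hb1
      have : (0 : ℝ) ≤ kk i := by positivity
      nlinarith
    rw [e1, e2, e3, e4]
    have hX : 0 < (b : ℝ) ^ (((n : ℝ) - κ) * ((k : ℝ) - kk i)) := by positivity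
    have hY : 0 < p.2 ^ t := by positivity
    calc _ = (4 ^ n * p.2 ^ t * (b : ℝ) ^ (((n : ℝ) - κ) * ((k : ℝ) - kk i))) *
          ((p.2 ^ (lam * κ) * (b : ℝ) ^ (κ * k)) * (b : ℝ) ^ (((n : ℝ) - κ) * kk i)) := by ring
      _ ≤ (4 ^ n * p.2 ^ t * (b : ℝ) ^ (((n : ℝ) - κ) * ((k : ℝ) - kk i))) *
          (1 * (b : ℝ) ^ ((n : ℝ) * kk i)) := by
            apply mul_le_mul_of_nonneg_left _ (by positivity)
            exact mul_le_mul h3 h4 (by positivity) zero_le_one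
      _ = _ := by ring
  have hsplit : ∀ p ∈ s, (∏ l' ∈ Finset.range (L p + 1), (D (i + l') : ℝ)) *
      ∏ l' ∈ Finset.Ico (L p + 1) j, (D (i + l') : ℝ) = ∏ l ∈ Finset.range j, (D (i + l) : ℝ) := by
    intro p hp
    exact Finset.prod_range_mul_prod_Ico _ (hL p hp).1
  have hfinal : ∏ l ∈ Finset.range j, (D (i + l) : ℝ) ≤
      (∏ l ∈ Finset.range j, (D (i + l) : ℝ)) * (c⁻¹ * ∑ p ∈ s, p.2 ^ t) := by
    have h0 : (F.card : ℝ) = ∏ l ∈ Finset.range j, (D (i + l) : ℝ) := by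
      rw [hF3]; push_cast; rfl
    rw [← h0]
    refine hcard.trans ?_
    rw [h0, Finset.mul_sum, Finset.mul_sum]
    apply Finset.sum_le_sum
    intro p hp
    calc _ ≤ (c⁻¹ * p.2 ^ t * ∏ l' ∈ Finset.range (L p + 1), (D (i + l') : ℝ)) *
          ∏ l' ∈ Finset.Ico (L p + 1) j, (D (i + l') : ℝ) :=
            mul_le_mul_of_nonneg_right (hterm p hp) (hPpos _).le
      _ = c⁻¹ * p.2 ^ t * ((∏ l' ∈ Finset.range (L p + 1), (D (i + l') : ℝ)) *
          ∏ l' ∈ Finset.Ico (L p + 1) j, (D (i + l') : ℝ)) := by ring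
      _ = _ := by rw [hsplit p hp]; ring
  have h1 : 1 ≤ c⁻¹ * ∑ p ∈ s, p.2 ^ t := by
    have hP := hPpos (Finset.range j)
    by_contra hcon
    push Not at hcon
    nlinarith
  rw [inv_mul_eq_div, le_div_iff₀ hc0, one_mul] at h1
  exact h1

end Pool.Agent.V114.KakCx
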