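import Pool.Agent.V114.KakCx.Dirs
import Pool.Agent.V114.KakCx.Cover

/-!
Compact sets of low complexity which contain a segment in a typical direction have large dimension.
-/

open MeasureTheory Set Filter Topology
open scoped ENNReal NNReal

namespace Pool.Agent.V114.KakCx

variable {m : ℕ}

lemma term_le {m b : ℕ} (hm : 0 < m) (hb : 2 ≤ b) {κ η C : ℝ} (hκ0 : 0 < κ) (hκ1 : κ ≤ m + 1)
    (hη : η ≤ κ / m) (hC : 0 < C) {l P h : ℕ}
    (hP : (P : ℝ) ≤ (b : ℝ) ^ (η * (KK m l : ℕ)))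
    (hh : (h : ℝ) ≤ ((l : ℝ) + 1) ^ 2 * (C * (b : ℝ) ^ (KK m l - m * SS m l))) :
    (P : ℝ) * (⌈(b : ℝ) ^ (((m : ℝ) + 1 - κ) * SS m l)⌉₊ : ℝ) *
      (h * (1 / (b : ℝ) ^ (KK m (l + 1)))) ≤
      2 * C * (b : ℝ) ^ κ * (((l : ℝ) + 1) ^ 2 * ((b : ℝ) ^ (-(κ / m - η))) ^ l) := by
  have hb0 : (0 : ℝ) < b := by exact_mod_cast (by omega : 0 < b)
  have hb1 : (1 : ℝ) ≤ b := by exact_mod_cast (by omega : 1 ≤ b)
  have hmr : (0 : ℝ) < m := by exact_mod_cast hm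
  set k := KK m l with hk
  set s := SS m l with hs
  have hms : m * s ≤ k := SS_mul m l
  have hks : (k : ℝ) ≤ m * s + m := by exact_mod_cast KK_le_SS hm l
  have hlk : (l : ℝ) ≤ k := by exact_mod_cast KK_ge_self hm l
  have hD : (⌈(b : ℝ) ^ (((m : ℝ) + 1 - κ) * s)⌉₊ : ℝ) ≤ 2 * (b : ℝ) ^ (((m : ℝ) + 1 - κ) * s) := by
    have h1 : (1 : ℝ) ≤ (b : ℝ) ^ (((m : ℝ) + 1 - κ) * s) :=
      Real.one_le_rpow hb1 (mul_nonneg (by linarith) (by positivity))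
    have h2 := (Nat.ceil_lt_add_one (by linarith : 0 ≤ (b : ℝ) ^ (((m : ℝ) + 1 - κ) * s))).le
    linarith
  have e1 : (b : ℝ) ^ (k - m * s) = (b : ℝ) ^ ((k : ℝ) - m * s) := by
    rw [← Real.rpow_natCast, Nat.cast_sub hms]
    push_cast
    rfl
  have e2 : 1 / (b : ℝ) ^ (KK m (l + 1)) = (b : ℝ) ^ (-((k : ℝ) + s)) := by
    rw [KK_succ, Real.rpow_neg hb0.le, one_div, ← Nat.cast_add, Real.rpow_natCast]
  have e3 : ((b : ℝ) ^ (-(κ / m - η))) ^ l = (b : ℝ) ^ (-(κ / m - η) * l) := by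
    rw [← Real.rpow_natCast, ← Real.rpow_mul hb0.le]
  rw [e2, e3]
  rw [e1] at hh
  have hexp : η * k + ((m : ℝ) + 1 - κ) * s + ((k : ℝ) - m * s) + (-((k : ℝ) + s)) ≤
      κ + -(κ / m - η) * l := by
    have h1 : η * k + ((m : ℝ) + 1 - κ) * s + ((k : ℝ) - m * s) +
        (-((k : ℝ) + s)) = η * k - κ * s := by ring
    rw [h1]
    have h2 : κ / m * k ≤ κ * s + κ := by
      rw [div_mul_eq_mul_div, div_le_iff₀ hmr]
      nlinarith
    have h3 : (κ / m - η) * l ≤ (κ / m - η) * k :=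
      mul_le_mul_of_nonneg_left hlk (by linarith)
    nlinarith
  calc (P : ℝ) * (⌈(b : ℝ) ^ (((m : ℝ) + 1 - κ) * s)⌉₊ : ℝ) * (h * (b : ℝ) ^ (-((k : ℝ) + s)))
      ≤ (b : ℝ) ^ (η * k) * (2 * (b : ℝ) ^ (((m : ℝ) + 1 - κ) * s)) *
        ((((l : ℝ) + 1) ^ 2 * (C * (b : ℝ) ^ ((k : ℝ) - m * s))) * (b : ℝ) ^ (-((k : ℝ) + s))) := by
        gcongr
    _ = 2 * C * (((l : ℝ) + 1) ^ 2 * ((b : ℝ) ^ (η * k) *
        (b : ℝ) ^ (((m : ℝ) + 1 - κ) * s) * (b : ℝ) ^ ((k : ℝ) - m * s) *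
        (b : ℝ) ^ (-((k : ℝ) + s)))) := by ring
    _ = 2 * C * (((l : ℝ) + 1) ^ 2 * (b : ℝ) ^ (η * k + ((m : ℝ) + 1 - κ) * s +
        ((k : ℝ) - m * s) + (-((k : ℝ) + s)))) := by
        rw [← Real.rpow_add hb0, ← Real.rpow_add hb0, ← Real.rpow_add hb0]
    _ ≤ 2 * C * (((l : ℝ) + 1) ^ 2 * (b : ℝ) ^ (κ + -(κ / m - η) * l)) := by
        gcongr
    _ = _ := by
        rw [Real.rpow_add hb0]
        ring

lemma summable_aux {q : ℝ} (hq0 : 0 < q) (hq1 : q < 1) (A : ℝ) :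
    Summable (fun l : ℕ => A * (((l : ℝ) + 1) ^ 2 * q ^ l)) := by
  apply Summable.mul_left
  have h1 := summable_pow_mul_geometric_of_norm_lt_one (R := ℝ) 2 (r := q)
    (by rw [Real.norm_of_nonneg hq0.le]; exact hq1)
  have h2 := ((summable_nat_add_iff 1).2 h1).mul_right (1 / q)
  refine h2.congr (fun l => ?_)
  push_cast
  rw [pow_succ q l]
  field_simp

theorem dim_ge_of_good {b : ℕ} (hm : 0 < m) (hb : 2 ≤ b) {v : Fin m → ℝ}
    (hv : ∀ R : ℕ, (∀ j, |v j| ≤ R) →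
      ∀ᶠ l : ℕ in atTop, ((hits b (KK m l) (SS m l) R v).card : ℝ) ≤
        ((l : ℝ) + 1) ^ 2 * (C2 m R * (b : ℝ) ^ (KK m l - m * SS m l)))
    {K : Set (Fin (m + 1) → ℝ)} (hK : IsCompact K) {η : ℝ}
    (hcx : ∀ᶠ k : ℕ in atTop, ((Set.range (ty K b k)).ncard : ℝ) ≤ (b : ℝ) ^ (η * k))
    {p : Fin (m + 1) → ℝ} {ℓ : ℝ} (hℓ0 : 0 < ℓ) (hℓ1 : ℓ ≤ 1)
    (hseg : ∀ t ∈ Icc 0 ℓ, pt p v t ∈ K) {κ : ℝ} (hκ0 : 0 < κ) (hκη : η < κ / m)
    (hκ : ((m : ℝ) + 1) / m * κ < m + 1) :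
    ENNReal.ofReal ((m : ℝ) + 1 - ((m : ℝ) + 1) / m * κ) ≤ dimH K := by
  have hb0 : (0 : ℝ) < b := by exact_mod_cast (by omega : 0 < b)
  have hb1 : (1 : ℝ) < b := by exact_mod_cast (by omega : 1 < b)
  have hmr : (0 : ℝ) < m := by exact_mod_cast hm
  have hbN : 0 < b := by omega
  have hκm : κ ≤ m + 1 := by
    have h1 : (1 : ℝ) ≤ ((m : ℝ) + 1) / m := by
      rw [le_div_iff₀ hmr]; linarith
    nlinarith
  obtain ⟨R, hR⟩ : ∃ R : ℕ, ∀ j, |v j| ≤ R := by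
    obtain ⟨R, hR⟩ := exists_nat_ge ‖v‖
    exact ⟨R, fun j => (norm_le_pi_norm v j).trans hR⟩
  set D : ℕ → ℕ := fun l => ⌈(b : ℝ) ^ (((m : ℝ) + 1 - κ) * SS m l)⌉₊ with hD
  set q : ℝ := (b : ℝ) ^ (-(κ / m - η)) with hq
  have hq0 : 0 < q := by positivity
  have hq1 : q < 1 := by
    rw [hq]
    apply Real.rpow_lt_one_of_one_lt_of_neg hb1
    linarith
  set f : ℕ → ℝ := fun l => 2 * C2 m R * (b : ℝ) ^ κ * (((l : ℝ) + 1) ^ 2 * q ^ l) with hf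
  have hfs : Summable f := summable_aux hq0 hq1 _
  have hf0 : ∀ l, 0 ≤ f l := fun l => by
    have := C2_pos m R
    positivity
  have htail : ∀ᶠ i : ℕ in atTop, ∑' l, f (l + i) < ℓ :=
    (tendsto_sum_nat_add f).eventually (gt_mem_nhds hℓ0)
  have hKKt : Tendsto (KK m) atTop atTop := tendsto_atTop_mono (KK_ge_self hm) tendsto_id
  have hty := hKKt.eventually hcx
  obtain ⟨i, hi⟩ := ((hv R hR).and hty).exists_forall_of_atTop
  obtain ⟨i', hi'⟩ := (htail.and (eventually_ge_atTop i)).exists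
  have hmain : ∀ j, ∃ z, z ∈ H K b (KK m) (SS m) D j i' := by
    intro j
    by_contra hcon
    push Not at hcon
    have h1 := time_out (D := D) hbN hK.isBounded (KK_succ m) p v hR hℓ1 hseg j i'
    have h2 : {t | t ∈ Icc 0 ℓ ∧ cell b (KK m i') (pt p v t) ∉ H K b (KK m) (SS m) D j i'} =
        Icc 0 ℓ := by
      ext t
      simp only [mem_ofPred_eq, and_iff_left_iff_imp]
      intro _
      exact hcon _
    rw [h2, Real.volume_Icc, sub_zero] at h1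
    have h3 : ∀ l ∈ Finset.range j, ((Set.range (ty K b (KK m (i' + l)))).ncard : ℝ≥0∞) *
        (D (i' + l) : ℝ≥0∞) * ((hits b (KK m (i' + l)) (SS m (i' + l)) R v).card *
          ENNReal.ofReal (1 / (b : ℝ) ^ (KK m (i' + l + 1)))) ≤ ENNReal.ofReal (f (l + i')) := by
      intro l _
      have hg := hi (i' + l) (by have := hi'.2; omega)
      have h4 := term_le hm hb hκ0 hκm hκη.le (C2_pos m R) hg.2 hg.1
      rw [← ENNReal.ofReal_natCast, ← ENNReal.ofReal_natCast, ← ENNReal.ofReal_natCast,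
        ← ENNReal.ofReal_mul (by positivity), ← ENNReal.ofReal_mul (by positivity),
        ← ENNReal.ofReal_mul (by positivity)]
      apply ENNReal.ofReal_le_ofReal
      rw [add_comm l i']
      exact h4
    have h5 : ENNReal.ofReal ℓ ≤ ENNReal.ofReal (∑' l, f (l + i')) := by
      refine h1.trans ((Finset.sum_le_sum h3).trans ?_)
      rw [← ENNReal.ofReal_sum_of_nonneg (fun l _ => hf0 _)]
      apply ENNReal.ofReal_le_ofReal
      exact ((summable_nat_add_iff i').2 hfs).sum_le_tsum _ (fun l _ => hf0 _)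
    have h6 : 0 ≤ ∑' l, f (l + i') := tsum_nonneg (fun l => hf0 _)
    have h7 := (ENNReal.ofReal_le_ofReal_iff h6).1 h5
    exact absurd hi'.1 (not_lt.2 h7)
  have hn : (((m + 1 : ℕ) : ℝ)) = (m : ℝ) + 1 := by push_cast; rfl
  have hlam : ∀ l, (KK m (l + 1) : ℝ) ≤ ((m : ℝ) + 1) / m * KK m l := by
    intro l
    have h1 : (m : ℝ) * SS m l ≤ KK m l := by exact_mod_cast SS_mul m l
    rw [KK_succ, div_mul_eq_mul_div, le_div_iff₀ hmr]
    push_cast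
    nlinarith
  have := dim_ge (n := m + 1) hK hb (KK_succ m) (fun l => by have := SS_ge hm l; omega)
    (by positivity) hlam hκ0 (by rw [hn]; exact hκ)
    (D := D) (fun l => by rw [hn]; exact Nat.le_ceil _) i' hmain
  rw [hn] at this
  exact this

/-- For almost every `v`, for all bases `b` and all compact sets `K`: if `K` contains a segment in
the direction `(1, v)` and has at most `b ^ ((η + o(1)) k)` shapes of `b`-adic cells of level `k`,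
then its Hausdorff dimension is at least `(m + 1) (1 - η)`. -/
theorem main {m : ℕ} (hm : 0 < m) : ∀ᵐ v : Fin m → ℝ, ∀ b : ℕ, 2 ≤ b →
    ∀ K : Set (Fin (m + 1) → ℝ), IsCompact K → ∀ η : ℝ, 0 ≤ η →
    (∀ η' : ℝ, η < η' → ∀ᶠ k : ℕ in atTop,
      ((Set.range (ty K b k)).ncard : ℝ) ≤ (b : ℝ) ^ (η' * k)) →
    (∃ (p : Fin (m + 1) → ℝ) (ℓ : ℝ), 0 < ℓ ∧
      ∀ t ∈ Icc 0 ℓ, p + t • (Fin.cons 1 v : Fin (m + 1) → ℝ) ∈ K) →
    ENNReal.ofReal (((m : ℝ) + 1) * (1 - η)) ≤ dimH K := by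
  have hae : ∀ᵐ v : Fin m → ℝ, ∀ b : ℕ, 2 ≤ b → ∀ R : ℕ, (∀ j, |v j| ≤ R) →
      ∀ᶠ l : ℕ in atTop, ((hits b (KK m l) (SS m l) R v).card : ℝ) ≤
        ((l : ℝ) + 1) ^ 2 * (C2 m R * (b : ℝ) ^ (KK m l - m * SS m l)) := by
    rw [ae_all_iff]
    intro b
    by_cases hb : 2 ≤ b
    · filter_upwards [ae_dir m (b := b) (by omega)] with v hv _
      exact hv
    · exact Filter.Eventually.of_forall (fun v h => absurd h hb)
  filter_upwards [hae] with v hv b hb K hK η hη hcx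
  rintro ⟨p, ℓ, hℓ, hseg⟩
  have hmr : (0 : ℝ) < m := by exact_mod_cast hm
  have hseg' : ∀ t ∈ Icc 0 (min ℓ 1), pt p v t ∈ K := by
    intro t ht
    exact hseg t ⟨ht.1, ht.2.trans (min_le_left _ _)⟩
  by_contra hcon
  push Not at hcon
  have hne : dimH K ≠ ∞ := (hcon.trans_le le_top).ne
  set d := (dimH K).toReal with hdd
  have hd0 : 0 ≤ d := ENNReal.toReal_nonneg
  have hd : d < ((m : ℝ) + 1) * (1 - η) := by
    rw [← ENNReal.ofReal_toReal hne, ← hdd] at hcon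
    exact (ENNReal.ofReal_lt_ofReal_iff_of_nonneg hd0).1 hcon
  -- choose κ
  set κ : ℝ := m * (η + (((m : ℝ) + 1) * (1 - η) - d) / (2 * (m + 1))) with hκ
  have hg : 0 < (((m : ℝ) + 1) * (1 - η) - d) / (2 * (m + 1)) := by
    apply div_pos <;> linarith
  have hκm : κ / m = η + (((m : ℝ) + 1) * (1 - η) - d) / (2 * (m + 1)) := by
    rw [hκ]; field_simp
  have hlamκ : ((m : ℝ) + 1) / m * κ = ((m : ℝ) + 1) * η + (((m : ℝ) + 1) * (1 - η) - d) / 2 := by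
    rw [hκ]; field_simp
  have hκ0 : 0 < κ := by rw [hκ]; positivity
  have hlt : η < κ / m := by rw [hκm]; linarith
  obtain ⟨η', h1, h2⟩ := exists_between hlt
  have h3 := dim_ge_of_good hm hb (hv b hb) hK (hcx η' h1) (lt_min hℓ one_pos) (min_le_right _ _)
    hseg' hκ0 h2 (by rw [hlamκ]; nlinarith)
  rw [ENNReal.ofReal_le_iff_le_toReal hne, ← hdd, hlamκ] at h3
  nlinarith

end Pool.Agent.V114.KakCx
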