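import Mathlib

/-!
`b`-adic cells of `ℝⁿ` and the shape of a set in them.
-/

open MeasureTheory Set Filter Topology
open scoped ENNReal NNReal

namespace Pool.Agent.V114.KakCx

variable {n : ℕ}

/-- The index of the `b`-adic cell of level `k` (a half-open cube of side `b ^ (-k)`) which contains
the point `y`. -/
noncomputable def cell (b k : ℕ) (y : Fin n → ℝ) : Fin n → ℤ := fun i => ⌊(b : ℝ) ^ k * y i⌋

/-- The part of `K` in the `b`-adic cell `∏ [z i / b ^ k, (z i + 1) / b ^ k)` of level `k`, enlarged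
by the homothety which carries this cell onto the unit cube `[0, 1) ^ n`. -/
def ty (K : Set (Fin n → ℝ)) (b k : ℕ) (z : Fin n → ℤ) : Set (Fin n → ℝ) :=
  {u | (∀ i, 0 ≤ u i ∧ u i < 1) ∧ (fun i => ((z i : ℝ) + u i) / (b : ℝ) ^ k) ∈ K}

lemma floor_mul_ediv {N : ℤ} (hN : 0 < N) (x : ℝ) : ⌊(N : ℝ) * x⌋ / N = ⌊x⌋ := by
  have hNr : (0 : ℝ) < N := by exact_mod_cast hN
  have h1 : (⌊x⌋ : ℝ) ≤ x := Int.floor_le x
  have h2 : x < (⌊x⌋ : ℝ) + 1 := Int.lt_floor_add_one x
  have h3 : ⌊x⌋ * N ≤ ⌊(N : ℝ) * x⌋ := by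
    rw [Int.le_floor]
    push_cast
    nlinarith
  have h4 : ⌊(N : ℝ) * x⌋ < (⌊x⌋ + 1) * N := by
    rw [Int.floor_lt]
    push_cast
    nlinarith
  apply le_antisymm
  · have := Int.ediv_lt_of_lt_mul hN h4
    omega
  · exact Int.le_ediv_of_mul_le hN h3

lemma cell_ediv {b : ℕ} (hb : 0 < b) (k s : ℕ) (y : Fin n → ℝ) (i : Fin n) :
    cell b (k + s) y i / (b : ℤ) ^ s = cell b k y i := by
  have hN : (0 : ℤ) < (b : ℤ) ^ s := by positivity
  have h := floor_mul_ediv hN ((b : ℝ) ^ k * y i)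
  unfold cell
  rw [← h]
  congr 2
  push_cast
  ring

lemma cell_eq {b : ℕ} (hb : 0 < b) (k s : ℕ) (y : Fin n → ℝ) (i : Fin n) :
    cell b (k + s) y i = (b : ℤ) ^ s * cell b k y i + cell b (k + s) y i % (b : ℤ) ^ s := by
  rw [← cell_ediv hb k s y i]
  exact (Int.mul_ediv_add_emod _ _).symm

lemma ty_cell_nonempty {K : Set (Fin n → ℝ)} {b : ℕ} (hb : 0 < b) (k : ℕ) {y : Fin n → ℝ}
    (hy : y ∈ K) : (ty K b k (cell b k y)).Nonempty := by
  refine ⟨fun i => (b : ℝ) ^ k * y i - ⌊(b : ℝ) ^ k * y i⌋, fun i => ⟨?_, ?_⟩, ?_⟩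
  · have := Int.floor_le ((b : ℝ) ^ k * y i)
    linarith
  · have := Int.lt_floor_add_one ((b : ℝ) ^ k * y i)
    linarith
  · have : (fun i => ((cell b k y i : ℝ) + ((b : ℝ) ^ k * y i - ⌊(b : ℝ) ^ k * y i⌋)) /
        (b : ℝ) ^ k) = y := by
      funext i
      have hb' : (0 : ℝ) < (b : ℝ) ^ k := by positivity
      simp only [cell]
      field_simp
      ring
    rw [this]
    exact hy

lemma ty_nonempty {K : Set (Fin n → ℝ)} {b : ℕ} (hb : 0 < b) {k : ℕ} {z : Fin n → ℤ}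
    (hz : (ty K b k z).Nonempty) : ∃ y ∈ K, cell b k y = z := by
  obtain ⟨u, hu, huK⟩ := hz
  refine ⟨_, huK, ?_⟩
  funext i
  have hb' : (0 : ℝ) < (b : ℝ) ^ k := by positivity
  have h1 : (b : ℝ) ^ k * (((z i : ℝ) + u i) / (b : ℝ) ^ k) = (z i : ℝ) + u i := by
    field_simp
  simp only [cell]
  rw [h1, Int.floor_eq_iff]
  constructor <;> linarith [(hu i).1, (hu i).2]

/-- The child number `a` of the cell `z`. -/
def child (b s : ℕ) (z a : Fin n → ℤ) : Fin n → ℤ := fun i => (b : ℤ) ^ s * z i + a i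

lemma ty_child (K : Set (Fin n → ℝ)) {b : ℕ} (hb : 0 < b) (k s : ℕ) (z a : Fin n → ℤ)
    (ha : ∀ i, 0 ≤ a i ∧ a i < (b : ℤ) ^ s) :
    ty K b (k + s) (child b s z a) =
      {u | (∀ i, 0 ≤ u i ∧ u i < 1) ∧ (fun i => ((a i : ℝ) + u i) / (b : ℝ) ^ s) ∈ ty K b k z} := by
  have hbs : (0 : ℝ) < (b : ℝ) ^ s := by positivity
  have hbk : (0 : ℝ) < (b : ℝ) ^ k := by positivity
  ext u
  simp only [ty, mem_ofPred_eq]
  have key : (fun i => ((z i : ℝ) + ((a i : ℝ) + u i) / (b : ℝ) ^ s) / (b : ℝ) ^ k) =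
      fun i => ((child b s z a i : ℤ) + u i) / (b : ℝ) ^ (k + s) := by
    funext i
    simp only [child]
    push_cast
    rw [pow_add]
    field_simp
    ring
  constructor
  · rintro ⟨h1, h2⟩
    refine ⟨h1, fun i => ⟨?_, ?_⟩, ?_⟩
    · have : (0 : ℝ) ≤ a i := by exact_mod_cast (ha i).1
      have := (h1 i).1
      positivity
    · rw [div_lt_one hbs]
      have h3 : (a i : ℝ) + 1 ≤ (b : ℝ) ^ s := by exact_mod_cast (ha i).2
      linarith [(h1 i).2]
    · rw [key]; exact h2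
  · rintro ⟨h1, -, h3⟩
    refine ⟨h1, ?_⟩
    rw [key] at h3
    exact h3

/-- The box of the numbers of the children. -/
noncomputable def box (n b s : ℕ) : Finset (Fin n → ℤ) := Fintype.piFinset (fun _ => Finset.Ico 0 ((b : ℤ) ^ s))

lemma mem_box {b s : ℕ} {a : Fin n → ℤ} : a ∈ box n b s ↔ ∀ i, 0 ≤ a i ∧ a i < (b : ℤ) ^ s := by
  simp [box, Fintype.mem_piFinset]

open Classical in
/-- The cells with many children, each of which has many children, and so on. -/
noncomputable def H (K : Set (Fin n → ℝ)) (b : ℕ) (kk ss D : ℕ → ℕ) :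
    ℕ → ℕ → Set (Fin n → ℤ)
  | 0, i => {z | (ty K b (kk i) z).Nonempty}
  | j + 1, i => {z | D i ≤ ((box n b (ss i)).filter
      (fun a => child b (ss i) z a ∈ H K b kk ss D j (i + 1))).card}

lemma H_congr {K : Set (Fin n → ℝ)} {b : ℕ} (hb : 0 < b) {kk ss D : ℕ → ℕ}
    (hk : ∀ i, kk (i + 1) = kk i + ss i) (j : ℕ) : ∀ (i : ℕ) (z z' : Fin n → ℤ),
    ty K b (kk i) z = ty K b (kk i) z' → (z ∈ H K b kk ss D j i ↔ z' ∈ H K b kk ss D j i) := by
  classical
  induction j with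
  | zero =>
    intro i z z' h
    simp only [H, mem_ofPred_eq, h]
  | succ j ih =>
    intro i z z' h
    simp only [H, mem_ofPred_eq]
    have : ((box n b (ss i)).filter (fun a => child b (ss i) z a ∈ H K b kk ss D j (i + 1))) =
        ((box n b (ss i)).filter (fun a => child b (ss i) z' a ∈ H K b kk ss D j (i + 1))) := by
      apply Finset.filter_congr
      intro a ha
      apply ih (i + 1)
      rw [hk i, ty_child K hb _ _ z a (mem_box.1 ha), ty_child K hb _ _ z' a (mem_box.1 ha), h]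
    rw [this]

/-- There are only finitely many shapes of a bounded set at each level. -/
lemma finite_types {K : Set (Fin n → ℝ)} (hK : Bornology.IsBounded K) {b : ℕ} (hb : 0 < b)
    (k : ℕ) : (Set.range (ty K b k)).Finite := by
  obtain ⟨R, hR⟩ := hK.subset_closedBall (0 : Fin n → ℝ)
  set S : Set (Fin n → ℤ) := Set.pi univ (fun _ => Set.Icc (⌊-((b : ℝ) ^ k * R)⌋) ⌊(b : ℝ) ^ k * R⌋)
    with hS
  have hSfin : S.Finite := Set.Finite.pi' (fun _ => Set.finite_Icc _ _)|>.subset (by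
    intro z hz i
    exact hz i (mem_univ i))
  refine ((hSfin.image (ty K b k)).union (finite_singleton ∅)).subset ?_
  rintro _ ⟨z, rfl⟩
  by_cases hz : (ty K b k z).Nonempty
  · left
    obtain ⟨y, hy, rfl⟩ := ty_nonempty hb hz
    refine ⟨_, ?_, rfl⟩
    intro i _
    have h1 : ‖y‖ ≤ R := by simpa using hR hy
    have h2 : |y i| ≤ R := (norm_le_pi_norm y i).trans h1
    have h3 := abs_le.1 h2
    have hb' : (0 : ℝ) < (b : ℝ) ^ k := by positivity
    refine ⟨Int.floor_le_floor ?_, Int.floor_le_floor ?_⟩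
    · nlinarith [h3.1]
    · nlinarith [h3.2]
  · right
    exact Set.not_nonempty_iff_eq_empty.1 hz

end Pool.Agent.V114.KakCx
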