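import Pool.Agent.V114.KakCx.Time

/-!
Typical directions: for almost every `v` the vectors `h v`, `|h| ≤ b ^ k`, are not too often close
to integer vectors.
-/

open MeasureTheory Set Filter Topology
open scoped ENNReal NNReal

namespace Pool.Agent.V114.KakCx

variable {m : ℕ}

/-- the cube of the slopes -/
def BR (m : ℕ) (R : ℕ) : Set (Fin m → ℝ) := Set.pi univ (fun _ => Icc (-(R : ℝ)) R)

lemma mem_BR {R : ℕ} {v : Fin m → ℝ} : v ∈ BR m R ↔ ∀ j, |v j| ≤ R := by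
  constructor
  · intro h j
    exact abs_le.2 (h j (mem_univ j))
  · intro h j _
    exact abs_le.1 (h j)

lemma vol_BR (m R : ℕ) : volume (BR m R) = ENNReal.ofReal ((2 * (R : ℝ)) ^ m) := by
  rw [BR, volume_pi_pi]
  simp only [Real.volume_Icc]
  have h : (R : ℝ) - -R = 2 * R := by ring
  rw [Finset.prod_const, Finset.card_univ, Fintype.card_fin, h,
    ← ENNReal.ofReal_pow (by positivity)]

/-- the slopes for which `h v` is close to an integer vector -/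
def EH (m : ℕ) (ρ : ℝ) (h : ℤ) : Set (Fin m → ℝ) :=
  {v | ∃ w : Fin m → ℤ, ∀ j, |(h : ℝ) * v j - w j| < ρ}

lemma measurable_EH (m : ℕ) (ρ : ℝ) (h : ℤ) : MeasurableSet (EH m ρ h) := by
  have : EH m ρ h = ⋃ w : Fin m → ℤ, ⋂ j, {v : Fin m → ℝ | |(h : ℝ) * v j - w j| < ρ} := by
    ext v
    simp [EH]
  rw [this]
  apply MeasurableSet.iUnion
  intro w
  apply MeasurableSet.iInter
  intro j
  apply measurableSet_lt
  · fun_prop
  · fun_prop

lemma vol_one {R ρ : ℝ} (hR : 0 ≤ R) (hρ : 0 < ρ) (hρR : ρ ≤ R + 1) {h : ℤ} (hh : h ≠ 0) :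
    volume {x : ℝ | |x| ≤ R ∧ ∃ w : ℤ, |(h : ℝ) * x - w| < ρ} ≤
      ENNReal.ofReal (2 * ρ * (4 * R + 5)) := by
  have hN : (1 : ℝ) ≤ |(h : ℝ)| := by
    have : 1 ≤ |h| := Int.one_le_abs hh
    exact_mod_cast this
  have hN0 : 0 < |(h : ℝ)| := by linarith
  have hh0 : (h : ℝ) ≠ 0 := by exact_mod_cast hh
  set X : ℝ := |(h : ℝ)| * R + ρ with hX
  have hX0 : 0 ≤ X := by positivity
  have hsub : {x : ℝ | |x| ≤ R ∧ ∃ w : ℤ, |(h : ℝ) * x - w| < ρ} ⊆
      ⋃ w ∈ Finset.Icc (-⌈X⌉) ⌈X⌉, Metric.ball ((w : ℝ) / h) (ρ / |(h : ℝ)|) := by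
    rintro x ⟨hx, w, hw⟩
    rw [mem_iUnion₂]
    refine ⟨w, ?_, ?_⟩
    · rw [Finset.mem_Icc, ← abs_le]
      have h1 : |(w : ℝ)| ≤ X := by
        have h2 : (w : ℝ) = (h : ℝ) * x - ((h : ℝ) * x - w) := by ring
        rw [h2]
        refine (abs_sub _ _).trans ?_
        rw [abs_mul, hX]
        nlinarith
      have h3 : |(w : ℝ)| ≤ (⌈X⌉ : ℝ) := h1.trans (Int.le_ceil X)
      exact_mod_cast h3
    · rw [Metric.mem_ball, Real.dist_eq, lt_div_iff₀ hN0, ← abs_mul]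
      have : (x - (w : ℝ) / h) * h = h * x - w := by field_simp
      rw [this]
      exact hw
  refine (measure_mono hsub).trans ((measure_biUnion_finset_le _ _).trans ?_)
  simp only [Real.volume_ball]
  rw [Finset.sum_const, nsmul_eq_mul, Int.card_Icc, ← ENNReal.ofReal_natCast,
    ← ENNReal.ofReal_mul (by positivity)]
  apply ENNReal.ofReal_le_ofReal
  have hc : ((⌈X⌉ + 1 - -⌈X⌉).toNat : ℝ) ≤ 2 * X + 3 := by
    have h1 : 0 ≤ ⌈X⌉ := Int.ceil_nonneg hX0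
    have h2 : ((⌈X⌉ + 1 - -⌈X⌉).toNat : ℤ) = ⌈X⌉ + 1 - -⌈X⌉ := Int.toNat_of_nonneg (by omega)
    have h3 : ((⌈X⌉ + 1 - -⌈X⌉).toNat : ℝ) = (⌈X⌉ : ℝ) + 1 - -⌈X⌉ := by
      exact_mod_cast congrArg (Int.cast (R := ℝ)) h2
    rw [h3]
    have h4 := Int.ceil_lt_add_one X
    linarith
  have hbig : 2 * X + 3 ≤ |(h : ℝ)| * (4 * R + 5) := by
    rw [hX]
    nlinarith
  calc ((⌈X⌉ + 1 - -⌈X⌉).toNat : ℝ) * (2 * (ρ / |(h : ℝ)|))
      ≤ (|(h : ℝ)| * (4 * R + 5)) * (2 * (ρ / |(h : ℝ)|)) :=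
        mul_le_mul_of_nonneg_right (hc.trans hbig) (by positivity)
    _ = 2 * ρ * (4 * R + 5) := by field_simp

lemma vol_EH {R : ℕ} {ρ : ℝ} (hρ : 0 < ρ) (hρR : ρ ≤ R + 1) {h : ℤ} (hh : h ≠ 0) :
    volume (EH m ρ h ∩ BR m R) ≤ ENNReal.ofReal ((2 * ρ * (4 * R + 5)) ^ m) := by
  have hsub : EH m ρ h ∩ BR m R ⊆ Set.pi univ
      (fun _ : Fin m => {x : ℝ | |x| ≤ R ∧ ∃ w : ℤ, |(h : ℝ) * x - w| < ρ}) := by
    rintro v ⟨⟨w, hw⟩, hv⟩ j _
    exact ⟨mem_BR.1 hv j, w j, hw j⟩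
  refine (measure_mono hsub).trans ?_
  rw [volume_pi_pi, ENNReal.ofReal_pow (by positivity)]
  calc _ ≤ ∏ _j : Fin m, ENNReal.ofReal (2 * ρ * (4 * R + 5)) :=
        Finset.prod_le_prod' (fun j _ => vol_one (by positivity) hρ hρR hh)
    _ = _ := by simp

/-- the constant -/
noncomputable def C2 (m R : ℕ) : ℝ := (2 * (R : ℝ)) ^ m + 2 * (2 * (R + 1) * (4 * R + 5)) ^ m

lemma C2_pos (m R : ℕ) : 0 < C2 m R := by
  unfold C2
  positivity

lemma hits_card (b k s : ℕ) (R : ℝ) (v : Fin m → ℝ) :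
    ((hits b k s R v).card : ℝ≥0∞) = ∑ h ∈ Finset.Icc (-((b : ℤ) ^ k)) ((b : ℤ) ^ k),
      (EH m ((R + 1) / (b : ℝ) ^ s) h).indicator 1 v := by
  classical
  unfold hits
  rw [Finset.card_filter]
  push_cast
  apply Finset.sum_congr rfl
  intro h _
  simp only [Set.indicator, EH, mem_ofPred_eq, Pi.one_apply]

lemma lintegral_hits {b : ℕ} (hb : 0 < b) {k s : ℕ} (hs : m * s ≤ k) (R : ℕ) :
    ∫⁻ v in BR m R, ((hits b k s R v).card : ℝ≥0∞) ≤
      ENNReal.ofReal (C2 m R * (b : ℝ) ^ (k - m * s)) := by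
  simp_rw [hits_card]
  have hbs : (0 : ℝ) < (b : ℝ) ^ s := by positivity
  have hb1 : (1 : ℝ) ≤ b := by exact_mod_cast hb
  set ρ : ℝ := ((R : ℝ) + 1) / (b : ℝ) ^ s with hρ
  have hρ0 : 0 < ρ := by positivity
  have hρR : ρ ≤ R + 1 := div_le_self (by positivity) (one_le_pow₀ hb1)
  rw [lintegral_finsetSum _ (fun h _ => measurable_one.indicator (measurable_EH m ρ h))]
  have hterm : ∀ h : ℤ, ∫⁻ v in BR m R, (EH m ρ h).indicator 1 v = volume (EH m ρ h ∩ BR m R) := by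
    intro h
    rw [lintegral_indicator_one (measurable_EH m ρ h), Measure.restrict_apply (measurable_EH m ρ h)]
  simp_rw [hterm]
  have hmem : (0 : ℤ) ∈ Finset.Icc (-((b : ℤ) ^ k)) ((b : ℤ) ^ k) := by
    rw [Finset.mem_Icc]
    have : (0 : ℤ) ≤ (b : ℤ) ^ k := by positivity
    constructor <;> omega
  rw [← Finset.add_sum_erase _ _ hmem]
  have h0 : volume (EH m ρ 0 ∩ BR m R) ≤ ENNReal.ofReal ((2 * (R : ℝ)) ^ m) := by
    rw [← vol_BR]
    exact measure_mono inter_subset_right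
  have h1 : ∑ h ∈ (Finset.Icc (-((b : ℤ) ^ k)) ((b : ℤ) ^ k)).erase 0,
      volume (EH m ρ h ∩ BR m R) ≤
      ENNReal.ofReal (2 * (b : ℝ) ^ k * (2 * ρ * (4 * R + 5)) ^ m) := by
    calc _ ≤ ∑ h ∈ (Finset.Icc (-((b : ℤ) ^ k)) ((b : ℤ) ^ k)).erase 0,
          ENNReal.ofReal ((2 * ρ * (4 * R + 5)) ^ m) := by
          apply Finset.sum_le_sum
          intro h hh
          exact vol_EH hρ0 hρR (Finset.ne_of_mem_erase hh)
      _ = _ := by
          rw [Finset.sum_const, Finset.card_erase_of_mem hmem, Int.card_Icc, nsmul_eq_mul,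
            ENNReal.ofReal_mul (by positivity)]
          congr 1
          have h3 : ((b : ℤ) ^ k + 1 - -(b : ℤ) ^ k).toNat - 1 = 2 * b ^ k := by
            have : (b : ℤ) ^ k + 1 - -(b : ℤ) ^ k = ((2 * b ^ k + 1 : ℕ) : ℤ) := by
              push_cast; ring
            rw [this, Int.toNat_natCast]
            omega
          rw [h3, ← ENNReal.ofReal_natCast]
          congr 1
          push_cast
          ring
  refine (add_le_add h0 h1).trans ?_
  rw [← ENNReal.ofReal_add (by positivity) (by positivity)]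
  apply ENNReal.ofReal_le_ofReal
  have hpow : (b : ℝ) ^ k = (b : ℝ) ^ (k - m * s) * ((b : ℝ) ^ s) ^ m := by
    rw [← pow_mul, ← pow_add]
    congr 1
    rw [mul_comm s m]
    omega
  have h2 : (b : ℝ) ^ k * (2 * ρ * (4 * R + 5)) ^ m =
      (b : ℝ) ^ (k - m * s) * (2 * (R + 1) * (4 * R + 5)) ^ m := by
    rw [hpow, hρ, mul_assoc, ← mul_pow]
    congr 2
    field_simp
  have h3 : (1 : ℝ) ≤ (b : ℝ) ^ (k - m * s) := one_le_pow₀ hb1
  have h4 : (2 * (R : ℝ)) ^ m ≤ (2 * (R : ℝ)) ^ m * (b : ℝ) ^ (k - m * s) :=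
    le_mul_of_one_le_right (by positivity) h3
  unfold C2
  calc (2 * (R : ℝ)) ^ m + 2 * (b : ℝ) ^ k * (2 * ρ * (4 * R + 5)) ^ m
      = (2 * (R : ℝ)) ^ m + 2 * ((b : ℝ) ^ k * (2 * ρ * (4 * R + 5)) ^ m) := by ring
    _ ≤ _ := by
        rw [h2]
        nlinarith

/-- the levels -/
def KK (m : ℕ) : ℕ → ℕ
  | 0 => 2 * m
  | l + 1 => KK m l + KK m l / m

/-- the steps -/
def SS (m : ℕ) (l : ℕ) : ℕ := KK m l / m

lemma KK_succ (m l : ℕ) : KK m (l + 1) = KK m l + SS m l := rfl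

lemma KK_ge (m l : ℕ) : 2 * m ≤ KK m l := by
  induction l with
  | zero => exact le_refl _
  | succ l ih => rw [KK_succ]; omega

lemma SS_ge {m : ℕ} (hm : 0 < m) (l : ℕ) : 2 ≤ SS m l := by
  unfold SS
  rw [Nat.le_div_iff_mul_le hm]
  exact KK_ge m l

lemma SS_mul (m l : ℕ) : m * SS m l ≤ KK m l := Nat.mul_div_le _ _

lemma SS_le (m l : ℕ) : SS m l ≤ KK m l := Nat.div_le_self _ _

lemma KK_ge_self {m : ℕ} (hm : 0 < m) (l : ℕ) : l ≤ KK m l := by
  induction l with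
  | zero => exact Nat.zero_le _
  | succ l ih =>
    rw [KK_succ]
    have := SS_ge hm l
    omega

lemma KK_le_SS {m : ℕ} (hm : 0 < m) (l : ℕ) : KK m l ≤ m * SS m l + m := by
  have h1 : KK m l < m * (SS m l + 1) := Nat.lt_mul_div_succ _ hm
  nlinarith

lemma ae_dir (m : ℕ) {b : ℕ} (hb : 0 < b) : ∀ᵐ v : Fin m → ℝ, ∀ R : ℕ, (∀ j, |v j| ≤ R) →
    ∀ᶠ l : ℕ in atTop, ((hits b (KK m l) (SS m l) R v).card : ℝ) ≤
      ((l : ℝ) + 1) ^ 2 * (C2 m R * (b : ℝ) ^ (KK m l - m * SS m l)) := by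
  rw [ae_all_iff]
  intro R
  set bad : ℕ → Set (Fin m → ℝ) := fun l => {v | ENNReal.ofReal (((l : ℝ) + 1) ^ 2 *
    (C2 m R * (b : ℝ) ^ (KK m l - m * SS m l))) ≤
      ((hits b (KK m l) (SS m l) R v).card : ℝ≥0∞)} with hbad
  have hb0 : (0 : ℝ) < b := by exact_mod_cast hb
  have hle : ∀ l, (volume.restrict (BR m R)) (bad l) ≤ ENNReal.ofReal (1 / ((l : ℝ) + 1) ^ 2) := by
    intro l
    set Y : ℝ := C2 m R * (b : ℝ) ^ (KK m l - m * SS m l) with hY
    have hY0 : 0 < Y := mul_pos (C2_pos m R) (by positivity)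
    have hM0 : 0 < ((l : ℝ) + 1) ^ 2 * Y := by positivity
    have hmeas : Measurable fun v : Fin m → ℝ => ((hits b (KK m l) (SS m l) R v).card : ℝ≥0∞) := by
      simp_rw [hits_card]
      apply Finset.measurable_sum
      intro h _
      exact measurable_one.indicator (measurable_EH m _ h)
    have h1 := meas_ge_le_lintegral_div (μ := volume.restrict (BR m R)) hmeas.aemeasurable
      (ε := ENNReal.ofReal (((l : ℝ) + 1) ^ 2 * Y)) (by simpa using hM0) ENNReal.ofReal_ne_top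
    refine h1.trans ?_
    refine (ENNReal.div_le_div_right (lintegral_hits hb (SS_mul m l) R) _).trans ?_
    rw [← hY, ← ENNReal.ofReal_div_of_pos hM0]
    apply ENNReal.ofReal_le_ofReal
    apply le_of_eq
    field_simp
  have hsum : ∑' l, (volume.restrict (BR m R)) (bad l) ≠ ∞ := by
    refine ne_top_of_le_ne_top ?_ (ENNReal.tsum_le_tsum hle)
    have h1 : Summable (fun l : ℕ => 1 / ((l : ℝ) + 1) ^ 2) := by
      have := (summable_nat_add_iff 1).2 (Real.summable_one_div_nat_pow.2 (le_refl 2))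
      simpa using this
    rw [← ENNReal.ofReal_tsum_of_nonneg (fun l => by positivity) h1]
    exact ENNReal.ofReal_ne_top
  have hae := ae_eventually_notMem hsum
  have hBR : MeasurableSet (BR m R) := MeasurableSet.univ_pi (fun _ => measurableSet_Icc)
  rw [ae_restrict_iff' hBR] at hae
  filter_upwards [hae] with v hv hvR
  filter_upwards [hv (mem_BR.2 hvR)] with l hl
  simp only [hbad, mem_ofPred_eq, not_le] at hl
  rw [← ENNReal.ofReal_natCast] at hl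
  have hpos : 0 < ((l : ℝ) + 1) ^ 2 * (C2 m R * (b : ℝ) ^ (KK m l - m * SS m l)) :=
    mul_pos (by positivity) (mul_pos (C2_pos m R) (by positivity))
  exact ((ENNReal.ofReal_lt_ofReal_iff hpos).1 hl).le

end Pool.Agent.V114.KakCx
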