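import Pool.Agent.V114.KakCx.MaxMain

/-!
Cell averages of a function: shapes, norms, averages over sets; permutations of the coordinates.
-/

open MeasureTheory Set Filter Topology
open scoped ENNReal NNReal

namespace Pool.Agent.V114.KakCx

variable {n : ℕ}

/-! ### permutations of the coordinates -/

/-- the function `F` in the permuted coordinates -/
def permF (F : (Fin n → ℤ) → ℝ≥0) (π : Equiv.Perm (Fin n)) : (Fin n → ℤ) → ℝ≥0 :=
  fun z => F (z ∘ π)

lemma sh_permF (F : (Fin n → ℤ) → ℝ≥0) (π : Equiv.Perm (Fin n)) (b N k : ℕ) (z : Fin n → ℤ) :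
    sh (permF F π) b N k z = fun a => sh F b N k (z ∘ π) (a ∘ π) := by
  funext a
  unfold sh permF
  have h1 : (∀ i, 0 ≤ a i ∧ a i < (b : ℤ) ^ (N - k)) ↔
      (∀ i, 0 ≤ (a ∘ π) i ∧ (a ∘ π) i < (b : ℤ) ^ (N - k)) := by
    constructor
    · intro h i; exact h (π i)
    · intro h i
      have := h (π.symm i)
      simpa using this
  by_cases h : ∀ i, 0 ≤ a i ∧ a i < (b : ℤ) ^ (N - k)
  · rw [if_pos h, if_pos (h1.1 h)]
    rfl
  · rw [if_neg h, if_neg (fun h' => h (h1.2 h'))]

lemma encard_sh_permF (F : (Fin n → ℤ) → ℝ≥0) (π : Equiv.Perm (Fin n)) (b N k : ℕ) :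
    (Set.range (sh (permF F π) b N k)).encard ≤ (Set.range (sh F b N k)).encard := by
  have h : Set.range (sh (permF F π) b N k) ⊆
      (fun g : (Fin n → ℤ) → ℝ≥0 => fun a => g (a ∘ π)) '' (Set.range (sh F b N k)) := by
    rintro _ ⟨z, rfl⟩
    exact ⟨sh F b N k (z ∘ π), ⟨_, rfl⟩, (sh_permF F π b N k z).symm⟩
  exact (Set.encard_le_encard h).trans (Set.encard_image_le _ _)

lemma lintegral_permF {b : ℕ} (hb : 0 < b) (F : (Fin n → ℤ) → ℝ≥0) (π : Equiv.Perm (Fin n))
    (N e : ℕ) : ∫⁻ y : Fin n → ℝ, (permF F π (cell b N y) : ℝ≥0∞) ^ e =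
      ∫⁻ y : Fin n → ℝ, (F (cell b N y) : ℝ≥0∞) ^ e := by
  rw [lintegral_cells n hb N (fun z => (permF F π z : ℝ≥0∞) ^ e),
    lintegral_cells n hb N (fun z => (F z : ℝ≥0∞) ^ e)]
  congr 1
  exact Equiv.tsum_eq (Equiv.arrowCongr π.symm (Equiv.refl ℤ)) (fun z => (F z : ℝ≥0∞) ^ e)

/-! ### cell averages -/

/-- the integral of `g` over the cell -/
noncomputable def cint (g : (Fin n → ℝ) → ℝ≥0∞) (b N : ℕ) (z : Fin n → ℤ) : ℝ≥0∞ :=
  ∫⁻ y, {y : Fin n → ℝ | cell b N y = z}.indicator g y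

/-- The average of `g` over the cell -/
noncomputable def avg (g : (Fin n → ℝ) → ℝ≥0∞) (b N : ℕ) (z : Fin n → ℤ) : ℝ≥0 :=
  (ENNReal.ofReal ((b : ℝ) ^ N) ^ n * cint g b N z).toNNReal

/-- the shape of `g` in the cell -/
noncomputable def shp {α : Type*} [Zero α] (g : (Fin n → ℝ) → α) (b k : ℕ) (z : Fin n → ℤ) : (Fin n → ℝ) → α :=
  fun u => open Classical in
    if ∀ i, 0 ≤ u i ∧ u i < 1 then g (fun i => ((z i : ℝ) + u i) / (b : ℝ) ^ k) else 0

lemma measurableSet_cell (b k : ℕ) (z : Fin n → ℤ) :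
    MeasurableSet {y : Fin n → ℝ | cell b k y = z} :=
  measurable_cell' n b k (measurableSet_singleton z)

lemma cell_add_int {b : ℕ} (hb : 0 < b) {N k : ℕ} (hk : k ≤ N) (y : Fin n → ℝ) (d : Fin n → ℤ) :
    cell b N (y + fun i => (d i : ℝ) / (b : ℝ) ^ k) = cell b N y + fun i => (b : ℤ) ^ (N - k) * d i := by
  have hbk : (0 : ℝ) < (b : ℝ) ^ k := by positivity
  funext i
  simp only [cell, Pi.add_apply]
  have h1 : (b : ℝ) ^ N * (y i + (d i : ℝ) / (b : ℝ) ^ k) =
      (b : ℝ) ^ N * y i + (((b : ℤ) ^ (N - k) * d i : ℤ) : ℝ) := by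
    have h2 : (b : ℝ) ^ N = (b : ℝ) ^ (N - k) * (b : ℝ) ^ k := by
      rw [← pow_add]; congr 1; omega
    push_cast
    rw [mul_add, h2]
    field_simp
  rw [h1, Int.floor_add_intCast]

lemma cint_eq {b : ℕ} (hb : 0 < b) {N k : ℕ} (hk : k ≤ N) (g : (Fin n → ℝ) → ℝ≥0∞)
    {z z' : Fin n → ℤ} (h : shp g b k z = shp g b k z') {a : Fin n → ℤ}
    (ha : ∀ i, 0 ≤ a i ∧ a i < (b : ℤ) ^ (N - k)) :
    cint g b N (fun i => (b : ℤ) ^ (N - k) * z i + a i) =
      cint g b N (fun i => (b : ℤ) ^ (N - k) * z' i + a i) := by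
  have hbk : (0 : ℝ) < (b : ℝ) ^ k := by positivity
  have hN : (0 : ℤ) < (b : ℤ) ^ (N - k) := by positivity
  unfold cint
  rw [← lintegral_add_right_eq_self
    ({y : Fin n → ℝ | cell b N y = (fun i => (b : ℤ) ^ (N - k) * z' i + a i)}.indicator g)
    (fun i => ((z' i - z i : ℤ) : ℝ) / (b : ℝ) ^ k)]
  congr 1
  funext y
  have h1 := cell_add_int hb hk y (fun i => z' i - z i)
  have h2 : (cell b N (y + fun i => ((z' i - z i : ℤ) : ℝ) / (b : ℝ) ^ k) =
      (fun i => (b : ℤ) ^ (N - k) * z' i + a i)) ↔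
      cell b N y = (fun i => (b : ℤ) ^ (N - k) * z i + a i) := by
    rw [h1]
    constructor
    · intro h3
      funext i
      have := congrFun h3 i
      simp only [Pi.add_apply] at this
      linarith
    · intro h3
      funext i
      have := congrFun h3 i
      simp only [Pi.add_apply]
      rw [this]
      ring
  by_cases h3 : cell b N y = (fun i => (b : ℤ) ^ (N - k) * z i + a i)
  · rw [Set.indicator_of_mem (show y ∈ {y | cell b N y = _} from h3), Set.indicator_of_mem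
      (show (y + fun i => ((z' i - z i : ℤ) : ℝ) / (b : ℝ) ^ k) ∈ {y | cell b N y = _} from h2.2 h3)]
    -- the point of the cell of level k
    have h4 : cell b k y = z := by
      funext i
      have h5 := cell_ediv hb k (N - k) y i
      have h6 : k + (N - k) = N := by omega
      rw [h6, h3] at h5
      rw [← h5]
      rw [Int.mul_add_ediv_left _ _ hN.ne', Int.ediv_eq_zero_of_lt (ha i).1 (ha i).2, add_zero]
    set u : Fin n → ℝ := fun i => (b : ℝ) ^ k * y i - z i with hu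
    have hu1 : ∀ i, 0 ≤ u i ∧ u i < 1 := by
      intro i
      have h5 : ⌊(b : ℝ) ^ k * y i⌋ = z i := congrFun h4 i
      have h6 := Int.floor_le ((b : ℝ) ^ k * y i)
      have h7 := Int.lt_floor_add_one ((b : ℝ) ^ k * y i)
      rw [h5] at h6 h7
      simp only [hu]
      constructor <;> linarith
    have h8 := congrFun h u
    simp only [shp, if_pos hu1] at h8
    have e1 : (fun i => ((z i : ℝ) + u i) / (b : ℝ) ^ k) = y := by
      funext i
      simp only [hu]
      field_simp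
      ring
    have e2 : (fun i => ((z' i : ℝ) + u i) / (b : ℝ) ^ k) =
        (y + fun i => ((z' i - z i : ℤ) : ℝ) / (b : ℝ) ^ k) := by
      funext i
      simp only [hu, Pi.add_apply]
      push_cast
      field_simp
      ring
    rw [e1, e2] at h8
    exact h8
  · rw [Set.indicator_of_notMem (show y ∉ {y | cell b N y = _} from h3),
      Set.indicator_of_notMem (show (y + fun i => ((z' i - z i : ℤ) : ℝ) / (b : ℝ) ^ k) ∉
        {y | cell b N y = _} from fun h4 => h3 (h2.1 h4))]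

lemma encard_range_le {α β γ : Type*} [Nonempty β] (s : α → γ) (s' : α → β)
    (h : ∀ x y, s x = s y → s' x = s' y) : (range s').encard ≤ (range s).encard := by
  classical
  have h1 : range s' ⊆ (fun c => if hc : ∃ x, s x = c then s' hc.choose else Classical.arbitrary β) ''
      range s := by
    rintro _ ⟨x, rfl⟩
    refine ⟨s x, ⟨x, rfl⟩, ?_⟩
    have hx : ∃ y, s y = s x := ⟨x, rfl⟩
    simp only [dif_pos hx]
    exact h _ _ hx.choose_spec
  exact (encard_le_encard h1).trans (encard_image_le _ _)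

lemma encard_sh_avg {b : ℕ} (hb : 0 < b) {N k : ℕ} (hk : k ≤ N) (g : (Fin n → ℝ) → ℝ≥0∞) :
    (range (sh (avg g b N) b N k)).encard ≤ (range (shp g b k)).encard := by
  apply encard_range_le
  intro z z' h
  funext a
  unfold sh
  by_cases ha : ∀ i, 0 ≤ a i ∧ a i < (b : ℤ) ^ (N - k)
  · rw [if_pos ha, if_pos ha]
    unfold avg
    rw [cint_eq hb hk g h ha]
  · rw [if_neg ha, if_neg ha]

/-- Jensen -/
lemma cint_pow_le {m : ℕ} (hm : 1 ≤ m) {b : ℕ} (hb : 0 < b) (N : ℕ)
    {g : (Fin (m + 1) → ℝ) → ℝ≥0∞} (hg : Measurable g) (z : Fin (m + 1) → ℤ) :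
    (ENNReal.ofReal ((b : ℝ) ^ N) ^ (m + 1) * cint g b N z) ^ (m + 1) ≤
      ENNReal.ofReal ((b : ℝ) ^ N) ^ (m + 1) * cint (fun y => g y ^ (m + 1)) b N z := by
  have hbN : (0 : ℝ) < (b : ℝ) ^ N := by positivity
  have hmr : (1 : ℝ) ≤ m := by exact_mod_cast hm
  have hm0 : (0 : ℝ) < m := by linarith
  have hp : ((m : ℝ) + 1).HolderConjugate (((m : ℝ) + 1) / m) := by
    rw [Real.holderConjugate_iff]
    constructor
    · linarith
    · field_simp
      ring
  set A : Set (Fin (m + 1) → ℝ) := {y | cell b N y = z} with hA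
  have hAm : MeasurableSet A := measurableSet_cell b N z
  have h1 : cint g b N z = ∫⁻ y in A, g y := lintegral_indicator hAm g
  have h2 : cint (fun y => g y ^ (m + 1)) b N z = ∫⁻ y in A, g y ^ (m + 1) :=
    lintegral_indicator hAm _
  have hvol : volume A = ENNReal.ofReal (1 / (b : ℝ) ^ N) ^ (m + 1) := volume_cell (m + 1) hb N z
  have h3 := ENNReal.lintegral_mul_le_Lp_mul_Lq (volume.restrict A) hp
    (f := g) (g := fun _ => (1 : ℝ≥0∞)) hg.aemeasurable aemeasurable_const
  simp only [Pi.mul_apply, mul_one, ENNReal.one_rpow, lintegral_const,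
    Measure.restrict_apply MeasurableSet.univ, univ_inter, one_mul] at h3
  rw [h1, h2]
  set I := ∫⁻ y in A, g y with hI
  have h4 : ∫⁻ y in A, g y ^ ((m : ℝ) + 1) = ∫⁻ y in A, g y ^ (m + 1) := by
    congr 1
    funext y
    rw [← ENNReal.rpow_natCast]
    push_cast
    rfl
  rw [h4] at h3
  set J := ∫⁻ y in A, g y ^ (m + 1) with hJ
  have h5 : I ^ (m + 1) ≤ J * (volume A) ^ m := by
    calc I ^ (m + 1) ≤ (J ^ (1 / ((m : ℝ) + 1)) * (volume A) ^ (1 / (((m : ℝ) + 1) / m))) ^ (m + 1) := by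
          gcongr
      _ = J * (volume A) ^ m := by
          rw [mul_pow, ← ENNReal.rpow_natCast, ← ENNReal.rpow_mul, ← ENNReal.rpow_natCast
            ((volume A) ^ (1 / (((m : ℝ) + 1) / m))), ← ENNReal.rpow_mul]
          have e1 : 1 / ((m : ℝ) + 1) * ((m + 1 : ℕ) : ℝ) = 1 := by
            push_cast; field_simp
          have e2 : 1 / (((m : ℝ) + 1) / m) * ((m + 1 : ℕ) : ℝ) = (m : ℝ) := by
            push_cast; field_simp
          rw [e1, e2, ENNReal.rpow_one, ENNReal.rpow_natCast]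
  have h6 : ENNReal.ofReal ((b : ℝ) ^ N) * ENNReal.ofReal (1 / (b : ℝ) ^ N) = 1 := by
    rw [← ENNReal.ofReal_mul hbN.le, mul_one_div_cancel hbN.ne', ENNReal.ofReal_one]
  set X := ENNReal.ofReal ((b : ℝ) ^ N) with hX
  set Y := ENNReal.ofReal (1 / (b : ℝ) ^ N) with hY
  rw [hvol] at h5
  calc (X ^ (m + 1) * I) ^ (m + 1) = (X ^ (m + 1)) ^ (m + 1) * I ^ (m + 1) := mul_pow _ _ _
    _ ≤ (X ^ (m + 1)) ^ (m + 1) * (J * (Y ^ (m + 1)) ^ m) := by gcongr
    _ = X ^ (m + 1) * J * ((X * Y) ^ (m + 1)) ^ m := by ring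
    _ = X ^ (m + 1) * J := by rw [h6, one_pow, one_pow, mul_one]

lemma tsum_cint {b : ℕ} (N : ℕ) {g : (Fin n → ℝ) → ℝ≥0∞} (hg : Measurable g)
    (Z : Set (Fin n → ℤ)) : ∑' z, Z.indicator (cint g b N) z = ∫⁻ y in cell b N ⁻¹' Z, g y := by
  have hZ : MeasurableSet (cell (n := n) b N ⁻¹' Z) := measurable_cell' n b N .of_discrete
  rw [← lintegral_indicator hZ]
  have h1 : ∀ z, Z.indicator (cint g b N) z =
      ∫⁻ y, {y : Fin n → ℝ | cell b N y = z}.indicator ((cell b N ⁻¹' Z).indicator g) y := by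
    intro z
    by_cases hz : z ∈ Z
    · rw [Set.indicator_of_mem hz]
      unfold cint
      congr 1
      funext y
      by_cases hy : cell b N y = z
      · rw [Set.indicator_of_mem (show y ∈ {y | cell b N y = z} from hy),
          Set.indicator_of_mem (show y ∈ {y | cell b N y = z} from hy), Set.indicator_of_mem]
        show cell b N y ∈ Z
        rwa [hy]
      · rw [Set.indicator_of_notMem (show y ∉ {y | cell b N y = z} from hy),
          Set.indicator_of_notMem (show y ∉ {y | cell b N y = z} from hy)]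
    · rw [Set.indicator_of_notMem hz]
      symm
      rw [lintegral_eq_zero_iff' ?_]
      · refine Filter.Eventually.of_forall (fun y => ?_)
        by_cases hy : cell b N y = z
        · rw [Set.indicator_of_mem (show y ∈ {y | cell b N y = z} from hy),
            Set.indicator_of_notMem]
          · rfl
          · show cell b N y ∉ Z
            rwa [hy]
        · rw [Set.indicator_of_notMem (show y ∉ {y | cell b N y = z} from hy)]
          rfl
      · exact ((hg.indicator hZ).indicator (measurableSet_cell b N z)).aemeasurable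
  simp_rw [h1]
  rw [← lintegral_tsum (fun z => ((hg.indicator hZ).indicator (measurableSet_cell b N z)).aemeasurable)]
  congr 1
  funext y
  rw [tsum_eq_single (cell b N y)]
  · rw [Set.indicator_of_mem (show y ∈ {y' | cell b N y' = cell b N y} from rfl)]
  · intro z hz
    rw [Set.indicator_of_notMem (show y ∉ {y' | cell b N y' = z} from fun h => hz h.symm)]

lemma lintegral_avg_pow {m : ℕ} (hm : 1 ≤ m) {b : ℕ} (hb : 0 < b) (N : ℕ)
    {g : (Fin (m + 1) → ℝ) → ℝ≥0∞} (hg : Measurable g) :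
    ∫⁻ y : Fin (m + 1) → ℝ, (avg g b N (cell b N y) : ℝ≥0∞) ^ (m + 1) ≤ ∫⁻ y, g y ^ (m + 1) := by
  have hbN : (0 : ℝ) < (b : ℝ) ^ N := by positivity
  rw [lintegral_cells (m + 1) hb N (fun z => (avg g b N z : ℝ≥0∞) ^ (m + 1))]
  have h6 : ENNReal.ofReal ((b : ℝ) ^ N) * ENNReal.ofReal (1 / (b : ℝ) ^ N) = 1 := by
    rw [← ENNReal.ofReal_mul hbN.le, mul_one_div_cancel hbN.ne', ENNReal.ofReal_one]
  calc (∑' z, (avg g b N z : ℝ≥0∞) ^ (m + 1)) * ENNReal.ofReal (1 / (b : ℝ) ^ N) ^ (m + 1)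
      ≤ (∑' z, ENNReal.ofReal ((b : ℝ) ^ N) ^ (m + 1) * cint (fun y => g y ^ (m + 1)) b N z) *
        ENNReal.ofReal (1 / (b : ℝ) ^ N) ^ (m + 1) := by
        gcongr with z
        refine le_trans ?_ (cint_pow_le hm hb N hg z)
        gcongr
        exact ENNReal.coe_toNNReal_le_self
    _ = (∑' z, cint (fun y => g y ^ (m + 1)) b N z) *
        (ENNReal.ofReal ((b : ℝ) ^ N) * ENNReal.ofReal (1 / (b : ℝ) ^ N)) ^ (m + 1) := by
        rw [ENNReal.tsum_mul_left, mul_pow]
        ring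
    _ = ∑' z, cint (fun y => g y ^ (m + 1)) b N z := by rw [h6, one_pow, mul_one]
    _ = ∫⁻ y, g y ^ (m + 1) := by
        have h1 := tsum_cint (b := b) N (hg.pow_const (m + 1)) Set.univ
        rw [preimage_univ, Measure.restrict_univ] at h1
        rw [← h1]
        congr 1
        funext z
        rw [Set.indicator_of_mem (mem_univ z)]

/-- If `g ^ n` is integrable the cell averages are finite. -/
lemma coe_avg {m : ℕ} (hm : 1 ≤ m) {b : ℕ} (hb : 0 < b) (N : ℕ)
    {g : (Fin (m + 1) → ℝ) → ℝ≥0∞} (hg : Measurable g) (hfin : ∫⁻ y, g y ^ (m + 1) ≠ ∞)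
    (z : Fin (m + 1) → ℤ) :
    (avg g b N z : ℝ≥0∞) = ENNReal.ofReal ((b : ℝ) ^ N) ^ (m + 1) * cint g b N z := by
  unfold avg
  apply ENNReal.coe_toNNReal
  have h1 := cint_pow_le hm hb N hg z
  have h2 : cint (fun y => g y ^ (m + 1)) b N z ≤ ∫⁻ y, g y ^ (m + 1) :=
    lintegral_mono (fun y => Set.indicator_le_self' (fun _ _ => zero_le) y)
  have h3 : (ENNReal.ofReal ((b : ℝ) ^ N) ^ (m + 1) * cint g b N z) ^ (m + 1) < ∞ :=
    h1.trans_lt (ENNReal.mul_lt_top (ENNReal.pow_lt_top ENNReal.ofReal_lt_top)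
      (h2.trans_lt (lt_top_iff_ne_top.2 hfin)))
  intro h4
  rw [h4] at h3
  simp at h3

/-- The integral of `g` over `T` is bounded by line integrals of the cell averages. -/
lemma set_le_lines {m : ℕ} (hm : 1 ≤ m) {b : ℕ} (hb : 0 < b) (N : ℕ)
    {g : (Fin (m + 1) → ℝ) → ℝ≥0∞} (hg : Measurable g) (hfin : ∫⁻ y, g y ^ (m + 1) ≠ ∞)
    (T T' : Set (Fin (m + 1) → ℝ)) (hT' : MeasurableSet T') (w : Fin (m + 1) → ℝ)
    (hTT' : ∀ x, ∀ t ∈ Icc (0 : ℝ) 1, ∀ y ∈ T, cell b N (x + t • w) = cell b N y → x ∈ T')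
    (L : ℝ≥0∞) (hL : ∀ p : Fin (m + 1) → ℝ,
      ∫⁻ t in Icc (0 : ℝ) 1, (avg g b N (cell b N (p + t • w)) : ℝ≥0∞) ≤ L) :
    ∫⁻ y in T, g y ≤ volume T' * L := by
  have hbN : (0 : ℝ) < (b : ℝ) ^ N := by positivity
  set Z : Set (Fin (m + 1) → ℤ) := cell b N '' T with hZ
  set G : (Fin (m + 1) → ℤ) → ℝ≥0∞ := Z.indicator (fun z => (avg g b N z : ℝ≥0∞)) with hG
  have hGm : Measurable G := .of_discrete
  have h6 : ENNReal.ofReal ((b : ℝ) ^ N) * ENNReal.ofReal (1 / (b : ℝ) ^ N) = 1 := by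
    rw [← ENNReal.ofReal_mul hbN.le, mul_one_div_cancel hbN.ne', ENNReal.ofReal_one]
  have h1 : ∫⁻ y in T, g y ≤ ∫⁻ y, G (cell b N y) := by
    calc ∫⁻ y in T, g y ≤ ∫⁻ y in cell b N ⁻¹' Z, g y :=
          lintegral_mono_set (fun y hy => ⟨y, hy, rfl⟩)
      _ = ∑' z, Z.indicator (cint g b N) z := (tsum_cint N hg Z).symm
      _ = ∫⁻ y, G (cell b N y) := by
          rw [lintegral_cells (m + 1) hb N G, ← ENNReal.tsum_mul_right]
          congr 1
          funext z
          by_cases hz : z ∈ Z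
          · rw [hG, Set.indicator_of_mem hz, Set.indicator_of_mem hz, coe_avg hm hb N hg hfin]
            calc cint g b N z = cint g b N z *
                  (ENNReal.ofReal ((b : ℝ) ^ N) * ENNReal.ofReal (1 / (b : ℝ) ^ N)) ^ (m + 1) := by
                  rw [h6, one_pow, mul_one]
              _ = _ := by rw [mul_pow]; ring
          · rw [hG, Set.indicator_of_notMem hz, Set.indicator_of_notMem hz, zero_mul]
  have hcm : Measurable (fun y : Fin (m + 1) → ℝ => G (cell b N y)) :=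
    hGm.comp (measurable_cell' (m + 1) b N)
  have h2 : ∫⁻ y, G (cell b N y) =
      ∫⁻ t in Icc (0 : ℝ) 1, ∫⁻ x : Fin (m + 1) → ℝ, G (cell b N (x + t • w)) := by
    have h3 : ∀ t : ℝ, ∫⁻ x : Fin (m + 1) → ℝ, G (cell b N (x + t • w)) =
        ∫⁻ y, G (cell b N y) := fun t =>
      lintegral_add_right_eq_self (fun y => G (cell b N y)) (t • w)
    simp_rw [h3]
    rw [lintegral_const, Measure.restrict_apply MeasurableSet.univ, univ_inter, Real.volume_Icc]
    simp
  have hswap : ∫⁻ t in Icc (0 : ℝ) 1, ∫⁻ x : Fin (m + 1) → ℝ, G (cell b N (x + t • w)) =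
      ∫⁻ x : Fin (m + 1) → ℝ, ∫⁻ t in Icc (0 : ℝ) 1, G (cell b N (x + t • w)) := by
    apply lintegral_lintegral_swap
    apply Measurable.aemeasurable
    apply hcm.comp
    fun_prop
  refine h1.trans ?_
  rw [h2, hswap]
  calc ∫⁻ x : Fin (m + 1) → ℝ, ∫⁻ t in Icc (0 : ℝ) 1, G (cell b N (x + t • w))
      ≤ ∫⁻ x : Fin (m + 1) → ℝ, T'.indicator (fun _ => L) x := by
        apply lintegral_mono
        intro x
        by_cases hx : x ∈ T'
        · rw [Set.indicator_of_mem hx]
          refine le_trans (lintegral_mono (fun t => ?_)) (hL x)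
          exact Set.indicator_le_self' (fun _ _ => zero_le) _
        · rw [Set.indicator_of_notMem hx]
          apply le_of_eq
          calc ∫⁻ t in Icc (0 : ℝ) 1, G (cell b N (x + t • w))
              = ∫⁻ _t in Icc (0 : ℝ) 1, (0 : ℝ≥0∞) := by
                apply setLIntegral_congr_fun measurableSet_Icc
                intro t ht
                simp only [hG]
                rw [Set.indicator_of_notMem]
                rintro ⟨y, hy, hyx⟩
                exact hx (hTT' x t ht y hy hyx.symm)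
            _ = 0 := lintegral_zero
    _ = volume T' * L := by
        rw [lintegral_indicator hT', lintegral_const, Measure.restrict_apply MeasurableSet.univ,
          univ_inter, mul_comm]

end Pool.Agent.V114.KakCx
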