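import Pool.Agent.V114.KakCx.Euc1

/-!
The exceptional set of directions in the sphere and the Kakeya maximal function.
-/

open MeasureTheory Set Filter Topology Metric
open scoped ENNReal NNReal Pointwise

namespace Pool.Agent.V114.KakCx

abbrev Eu (n : ℕ) := EuclideanSpace ℝ (Fin n)

/-- The closed cylinder of length `1` and radius `δ` with centre `a` and axis direction `e`. -/
def tub {n : ℕ} (δ : ℝ) (a e : Eu n) : Set (Eu n) :=
  {y | |inner ℝ (y - a) e| ≤ 1 / 2 ∧ ‖(y - a) - (inner ℝ (y - a) e) • e‖ ≤ δ}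

/-- slopes with respect to the coordinate `i` -/
noncomputable def slope {m : ℕ} (i : Fin (m + 1)) (x : Fin (m + 1) → ℝ) : Fin m → ℝ :=
  fun j => x (i.succAbove j) / x i

lemma measurable_slope {m : ℕ} (i : Fin (m + 1)) :
    Measurable (slope i : (Fin (m + 1) → ℝ) → (Fin m → ℝ)) := by
  rw [measurable_pi_iff]
  intro j
  exact (measurable_pi_apply _).div (measurable_pi_apply _)

/-- the directions with slopes in `B` -/
def excS {m : ℕ} (B : Set (Fin m → ℝ)) : Set (sphere (0 : Eu (m + 1)) 1) :=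
  ⋃ i, {e | slope i (WithLp.ofLp (e : Eu (m + 1))) ∈ B}

lemma measurableSet_excS {m : ℕ} {B : Set (Fin m → ℝ)} (hB : MeasurableSet B) :
    MeasurableSet (excS B) := by
  apply MeasurableSet.iUnion
  intro i
  have h1 : Measurable fun e : sphere (0 : Eu (m + 1)) 1 => slope i (WithLp.ofLp (e : Eu (m + 1))) := by
    apply (measurable_slope i).comp
    exact (PiLp.volume_preserving_ofLp (Fin (m + 1))).measurable.comp measurable_subtype_coe
  exact h1 hB

lemma vol_cone {m : ℕ} {B : Set (Fin m → ℝ)} (hB : MeasurableSet B) (i : Fin (m + 1)) :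
    volume {x : Fin (m + 1) → ℝ | |x i| ≤ 1 ∧ slope i x ∈ B} ≤ 2 * volume B := by
  have hmp := volume_preserving_piFinSuccAbove (fun _ : Fin (m + 1) => ℝ) i
  set S : Set (ℝ × (Fin m → ℝ)) := {q | |q.1| ≤ 1 ∧ (fun j => q.2 j / q.1) ∈ B} with hS
  have hSm : MeasurableSet S := by
    apply MeasurableSet.inter
    · have h0 : Measurable fun q : ℝ × (Fin m → ℝ) => |q.1| := by fun_prop
      exact measurableSet_le h0 measurable_const
    · have : Measurable fun q : ℝ × (Fin m → ℝ) => (fun j => q.2 j / q.1) := by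
        rw [measurable_pi_iff]
        intro j
        exact ((measurable_pi_apply j).comp measurable_snd).div measurable_fst
      exact this hB
  have h1 : {x : Fin (m + 1) → ℝ | |x i| ≤ 1 ∧ slope i x ∈ B} =
      (MeasurableEquiv.piFinSuccAbove (fun _ : Fin (m + 1) => ℝ) i) ⁻¹' S := by
    ext x
    rfl
  rw [h1, hmp.measure_preimage hSm.nullMeasurableSet, Measure.volume_eq_prod,
    Measure.prod_apply hSm]
  have h2 : ∀ᵐ s : ℝ, volume (Prod.mk s ⁻¹' S) ≤ (Icc (-1 : ℝ) 1).indicator (fun _ => volume B) s := by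
    have h0 : ∀ᵐ s : ℝ, s ≠ 0 := by
      rw [ae_iff]
      simp
    filter_upwards [h0] with s hs
    by_cases hs1 : |s| ≤ 1
    · rw [Set.indicator_of_mem (show s ∈ Icc (-1 : ℝ) 1 from abs_le.1 hs1)]
      have h3 : Prod.mk s ⁻¹' S ⊆ (fun x : Fin m → ℝ => s⁻¹ • x) ⁻¹' B := by
        intro x hx
        have : (fun j => x j / s) ∈ B := hx.2
        show s⁻¹ • x ∈ B
        convert this using 1
        funext j
        simp [div_eq_inv_mul]
      refine (measure_mono h3).trans ?_
      rw [Measure.addHaar_preimage_smul volume (inv_ne_zero hs)]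
      calc ENNReal.ofReal |((s⁻¹) ^ Module.finrank ℝ (Fin m → ℝ))⁻¹| * volume B
          ≤ 1 * volume B := by
            gcongr
            rw [← ENNReal.ofReal_one]
            apply ENNReal.ofReal_le_ofReal
            rw [inv_pow, inv_inv, abs_pow]
            exact pow_le_one₀ (abs_nonneg _) hs1
        _ = volume B := one_mul _
    · rw [Set.indicator_of_notMem (show s ∉ Icc (-1 : ℝ) 1 from fun h => hs1 (abs_le.2 h))]
      have h3 : Prod.mk s ⁻¹' S = ∅ := by
        ext x
        simp only [mem_preimage, mem_empty_iff_false, iff_false]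
        exact fun h => hs1 h.1
      rw [h3, measure_empty]
  refine (lintegral_mono_ae h2).trans (le_of_eq ?_)
  rw [lintegral_indicator measurableSet_Icc, lintegral_const, Measure.restrict_apply
    MeasurableSet.univ, univ_inter, Real.volume_Icc, mul_comm]
  norm_num

lemma surf_excS {m : ℕ} {B : Set (Fin m → ℝ)} (hB : MeasurableSet B) :
    (volume : Measure (Eu (m + 1))).toSphere (excS B) ≤ 2 * ((m : ℝ≥0∞) + 1) ^ 2 * volume B := by
  rw [Measure.toSphere_apply' _ (measurableSet_excS hB)]
  have hdim : (Module.finrank ℝ (Eu (m + 1)) : ℝ≥0∞) = (m : ℝ≥0∞) + 1 := by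
    rw [finrank_euclideanSpace, Fintype.card_fin]; push_cast; rfl
  rw [hdim]
  have h1 : Ioo (0 : ℝ) 1 • ((↑) '' (excS B) : Set (Eu (m + 1))) ⊆
      ⋃ i, (WithLp.ofLp (p := 2)) ⁻¹' {x : Fin (m + 1) → ℝ | |x i| ≤ 1 ∧ slope i x ∈ B} := by
    rintro _ ⟨r, hr, _, ⟨e, he, rfl⟩, rfl⟩
    unfold excS at he
    rw [mem_iUnion] at he ⊢
    obtain ⟨i, hi⟩ := he
    refine ⟨i, ?_, ?_⟩
    · show |(r • (e : Eu (m + 1))) i| ≤ 1
      have h2 : ‖(e : Eu (m + 1))‖ = 1 := by simp
      have h3 : |(e : Eu (m + 1)) i| ≤ 1 := by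
        have h5 := PiLp.norm_apply_le (e : Eu (m + 1)) i
        rw [h2, Real.norm_eq_abs] at h5
        exact h5
      rw [PiLp.smul_apply, smul_eq_mul, abs_mul, abs_of_pos hr.1]
      nlinarith [hr.1, hr.2, abs_nonneg ((e : Eu (m + 1)) i)]
    · have h4 : slope i (WithLp.ofLp (r • (e : Eu (m + 1)))) =
          slope i (WithLp.ofLp (e : Eu (m + 1))) := by
        funext j
        simp only [slope, WithLp.ofLp_smul, Pi.smul_apply, smul_eq_mul]
        exact mul_div_mul_left _ _ hr.1.ne'
      rw [h4]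
      exact hi
  have h2 : volume (Ioo (0 : ℝ) 1 • ((↑) '' (excS B) : Set (Eu (m + 1)))) ≤
      ((m : ℝ≥0∞) + 1) * (2 * volume B) := by
    refine (measure_mono h1).trans ((measure_iUnion_le _).trans ?_)
    rw [tsum_fintype]
    calc ∑ i, volume ((WithLp.ofLp (p := 2)) ⁻¹' {x : Fin (m + 1) → ℝ | |x i| ≤ 1 ∧ slope i x ∈ B})
        ≤ ∑ _i : Fin (m + 1), 2 * volume B := by
          apply Finset.sum_le_sum
          intro i _
          rw [(PiLp.volume_preserving_ofLp (Fin (m + 1))).measure_preimage]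
          · exact vol_cone hB i
          · apply MeasurableSet.nullMeasurableSet
            have h0 : Measurable fun x : Fin (m + 1) → ℝ => |x i| := by fun_prop
            exact (measurableSet_le h0 measurable_const).inter (measurable_slope i hB)
      _ = _ := by
          rw [Finset.sum_const, Finset.card_univ, Fintype.card_fin, nsmul_eq_mul]
          push_cast
          rfl
  calc ((m : ℝ≥0∞) + 1) * volume (Ioo (0 : ℝ) 1 • ((↑) '' (excS B) : Set (Eu (m + 1))))
      ≤ ((m : ℝ≥0∞) + 1) * (((m : ℝ≥0∞) + 1) * (2 * volume B)) := by gcongr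
    _ = _ := by ring

/-- volumes of dilated tubes -/
lemma vol_dil {n : ℕ} {K δ : ℝ} (hK : 0 < K) (a e : Eu n) :
    volume {x : Eu n | |inner ℝ (x - a) e| ≤ K * (1 / 2) ∧
      ‖(x - a) - (inner ℝ (x - a) e) • e‖ ≤ K * δ} = ENNReal.ofReal (K ^ n) * volume (tub δ a e) := by
  have h1 : {x : Eu n | |inner ℝ (x - a) e| ≤ K * (1 / 2) ∧
      ‖(x - a) - (inner ℝ (x - a) e) • e‖ ≤ K * δ} = AffineMap.homothety a K '' tub δ a e := by
    ext x
    simp only [mem_ofPred_eq, mem_image]
    constructor
    · rintro ⟨h1, h2⟩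
      have hy : (a + K⁻¹ • (x - a)) - a = K⁻¹ • (x - a) := by abel
      refine ⟨a + K⁻¹ • (x - a), ⟨?_, ?_⟩, ?_⟩
      · rw [hy, inner_smul_left, abs_mul]
        simp only [conj_trivial, abs_inv, abs_of_pos hK]
        rw [inv_mul_le_iff₀ hK]
        exact h1
      · rw [hy, inner_smul_left]
        simp only [conj_trivial]
        rw [mul_smul, ← smul_sub, norm_smul, norm_inv, Real.norm_of_nonneg hK.le,
          inv_mul_le_iff₀ hK]
        exact h2
      · rw [AffineMap.homothety_apply, vsub_eq_sub, vadd_eq_add, hy, smul_smul,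
          mul_inv_cancel₀ hK.ne', one_smul]
        abel
    · rintro ⟨y, ⟨h1, h2⟩, rfl⟩
      have hy : AffineMap.homothety a K y - a = K • (y - a) := by
        rw [AffineMap.homothety_apply, vsub_eq_sub, vadd_eq_add]
        abel
      rw [hy, inner_smul_left]
      simp only [conj_trivial]
      constructor
      · rw [abs_mul, abs_of_pos hK]
        gcongr
      · rw [mul_smul, ← smul_sub, norm_smul, Real.norm_of_nonneg hK.le]
        gcongr
  rw [h1, Measure.addHaar_image_homothety, finrank_euclideanSpace, Fintype.card_fin,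
    abs_of_pos (by positivity)]

lemma measurableSet_dil {n : ℕ} (K δ : ℝ) (a e : Eu n) :
    MeasurableSet {x : Eu n | |inner ℝ (x - a) e| ≤ K * (1 / 2) ∧
      ‖(x - a) - (inner ℝ (x - a) e) • e‖ ≤ K * δ} := by
  apply MeasurableSet.inter
  · have h0 : Measurable fun x : Eu n => |inner ℝ (x - a) e| := by fun_prop
    exact measurableSet_le h0 measurable_const
  · have h0 : Measurable fun x : Eu n => ‖(x - a) - (inner ℝ (x - a) e) • e‖ := by fun_prop
    exact measurableSet_le h0 measurable_const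

end Pool.Agent.V114.KakCx
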