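import Pool.Agent.V114.KakCx.Tree

/-!
Functions on the cells of level `N` and their shapes in the larger cells.
-/

open MeasureTheory Set Filter Topology
open scoped ENNReal NNReal

namespace Pool.Agent.V114.KakCx

variable {n : ℕ}

/-- The function `F` on the cells of level `N`, restricted to the cells of level `N` in the cell `z`
of level `k ≤ N` (and translated; zero outside). -/
def sh (F : (Fin n → ℤ) → ℝ≥0) (b N k : ℕ) (z : Fin n → ℤ) : (Fin n → ℤ) → ℝ≥0 := fun a =>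
  if ∀ i, 0 ≤ a i ∧ a i < (b : ℤ) ^ (N - k) then F (fun i => (b : ℤ) ^ (N - k) * z i + a i) else 0

/-- the sum of the powers over a cell -/
noncomputable def LL (F : (Fin n → ℤ) → ℝ≥0) (b e N k : ℕ) (z : Fin n → ℤ) : ℝ≥0∞ :=
  ∑ a ∈ box n b (N - k), (F (child b (N - k) z a) : ℝ≥0∞) ^ e

lemma child_child (b s e : ℕ) (z a a' : Fin n → ℤ) :
    child b e (child b s z a) a' = child b (s + e) z (child b e a a') := by
  funext i
  simp only [child]
  rw [pow_add]
  ring

lemma child_mem_box {b s e : ℕ} (hb : 0 < b) {a a' : Fin n → ℤ} (ha : a ∈ box n b s)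
    (ha' : a' ∈ box n b e) : child b e a a' ∈ box n b (s + e) := by
  rw [mem_box] at ha ha' ⊢
  intro i
  have hN : (0 : ℤ) < (b : ℤ) ^ e := by positivity
  simp only [child]
  rw [pow_add]
  obtain ⟨h1, h2⟩ := ha i
  obtain ⟨h3, h4⟩ := ha' i
  constructor
  · positivity
  · nlinarith

lemma child_injOn {b e : ℕ} (hb : 0 < b) {a a' c c' : Fin n → ℤ} (hc : c ∈ box n b e)
    (hc' : c' ∈ box n b e) (h : child b e a c = child b e a' c') : a = a' ∧ c = c' := by
  have h1 : a = a' := by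
    funext i
    rw [← child_div hb e a c (mem_box.1 hc) i, ← child_div hb e a' c' (mem_box.1 hc') i, h]
  subst h1
  exact ⟨rfl, child_inj h⟩

lemma LL_ne_top (F : (Fin n → ℤ) → ℝ≥0) (b e N k : ℕ) (z : Fin n → ℤ) : LL F b e N k z ≠ ∞ := by
  unfold LL
  rw [← lt_top_iff_ne_top]
  apply ENNReal.sum_lt_top.2
  intro a _
  exact ENNReal.pow_lt_top ENNReal.coe_lt_top

lemma LL_split {F : (Fin n → ℤ) → ℝ≥0} {b : ℕ} (hb : 0 < b) (e : ℕ) {N k s : ℕ} (hks : k + s ≤ N)
    (z : Fin n → ℤ) : ∑ a ∈ box n b s, LL F b e N (k + s) (child b s z a) ≤ LL F b e N k z := by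
  classical
  unfold LL
  set e2 := N - (k + s) with he2
  have hN : N - k = s + e2 := by omega
  rw [hN]
  have h1 : ∑ a ∈ box n b s, ∑ a' ∈ box n b e2,
      (F (child b e2 (child b s z a) a') : ℝ≥0∞) ^ e =
      ∑ x ∈ (box n b s) ×ˢ (box n b e2), (F (child b (s + e2) z (child b e2 x.1 x.2)) : ℝ≥0∞) ^ e := by
    rw [Finset.sum_product]
    apply Finset.sum_congr rfl
    intro a _
    apply Finset.sum_congr rfl
    intro a' _
    rw [child_child]
  rw [h1]
  have hinj : Set.InjOn (fun x : (Fin n → ℤ) × (Fin n → ℤ) => child b e2 x.1 x.2)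
      ((box n b s) ×ˢ (box n b e2) : Finset _) := by
    rintro ⟨a, c⟩ h ⟨a', c'⟩ h' heq
    simp only [Finset.coe_product, Set.mem_prod, Finset.mem_coe] at h h'
    have heq' : child b e2 a c = child b e2 a' c' := heq
    obtain ⟨g1, g2⟩ := child_injOn hb h.2 h'.2 heq'
    exact Prod.ext g1 g2
  have h2 := Finset.sum_image (f := fun y => (F (child b (s + e2) z y) : ℝ≥0∞) ^ e) hinj
  rw [← h2]
  apply Finset.sum_le_sum_of_subset
  intro y hy
  obtain ⟨⟨a, c⟩, hx, rfl⟩ := Finset.mem_image.1 hy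
  rw [Finset.mem_product] at hx
  exact child_mem_box hb hx.1 hx.2

lemma LL_le_tsum {F : (Fin n → ℤ) → ℝ≥0} {b : ℕ} (e N k : ℕ) (z : Fin n → ℤ) :
    LL F b e N k z ≤ ∑' y, (F y : ℝ≥0∞) ^ e := by
  classical
  unfold LL
  have hinj : Set.InjOn (fun a => child b (N - k) z a) (box n b (N - k)) :=
    fun a _ a' _ h => child_inj h
  have h2 := Finset.sum_image (f := fun y => (F y : ℝ≥0∞) ^ e) hinj
  rw [← h2]
  exact ENNReal.sum_le_tsum _

lemma sh_apply {F : (Fin n → ℤ) → ℝ≥0} {b N k : ℕ} {z a : Fin n → ℤ} (ha : a ∈ box n b (N - k)) :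
    sh F b N k z a = F (child b (N - k) z a) := by
  unfold sh
  rw [if_pos (mem_box.1 ha)]
  rfl

lemma LL_congr {F : (Fin n → ℤ) → ℝ≥0} {b : ℕ} (e : ℕ) {N k : ℕ} {z z' : Fin n → ℤ}
    (h : sh F b N k z = sh F b N k z') : LL F b e N k z = LL F b e N k z' := by
  unfold LL
  apply Finset.sum_congr rfl
  intro a ha
  have h1 : F (child b (N - k) z a) = F (child b (N - k) z' a) := by
    rw [← sh_apply (F := F) (z := z) ha, ← sh_apply (F := F) (z := z') ha, h]
  rw [h1]

lemma LL_child_congr {F : (Fin n → ℤ) → ℝ≥0} {b : ℕ} (hb : 0 < b) (e : ℕ) {N k s : ℕ}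
    (hks : k + s ≤ N) {z z' : Fin n → ℤ} (h : sh F b N k z = sh F b N k z') {a : Fin n → ℤ}
    (ha : a ∈ box n b s) :
    LL F b e N (k + s) (child b s z a) = LL F b e N (k + s) (child b s z' a) := by
  unfold LL
  set e2 := N - (k + s) with he2
  have hN : N - k = s + e2 := by omega
  apply Finset.sum_congr rfl
  intro a' ha'
  rw [child_child, child_child]
  have hm := child_mem_box hb ha ha'
  rw [← hN] at hm ⊢
  have h1 : F (child b (N - k) z (child b e2 a a')) = F (child b (N - k) z' (child b e2 a a')) := by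
    rw [← sh_apply (F := F) (z := z) hm, ← sh_apply (F := F) (z := z') hm, h]
  rw [h1]

/-- the ratios, summed over the shapes -/
noncomputable def RR (F : (Fin n → ℤ) → ℝ≥0) (b e N s k : ℕ) (T : Finset ((Fin n → ℤ) → ℝ≥0))
    (rep : ((Fin n → ℤ) → ℝ≥0) → (Fin n → ℤ)) (a : Fin n → ℤ) : ℝ≥0∞ :=
  ∑ τ ∈ T, LL F b e N (k + s) (child b s (rep τ) a) / LL F b e N k (rep τ)

lemma sum_RR {F : (Fin n → ℤ) → ℝ≥0} {b : ℕ} (hb : 0 < b) (e : ℕ) {N k s : ℕ} (hks : k + s ≤ N)
    (T : Finset ((Fin n → ℤ) → ℝ≥0)) (rep : ((Fin n → ℤ) → ℝ≥0) → (Fin n → ℤ)) :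
    ∑ a ∈ box n b s, RR F b e N s k T rep a ≤ T.card := by
  unfold RR
  rw [Finset.sum_comm]
  calc _ ≤ ∑ τ ∈ T, (1 : ℝ≥0∞) := by
        apply Finset.sum_le_sum
        intro τ _
        simp_rw [div_eq_mul_inv]
        rw [← Finset.sum_mul, ← div_eq_mul_inv]
        exact (ENNReal.div_le_div_right (LL_split hb e hks _) _).trans ENNReal.div_self_le_one
    _ = _ := by simp

lemma LL_le_mul {F : (Fin n → ℤ) → ℝ≥0} {b : ℕ} (hb : 0 < b) (e : ℕ) {N k s : ℕ} (hks : k + s ≤ N)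
    {T : Finset ((Fin n → ℤ) → ℝ≥0)} {rep : ((Fin n → ℤ) → ℝ≥0) → (Fin n → ℤ)}
    (hT : ∀ z, sh F b N k z ∈ T) (hrep : ∀ z, sh F b N k (rep (sh F b N k z)) = sh F b N k z)
    (y : Fin n → ℤ) : LL F b e N (k + s) y ≤
      LL F b e N k (fun q => y q / (b : ℤ) ^ s) *
        RR F b e N s k T rep (fun q => y q % (b : ℤ) ^ s) := by
  set z : Fin n → ℤ := fun q => y q / (b : ℤ) ^ s with hz
  set a : Fin n → ℤ := fun q => y q % (b : ℤ) ^ s with ha
  have hN : (0 : ℤ) < (b : ℤ) ^ s := by positivity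
  have hy : y = child b s z a := by
    funext q
    simp only [child, hz, ha]
    exact (Int.mul_ediv_add_emod _ _).symm
  have habox : a ∈ box n b s := by
    rw [mem_box]
    intro q
    exact ⟨Int.emod_nonneg _ hN.ne', Int.emod_lt_of_pos _ hN⟩
  have h1 : LL F b e N (k + s) (child b s (rep (sh F b N k z)) a) /
      LL F b e N k (rep (sh F b N k z)) ≤ RR F b e N s k T rep a := by
    unfold RR
    exact Finset.single_le_sum (f := fun τ => LL F b e N (k + s) (child b s (rep τ) a) /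
      LL F b e N k (rep τ)) (fun _ _ => bot_le) (hT z)
  rw [LL_child_congr hb e hks (hrep z) habox, LL_congr e (hrep z), ← hy] at h1
  have h2 : LL F b e N (k + s) y ≤ LL F b e N k z := by
    refine le_trans ?_ (LL_split hb e hks z)
    rw [hy]
    exact Finset.single_le_sum (f := fun a => LL F b e N (k + s) (child b s z a))
      (fun _ _ => bot_le) habox
  by_cases h0 : LL F b e N k z = 0
  · rw [h0] at h2
    rw [le_antisymm h2 bot_le]
    exact bot_le
  · calc LL F b e N (k + s) y = LL F b e N k z * (LL F b e N (k + s) y / LL F b e N k z) :=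
          (ENNReal.mul_div_cancel h0 (LL_ne_top _ _ _ _ _ _)).symm
      _ ≤ _ := by gcongr

lemma pow_le_LL {F : (Fin n → ℤ) → ℝ≥0} {b : ℕ} (hb : 0 < b) (e : ℕ) (N k : ℕ)
    (y : Fin n → ℤ) :
    (F y : ℝ≥0∞) ^ e ≤ LL F b e N k (fun q => y q / (b : ℤ) ^ (N - k)) := by
  set z : Fin n → ℤ := fun q => y q / (b : ℤ) ^ (N - k) with hz
  set a : Fin n → ℤ := fun q => y q % (b : ℤ) ^ (N - k) with ha
  have hN : (0 : ℤ) < (b : ℤ) ^ (N - k) := by positivity
  have hy : y = child b (N - k) z a := by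
    funext q
    simp only [child, hz, ha]
    exact (Int.mul_ediv_add_emod _ _).symm
  have habox : a ∈ box n b (N - k) := by
    rw [mem_box]
    intro q
    exact ⟨Int.emod_nonneg _ hN.ne', Int.emod_lt_of_pos _ hN⟩
  unfold LL
  rw [hy]
  exact Finset.single_le_sum (f := fun a => (F (child b (N - k) z a) : ℝ≥0∞) ^ e)
    (fun _ _ => bot_le) habox

end Pool.Agent.V114.KakCx
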