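import Pool.Agent.V114.KakCx.Prod
import Pool.Agent.V114.KakCx.Shp

/-!
A bound for the averages of functions with few shapes on the lines in a typical direction.
-/

open MeasureTheory Set Filter Topology
open scoped ENNReal NNReal

namespace Pool.Agent.V114.KakCx

variable {m : ℕ}

lemma prod_regroup {M : Type*} [CommMonoid M] (g : ℕ → M) (e Q : ℕ) :
    ∏ i ∈ Finset.range (e * Q), g i =
      ∏ c ∈ Finset.range e, ∏ l ∈ Finset.range Q, g (c + l * e) := by
  induction Q with
  | zero => simp
  | succ Q ih =>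
    rw [mul_add, mul_one, Finset.prod_range_add, ih, ← Finset.prod_mul_distrib]
    apply Finset.prod_congr rfl
    intro c _
    rw [Finset.prod_range_succ]
    congr 2
    ring

lemma chain {b : ℕ} (hb : 0 < b) (F : (Fin (m + 1) → ℤ) → ℝ≥0) {N s : ℕ}
    (T : ℕ → Finset ((Fin (m + 1) → ℤ) → ℝ≥0))
    (rep : ℕ → ((Fin (m + 1) → ℤ) → ℝ≥0) → (Fin (m + 1) → ℤ))
    (hT : ∀ k z, sh F b N k z ∈ T k)
    (hrep : ∀ k z, sh F b N k (rep k (sh F b N k z)) = sh F b N k z)
    (x : Fin (m + 1) → ℝ) (I : ℕ) : (m + I) * s ≤ N →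
    LL F b (m + 1) N ((m + I) * s) (cell b ((m + I) * s) x) ≤
      (∑' y, (F y : ℝ≥0∞) ^ (m + 1)) * ∏ i ∈ Finset.range I,
        RR F b (m + 1) N s ((m + i) * s) (T ((m + i) * s)) (rep ((m + i) * s))
          (fun q => cell b ((m + 1 + i) * s) x q % (b : ℤ) ^ s) := by
  induction I with
  | zero =>
    intro _
    simp only [Finset.range_zero, Finset.prod_empty, mul_one]
    exact LL_le_tsum _ _ _ _
  | succ I ih =>
    intro hI
    have e1 : (m + (I + 1)) * s = (m + I) * s + s := by ring
    have e2 : (m + 1 + I) * s = (m + I) * s + s := by ring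
    rw [e1] at hI ⊢
    have h1 := LL_le_mul hb (m + 1) hI (T := T ((m + I) * s)) (rep := rep ((m + I) * s))
      (hT _) (hrep _) (cell b ((m + I) * s + s) x)
    have h2 : (fun q => cell b ((m + I) * s + s) x q / (b : ℤ) ^ s) = cell b ((m + I) * s) x := by
      funext q
      exact cell_ediv hb _ s x q
    rw [h2] at h1
    refine h1.trans ?_
    rw [Finset.prod_range_succ, ← mul_assoc, e2]
    gcongr
    exact ih (by omega)

theorem line_bound {b : ℕ} (hb : 0 < b) (F : (Fin (m + 1) → ℤ) → ℝ≥0) {N s Q P : ℕ}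
    (hN : (m + (m + 1) * Q) * s ≤ N) {R : ℕ} (hs : 2 * ((R : ℝ) + 1) ≤ (b : ℝ) ^ s)
    (hP : ∀ k ≤ N, (Set.range (sh F b N k)).encard ≤ P) {v : Fin m → ℝ}
    (hv : ∀ j, |v j| ≤ R) (p : Fin (m + 1) → ℝ) :
    ∫⁻ t in Icc (0 : ℝ) 1, (F (cell b N (pt p v t)) : ℝ≥0∞) ≤
      (∑' y, (F y : ℝ≥0∞) ^ (m + 1)) ^ (1 / ((m : ℝ) + 1)) *
        (((P : ℝ≥0∞) * (hits b (m * s) s R v).card) ^ Q *
          ENNReal.ofReal (((2 * R + 4) * (b : ℝ) ^ ((m + 1) * s) / (b : ℝ) ^ (Q * s)) ^ (m + 1))) := by
  classical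
  have hfin : ∀ k ≤ N, (Set.range (sh F b N k)).Finite := fun k hk =>
    Set.finite_of_encard_le_coe (hP k hk)
  have hsN : ∀ k, N < k → sh F b N k = sh F b N N := by
    intro k hk
    have e1 : N - k = N - N := by omega
    funext z a
    unfold sh
    rw [e1]
  have hfin' : ∀ k, (Set.range (sh F b N k)).Finite := by
    intro k
    rcases le_or_gt k N with h | h
    · exact hfin k h
    · rw [hsN k h]; exact hfin N le_rfl
  set T : ℕ → Finset ((Fin (m + 1) → ℤ) → ℝ≥0) := fun k => (hfin' k).toFinset with hTdef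
  have hT : ∀ k z, sh F b N k z ∈ T k := fun k z => by
    simp only [hTdef, Set.Finite.mem_toFinset]
    exact ⟨z, rfl⟩
  have hex : ∀ k (τ : (Fin (m + 1) → ℤ) → ℝ≥0), ∃ z, τ ∈ Set.range (sh F b N k) →
      sh F b N k z = τ := by
    intro k τ
    by_cases h : τ ∈ Set.range (sh F b N k)
    · obtain ⟨z, hz⟩ := h
      exact ⟨z, fun _ => hz⟩
    · exact ⟨0, fun h' => absurd h' h⟩
  choose rep hrep' using hex
  have hrep : ∀ k z, sh F b N k (rep k (sh F b N k z)) = sh F b N k z :=
    fun k z => hrep' k _ ⟨z, rfl⟩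
  set S0 : ℝ≥0∞ := ∑' y, (F y : ℝ≥0∞) ^ (m + 1) with hS0
  set g : ℕ → ℝ → ℝ≥0∞ := fun i t =>
    RR F b (m + 1) N s ((m + i) * s) (T ((m + i) * s)) (rep ((m + i) * s))
      (fun q => cell b ((m + 1 + i) * s) (pt p v t) q % (b : ℤ) ^ s) with hg
  have hm0 : (0 : ℝ) < (m : ℝ) + 1 := by positivity
  have hr0 : 0 ≤ 1 / ((m : ℝ) + 1) := by positivity
  -- pointwise bound
  have hpt : ∀ t, (F (cell b N (pt p v t)) : ℝ≥0∞) ≤
      S0 ^ (1 / ((m : ℝ) + 1)) * ∏ c ∈ Finset.range (m + 1),
        (∏ l ∈ Finset.range Q, g (c + l * (m + 1)) t) ^ (1 / ((m : ℝ) + 1)) := by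
    intro t
    have h1 := chain hb F T rep hT hrep (pt p v t) ((m + 1) * Q) hN
    have h2 := pow_le_LL (F := F) hb (m + 1) N ((m + (m + 1) * Q) * s) (cell b N (pt p v t))
    have h3 : (fun q => cell b N (pt p v t) q / (b : ℤ) ^ (N - (m + (m + 1) * Q) * s)) =
        cell b ((m + (m + 1) * Q) * s) (pt p v t) := by
      funext q
      have h4 := cell_ediv hb ((m + (m + 1) * Q) * s) (N - (m + (m + 1) * Q) * s) (pt p v t) q
      have h5 : (m + (m + 1) * Q) * s + (N - (m + (m + 1) * Q) * s) = N := by omega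
      rw [h5] at h4
      exact h4
    rw [h3] at h2
    have h6 := h2.trans h1
    rw [prod_regroup] at h6
    have h7 : (F (cell b N (pt p v t)) : ℝ≥0∞) =
        ((F (cell b N (pt p v t)) : ℝ≥0∞) ^ (m + 1)) ^ (1 / ((m : ℝ) + 1)) := by
      rw [← ENNReal.rpow_natCast, ← ENNReal.rpow_mul]
      have : ((m + 1 : ℕ) : ℝ) * (1 / ((m : ℝ) + 1)) = 1 := by
        push_cast
        field_simp
      rw [this, ENNReal.rpow_one]
    rw [h7]
    refine (ENNReal.rpow_le_rpow h6 hr0).trans ?_
    rw [ENNReal.mul_rpow_of_nonneg _ _ hr0, ENNReal.prod_rpow_of_nonneg hr0]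
  have hgm : ∀ i, Measurable (g i) := by
    intro i
    have h1 : Measurable (fun x : Fin (m + 1) → ℤ =>
        RR F b (m + 1) N s ((m + i) * s) (T ((m + i) * s)) (rep ((m + i) * s))
          (fun q => x q % (b : ℤ) ^ s)) := Measurable.of_discrete
    exact h1.comp (measurable_cell b ((m + 1 + i) * s) p v)
  calc ∫⁻ t in Icc (0 : ℝ) 1, (F (cell b N (pt p v t)) : ℝ≥0∞)
      ≤ ∫⁻ t in Icc (0 : ℝ) 1, S0 ^ (1 / ((m : ℝ) + 1)) * ∏ c ∈ Finset.range (m + 1),
        (∏ l ∈ Finset.range Q, g (c + l * (m + 1)) t) ^ (1 / ((m : ℝ) + 1)) :=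
        lintegral_mono (fun t => hpt t)
    _ = S0 ^ (1 / ((m : ℝ) + 1)) * ∫⁻ t in Icc (0 : ℝ) 1, ∏ c ∈ Finset.range (m + 1),
        (∏ l ∈ Finset.range Q, g (c + l * (m + 1)) t) ^ (1 / ((m : ℝ) + 1)) := by
        rw [lintegral_const_mul]
        apply Finset.measurable_prod
        intro c _
        apply Measurable.pow_const
        exact Finset.measurable_prod _ (fun l _ => hgm _)
    _ ≤ S0 ^ (1 / ((m : ℝ) + 1)) * ∏ c ∈ Finset.range (m + 1),
        (∫⁻ t in Icc (0 : ℝ) 1, ∏ l ∈ Finset.range Q, g (c + l * (m + 1)) t) ^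
          (1 / ((m : ℝ) + 1)) := by
        gcongr
        apply ENNReal.lintegral_prod_norm_pow_le
        · intro c _
          exact (Finset.measurable_prod _ (fun l _ => hgm _)).aemeasurable
        · rw [Finset.sum_const, Finset.card_range, nsmul_eq_mul]
          push_cast
          field_simp
        · intro c _; exact hr0
    _ ≤ _ := by
        gcongr
        set X : ℝ≥0∞ := ((P : ℝ≥0∞) * (hits b (m * s) s R v).card) ^ Q *
          ENNReal.ofReal (((2 * R + 4) * (b : ℝ) ^ ((m + 1) * s) / (b : ℝ) ^ (Q * s)) ^ (m + 1))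
          with hX
        have hterm : ∀ c ∈ Finset.range (m + 1),
            (∫⁻ t in Icc (0 : ℝ) 1, ∏ l ∈ Finset.range Q, g (c + l * (m + 1)) t) ^
            (1 / ((m : ℝ) + 1)) ≤ X ^ (1 / ((m : ℝ) + 1)) := by
          intro c hc
          rw [Finset.mem_range] at hc
          apply ENNReal.rpow_le_rpow _ hr0
          have h1 := class_prod hb s c p hv hs (fun l =>
            RR F b (m + 1) N s ((m + (c + l * (m + 1))) * s) (T ((m + (c + l * (m + 1))) * s))
              (rep ((m + (c + l * (m + 1))) * s))) (P : ℝ≥0∞) Q (by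
            intro l hl
            have hks : (m + (c + l * (m + 1))) * s + s ≤ N := by
              refine le_trans ?_ hN
              have : (m + (c + l * (m + 1))) * s + s = (m + (c + l * (m + 1)) + 1) * s := by ring
              rw [this]
              apply Nat.mul_le_mul_right
              have h9 : l * (m + 1) + (m + 1) ≤ (m + 1) * Q := by
                have : (l + 1) * (m + 1) ≤ Q * (m + 1) := Nat.mul_le_mul_right _ hl
                nlinarith
              omega
            refine (sum_RR hb (m + 1) hks _ _).trans ?_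
            have h8 := hP ((m + (c + l * (m + 1))) * s) (by omega)
            rw [(hfin' _).encard_eq_coe_toFinset_card] at h8
            exact_mod_cast h8)
          have h2 : ∀ t, ∏ l ∈ Finset.range Q, g (c + l * (m + 1)) t =
              ∏ l ∈ Finset.range Q, RR F b (m + 1) N s ((m + (c + l * (m + 1))) * s)
                (T ((m + (c + l * (m + 1))) * s)) (rep ((m + (c + l * (m + 1))) * s))
                (fun q => cell b ((c + (l + 1) * (m + 1)) * s) (pt p v t) q % (b : ℤ) ^ s) := by
            intro t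
            apply Finset.prod_congr rfl
            intro l _
            simp only [hg]
            have : (m + 1 + (c + l * (m + 1))) * s = (c + (l + 1) * (m + 1)) * s := by ring
            rw [this]
          simp_rw [h2]
          refine h1.trans ?_
          rw [hX, mul_assoc]
          gcongr
          have h3 := vis_card hb (c * s) p hv
          have h4 : ((vis b (c * s) p v).card : ℝ≥0∞) ≤
              ENNReal.ofReal (((2 * R + 4) * (b : ℝ) ^ (c * s)) ^ (m + 1)) := by
            rw [← ENNReal.ofReal_natCast]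
            exact ENNReal.ofReal_le_ofReal h3
          refine (mul_le_mul_left h4 _).trans ?_
          rw [← ENNReal.ofReal_mul (by positivity)]
          apply ENNReal.ofReal_le_ofReal
          have hb1 : (1 : ℝ) ≤ b := by exact_mod_cast hb
          have h5 : (b : ℝ) ^ (c * s) ≤ (b : ℝ) ^ ((m + 1) * s) :=
            pow_le_pow_right₀ hb1 (Nat.mul_le_mul_right _ hc.le)
          have h6 : (1 : ℝ) / (b : ℝ) ^ ((c + Q * (m + 1)) * s) ≤ 1 / ((b : ℝ) ^ (Q * s)) ^ (m + 1) := by
            apply one_div_le_one_div_of_le (by positivity)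
            rw [← pow_mul]
            apply pow_le_pow_right₀ hb1
            nlinarith [Nat.zero_le (c * s)]
          calc ((2 * R + 4) * (b : ℝ) ^ (c * s)) ^ (m + 1) * (1 / (b : ℝ) ^ ((c + Q * (m + 1)) * s))
              ≤ ((2 * R + 4) * (b : ℝ) ^ ((m + 1) * s)) ^ (m + 1) *
                (1 / ((b : ℝ) ^ (Q * s)) ^ (m + 1)) := by gcongr
            _ = _ := by
                rw [div_pow]
                ring
        calc _ ≤ ∏ _c ∈ Finset.range (m + 1), X ^ (1 / ((m : ℝ) + 1)) :=
              Finset.prod_le_prod' hterm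
          _ = X := by
              rw [Finset.prod_const, Finset.card_range, ← ENNReal.rpow_natCast, ← ENNReal.rpow_mul]
              have : 1 / ((m : ℝ) + 1) * ((m + 1 : ℕ) : ℝ) = 1 := by
                push_cast
                field_simp
              rw [this, ENNReal.rpow_one]

end Pool.Agent.V114.KakCx
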