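import Pool.Agent.V114.KakCx.Max

/-!
The maximal inequality for functions with few shapes.
-/

open MeasureTheory Set Filter Topology
open scoped ENNReal NNReal

namespace Pool.Agent.V114.KakCx

lemma measurable_cell' (n b k : ℕ) : Measurable (fun y : Fin n → ℝ => cell b k y) := by
  rw [measurable_pi_iff]
  intro i
  apply Int.measurable_floor.comp
  fun_prop

lemma volume_cell (n : ℕ) {b : ℕ} (hb : 0 < b) (k : ℕ) (z : Fin n → ℤ) :
    volume {y : Fin n → ℝ | cell b k y = z} = ENNReal.ofReal (1 / (b : ℝ) ^ k) ^ n := by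
  have hbk : (0 : ℝ) < (b : ℝ) ^ k := by positivity
  have h1 : {y : Fin n → ℝ | cell b k y = z} =
      Set.pi univ (fun i => Ico ((z i : ℝ) / (b : ℝ) ^ k) (((z i : ℝ) + 1) / (b : ℝ) ^ k)) := by
    ext y
    simp only [mem_ofPred_eq, Set.mem_pi, mem_univ, forall_true_left, mem_Ico]
    constructor
    · intro h i
      have h2 := floor_bds (x := (b : ℝ) ^ k * y i) (q := z i) (congrFun h i)
      rw [div_le_iff₀ hbk, lt_div_iff₀ hbk]
      constructor <;> nlinarith [h2.1, h2.2]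
    · intro h
      funext i
      have h2 := h i
      rw [div_le_iff₀ hbk, lt_div_iff₀ hbk] at h2
      simp only [cell]
      rw [Int.floor_eq_iff]
      constructor <;> nlinarith [h2.1, h2.2]
  rw [h1, volume_pi_pi]
  have h2 : ∀ i : Fin n, volume (Ico ((z i : ℝ) / (b : ℝ) ^ k) (((z i : ℝ) + 1) / (b : ℝ) ^ k)) =
      ENNReal.ofReal (1 / (b : ℝ) ^ k) := by
    intro i
    rw [Real.volume_Ico]
    congr 1
    ring
  simp [h2]

lemma lintegral_cells (n : ℕ) {b : ℕ} (hb : 0 < b) (k : ℕ) (G : (Fin n → ℤ) → ℝ≥0∞) :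
    ∫⁻ y : Fin n → ℝ, G (cell b k y) = (∑' z, G z) * ENNReal.ofReal (1 / (b : ℝ) ^ k) ^ n := by
  have hG : Measurable G := Measurable.of_discrete
  rw [← lintegral_map (μ := volume) (f := G) hG (measurable_cell' n b k), lintegral_countable',
    ← ENNReal.tsum_mul_right]
  congr 1
  funext z
  rw [Measure.map_apply (measurable_cell' n b k) (measurableSet_singleton z)]
  congr 1
  exact volume_cell n hb k z

lemma S0_rpow (m : ℕ) {b : ℕ} (hb : 0 < b) (N : ℕ) (F : (Fin (m + 1) → ℤ) → ℝ≥0) :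
    (∑' y, (F y : ℝ≥0∞) ^ (m + 1)) ^ (1 / ((m : ℝ) + 1)) =
      (∫⁻ y : Fin (m + 1) → ℝ, (F (cell b N y) : ℝ≥0∞) ^ (m + 1)) ^ (1 / ((m : ℝ) + 1)) *
        ENNReal.ofReal ((b : ℝ) ^ N) := by
  have hbN : (0 : ℝ) < (b : ℝ) ^ N := by positivity
  rw [lintegral_cells (m + 1) hb N (fun z => (F z : ℝ≥0∞) ^ (m + 1)),
    ENNReal.mul_rpow_of_nonneg _ _ (by positivity), mul_assoc]
  have h1 : (ENNReal.ofReal (1 / (b : ℝ) ^ N) ^ (m + 1)) ^ (1 / ((m : ℝ) + 1)) =
      ENNReal.ofReal (1 / (b : ℝ) ^ N) := by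
    rw [← ENNReal.rpow_natCast, ← ENNReal.rpow_mul]
    have : ((m + 1 : ℕ) : ℝ) * (1 / ((m : ℝ) + 1)) = 1 := by
      push_cast
      field_simp
    rw [this, ENNReal.rpow_one]
  have h2 : 1 / (b : ℝ) ^ N * (b : ℝ) ^ N = 1 := one_div_mul_cancel hbN.ne'
  rw [h1, ← ENNReal.ofReal_mul (by positivity), h2, ENNReal.ofReal_one, mul_one]

/-- the exceptional directions -/
def exc (m b k s R : ℕ) (A : ℝ) : Set (Fin m → ℝ) :=
  {v | ENNReal.ofReal (A * C2 m R) ≤ ((hits b k s R v).card : ℝ≥0∞)} ∩ BR m R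

lemma measurable_hits (m b k s : ℕ) (R : ℝ) :
    Measurable fun v : Fin m → ℝ => ((hits b k s R v).card : ℝ≥0∞) := by
  simp_rw [hits_card]
  apply Finset.measurable_sum
  intro h _
  exact measurable_one.indicator (measurable_EH m _ h)

lemma measurableSet_exc (m b k s R : ℕ) (A : ℝ) : MeasurableSet (exc m b k s R A) :=
  (measurableSet_le measurable_const (measurable_hits m b k s R)).inter
    (MeasurableSet.univ_pi (fun _ => measurableSet_Icc))

lemma vol_exc (m : ℕ) {b : ℕ} (hb : 0 < b) (s R : ℕ) {A : ℝ} (hA : 0 < A) :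
    volume (exc m b (m * s) s R A) ≤ ENNReal.ofReal A⁻¹ := by
  have hBR : MeasurableSet (BR m R) := MeasurableSet.univ_pi (fun _ => measurableSet_Icc)
  have hM0 : 0 < A * C2 m R := mul_pos hA (C2_pos m R)
  have h0 : volume (exc m b (m * s) s R A) = (volume.restrict (BR m R))
      {v | ENNReal.ofReal (A * C2 m R) ≤ ((hits b (m * s) s R v).card : ℝ≥0∞)} := by
    rw [Measure.restrict_apply' hBR]
    rfl
  rw [h0]
  have h1 := meas_ge_le_lintegral_div (μ := volume.restrict (BR m R))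
    (measurable_hits m b (m * s) s R).aemeasurable
    (ε := ENNReal.ofReal (A * C2 m R)) (by simpa using hM0) ENNReal.ofReal_ne_top
  refine h1.trans ?_
  refine (ENNReal.div_le_div_right (lintegral_hits hb (le_refl (m * s)) R) _).trans ?_
  rw [Nat.sub_self, pow_zero, mul_one, ← ENNReal.ofReal_div_of_pos hM0]
  apply ENNReal.ofReal_le_ofReal
  apply le_of_eq
  have := C2_pos m R
  field_simp

theorem max_main (m R : ℕ) {b : ℕ} (hb : 2 ≤ b) {ε : ℝ} (hε : 0 < ε) :
    ∃ (Q : ℕ) (C c : ℝ), 0 < C ∧ 0 < c ∧ ∀ N : ℕ, ∃ B : Set (Fin m → ℝ), MeasurableSet B ∧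
      volume B ≤ ENNReal.ofReal ((b : ℝ) ^ (-(c * N))) ∧
      ∀ (F : (Fin (m + 1) → ℤ) → ℝ≥0) (P : ℕ),
        (∀ k ≤ N, (Set.range (sh F b N k)).encard ≤ P) →
        ∀ v : Fin m → ℝ, (∀ j, |v j| ≤ R) → v ∉ B → ∀ p : Fin (m + 1) → ℝ,
          ∫⁻ t in Icc (0 : ℝ) 1,
            (F (cell b N (p + t • (Fin.cons 1 v : Fin (m + 1) → ℝ))) : ℝ≥0∞) ≤
          ENNReal.ofReal (C * (b : ℝ) ^ (ε * N)) * (P : ℝ≥0∞) ^ Q *
            (∫⁻ y : Fin (m + 1) → ℝ, (F (cell b N y) : ℝ≥0∞) ^ (m + 1)) ^ (1 / ((m : ℝ) + 1)) := by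
  have hbN : 0 < b := by omega
  have hb0 : (0 : ℝ) < b := by exact_mod_cast hbN
  have hb1 : (1 : ℝ) ≤ b := by exact_mod_cast (by omega : 1 ≤ b)
  have hb2 : (1 : ℝ) < b := by exact_mod_cast (by omega : 1 < b)
  have hm0 : (0 : ℝ) < (m : ℝ) + 1 := by positivity
  set Q : ℕ := ⌈4 * ((m : ℝ) + 1) / ε⌉₊ + 1 with hQ
  have hQ1 : 1 ≤ Q := by omega
  have hQr : 4 * ((m : ℝ) + 1) / ε ≤ Q := by
    have := Nat.le_ceil (4 * ((m : ℝ) + 1) / ε)
    rw [hQ]; push_cast; linarith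
  have hQ0 : (0 : ℝ) < Q := by exact_mod_cast hQ1
  set M : ℕ := m + (m + 1) * Q with hM
  have hM0 : 0 < M := by
    have : 0 < (m + 1) * Q := by positivity
    omega
  set c : ℝ := ε / (2 * Q) with hc
  have hc0 : 0 < c := by positivity
  obtain ⟨s0, hs0⟩ := pow_unbounded_of_one_lt (2 * ((R : ℝ) + 1)) hb2
  have hC2 := C2_pos m R
  set C1 : ℝ := (C2 m R) ^ Q * (2 * R + 4) ^ (m + 1) * (b : ℝ) ^ M with hC1
  have hC10 : 0 < C1 := by positivity
  refine ⟨Q, C1 + (b : ℝ) ^ (M * s0), c, by positivity, hc0, fun N => ?_⟩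
  set s : ℕ := N / M with hs
  have hpt : ∀ (p : Fin (m + 1) → ℝ) (v : Fin m → ℝ) (t : ℝ),
      p + t • (Fin.cons 1 v : Fin (m + 1) → ℝ) = pt p v t := fun p v t => rfl
  have hPone : ∀ (F : (Fin (m + 1) → ℤ) → ℝ≥0) (P : ℕ),
      (∀ k ≤ N, (Set.range (sh F b N k)).encard ≤ P) → 1 ≤ P := by
    intro F P hP
    have h1 := hP 0 (Nat.zero_le _)
    have h2 : 0 < (Set.range (sh F b N 0)).encard := by
      rw [Set.encard_pos]
      exact Set.range_nonempty _
    have h3 : (0 : ℕ∞) < (P : ℕ∞) := h2.trans_le h1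
    exact_mod_cast h3
  rcases le_or_gt s0 s with hss | hss
  · -- main case
    have hsR : 2 * ((R : ℝ) + 1) ≤ (b : ℝ) ^ s := hs0.le.trans (pow_le_pow_right₀ hb1 hss)
    set A : ℝ := (b : ℝ) ^ (c * N) with hA
    have hA0 : 0 < A := by positivity
    refine ⟨exc m b (m * s) s R A, measurableSet_exc _ _ _ _ _ _, ?_, ?_⟩
    · refine (vol_exc m hbN s R hA0).trans (le_of_eq ?_)
      rw [hA, Real.rpow_neg hb0.le]
    · intro F P hP v hv hvB p
      simp_rw [hpt]
      have hNs : (m + (m + 1) * Q) * s ≤ N := by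
        rw [hs, ← hM]
        exact Nat.mul_div_le _ _
      have h1 := line_bound hbN F hNs hsR hP hv p
      refine h1.trans ?_
      rw [S0_rpow m hbN N F]
      have hh : ((hits b (m * s) s R v).card : ℝ≥0∞) ≤ ENNReal.ofReal (A * C2 m R) := by
        by_contra hcon
        push Not at hcon
        exact hvB ⟨hcon.le, mem_BR.2 hv⟩
      set nf := (∫⁻ y : Fin (m + 1) → ℝ, (F (cell b N y) : ℝ≥0∞) ^ (m + 1)) ^ (1 / ((m : ℝ) + 1))
        with hnf
      set Y : ℝ := (2 * R + 4) * (b : ℝ) ^ ((m + 1) * s) / (b : ℝ) ^ (Q * s) with hY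
      have hY0 : 0 < Y := by positivity
      have hreal : (b : ℝ) ^ N * ((A * C2 m R) ^ Q * Y ^ (m + 1)) ≤
          (C1 + (b : ℝ) ^ (M * s0)) * (b : ℝ) ^ (ε * N) := by
        have e1 : (b : ℝ) ^ N * ((A * C2 m R) ^ Q * Y ^ (m + 1)) =
            (C2 m R) ^ Q * (2 * R + 4) ^ (m + 1) *
            ((b : ℝ) ^ N * A ^ Q * (((b : ℝ) ^ ((m + 1) * s)) ^ (m + 1) /
              ((b : ℝ) ^ (Q * s)) ^ (m + 1))) := by
          rw [hY, mul_pow, div_pow, mul_pow]
          ring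
        have e2 : (b : ℝ) ^ N * A ^ Q * (((b : ℝ) ^ ((m + 1) * s)) ^ (m + 1) /
              ((b : ℝ) ^ (Q * s)) ^ (m + 1)) =
            (b : ℝ) ^ ((N : ℝ) + c * N * Q + ((m : ℝ) + 1) * s * (m + 1) - Q * s * (m + 1)) := by
          rw [Real.rpow_sub hb0, Real.rpow_add hb0, Real.rpow_add hb0, Real.rpow_natCast, hA,
            ← Real.rpow_natCast ((b : ℝ) ^ (c * N)) Q, ← Real.rpow_mul hb0.le, ← pow_mul, ← pow_mul,
            ← Real.rpow_natCast (b : ℝ) ((m + 1) * s * (m + 1)),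
            ← Real.rpow_natCast (b : ℝ) (Q * s * (m + 1))]
          push_cast
          ring
        have hNM : (N : ℝ) ≤ M * s + M := by
          have h2 : N < M * (s + 1) := Nat.lt_mul_div_succ _ hM0
          have h3 : N ≤ M * s + M := by nlinarith
          exact_mod_cast h3
        have hsM : (M : ℝ) * s ≤ N := by exact_mod_cast hNs
        have hMr : (M : ℝ) = m + (m + 1) * Q := by rw [hM]; push_cast; ring
        have hcQ : c * N * Q = ε / 2 * N := by
          rw [hc]; field_simp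
        have hs_le : ((m : ℝ) + 1) * Q * s ≤ N := by
          refine le_trans ?_ hsM
          rw [hMr]
          have : (0 : ℝ) ≤ m * s := by positivity
          nlinarith
        have hkey : (((m : ℝ) + 1) * (m + 1) + m) * s ≤ ε / 2 * N := by
          have h2 : 4 * ((m : ℝ) + 1) ≤ ε * Q := by
            rw [div_le_iff₀ hε] at hQr
            linarith
          have h3 : (0 : ℝ) ≤ s := by positivity
          have h4 : 4 * ((m : ℝ) + 1) * (((m : ℝ) + 1) * s) ≤ ε * N := by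
            calc 4 * ((m : ℝ) + 1) * (((m : ℝ) + 1) * s) ≤ ε * Q * (((m : ℝ) + 1) * s) := by
                  gcongr
              _ = ε * (((m : ℝ) + 1) * Q * s) := by ring
              _ ≤ ε * N := by gcongr
          have h5 : (m : ℝ) * s ≤ ((m : ℝ) + 1) * (((m : ℝ) + 1) * s) := by
            have : (0 : ℝ) ≤ m := by positivity
            nlinarith [mul_nonneg this h3, mul_nonneg (mul_nonneg this this) h3]
          nlinarith
        have hexp : (N : ℝ) + c * N * Q + ((m : ℝ) + 1) * s * (m + 1) - Q * s * (m + 1) ≤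
            M + ε * N := by
          rw [hcQ]
          rw [hMr] at hNM ⊢
          nlinarith
        rw [e1, e2]
        calc (C2 m R) ^ Q * (2 * R + 4) ^ (m + 1) *
              (b : ℝ) ^ ((N : ℝ) + c * N * Q + ((m : ℝ) + 1) * s * (m + 1) - Q * s * (m + 1))
            ≤ (C2 m R) ^ Q * (2 * R + 4) ^ (m + 1) * (b : ℝ) ^ ((M : ℝ) + ε * N) := by
              gcongr
          _ = C1 * (b : ℝ) ^ (ε * N) := by
              rw [Real.rpow_add hb0, Real.rpow_natCast, hC1]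
              ring
          _ ≤ _ := by
              gcongr
              have : (0 : ℝ) < (b : ℝ) ^ (M * s0) := by positivity
              linarith
      calc nf * ENNReal.ofReal ((b : ℝ) ^ N) *
            (((P : ℝ≥0∞) * (hits b (m * s) s R v).card) ^ Q * ENNReal.ofReal (Y ^ (m + 1)))
          ≤ nf * ENNReal.ofReal ((b : ℝ) ^ N) *
            (((P : ℝ≥0∞) * ENNReal.ofReal (A * C2 m R)) ^ Q * ENNReal.ofReal (Y ^ (m + 1))) := by
            gcongr
        _ = ENNReal.ofReal ((b : ℝ) ^ N * ((A * C2 m R) ^ Q * Y ^ (m + 1))) * (P : ℝ≥0∞) ^ Q * nf := by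
            have e3 : ENNReal.ofReal ((b : ℝ) ^ N * ((A * C2 m R) ^ Q * Y ^ (m + 1))) =
                ENNReal.ofReal ((b : ℝ) ^ N) * (ENNReal.ofReal (A * C2 m R) ^ Q *
                  ENNReal.ofReal (Y ^ (m + 1))) := by
              have e4 := ENNReal.ofReal_mul (p := (b : ℝ) ^ N)
                (q := (A * C2 m R) ^ Q * Y ^ (m + 1)) (by positivity)
              have e5 := ENNReal.ofReal_mul (p := (A * C2 m R) ^ Q)
                (q := Y ^ (m + 1)) (by positivity)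
              rw [e4, e5, ENNReal.ofReal_pow (by positivity : 0 ≤ A * C2 m R)]
            rw [e3, mul_pow]
            ring
        _ ≤ _ := by
            gcongr
  · -- few levels
    refine ⟨∅, MeasurableSet.empty, by simp, ?_⟩
    intro F P hP v _ _ p
    have hNle : N ≤ M * s0 := by
      have h2 : N < M * (s + 1) := Nat.lt_mul_div_succ _ hM0
      have h3 : M * (s + 1) ≤ M * s0 := Nat.mul_le_mul_left _ hss
      omega
    have hF : ∀ y, (F y : ℝ≥0∞) ≤ (∑' y, (F y : ℝ≥0∞) ^ (m + 1)) ^ (1 / ((m : ℝ) + 1)) := by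
      intro y
      have h7 : (F y : ℝ≥0∞) = ((F y : ℝ≥0∞) ^ (m + 1)) ^ (1 / ((m : ℝ) + 1)) := by
        rw [← ENNReal.rpow_natCast, ← ENNReal.rpow_mul]
        have : ((m + 1 : ℕ) : ℝ) * (1 / ((m : ℝ) + 1)) = 1 := by
          push_cast
          field_simp
        rw [this, ENNReal.rpow_one]
      rw [h7]
      exact ENNReal.rpow_le_rpow (ENNReal.le_tsum y) (by positivity)
    set nf := (∫⁻ y : Fin (m + 1) → ℝ, (F (cell b N y) : ℝ≥0∞) ^ (m + 1)) ^ (1 / ((m : ℝ) + 1))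
      with hnf
    calc ∫⁻ t in Icc (0 : ℝ) 1, (F (cell b N (p + t • (Fin.cons 1 v : Fin (m + 1) → ℝ))) : ℝ≥0∞)
        ≤ ∫⁻ _t in Icc (0 : ℝ) 1, (∑' y, (F y : ℝ≥0∞) ^ (m + 1)) ^ (1 / ((m : ℝ) + 1)) :=
          lintegral_mono (fun t => hF _)
      _ = (∑' y, (F y : ℝ≥0∞) ^ (m + 1)) ^ (1 / ((m : ℝ) + 1)) := by
          rw [lintegral_const, Measure.restrict_apply MeasurableSet.univ, Set.univ_inter,
            Real.volume_Icc]
          simp
      _ = nf * ENNReal.ofReal ((b : ℝ) ^ N) := S0_rpow m hbN N F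
      _ ≤ nf * (ENNReal.ofReal ((C1 + (b : ℝ) ^ (M * s0)) * (b : ℝ) ^ (ε * N)) *
          (P : ℝ≥0∞) ^ Q) := by
          gcongr
          have h1 : ENNReal.ofReal ((b : ℝ) ^ N) ≤
              ENNReal.ofReal ((C1 + (b : ℝ) ^ (M * s0)) * (b : ℝ) ^ (ε * N)) := by
            apply ENNReal.ofReal_le_ofReal
            have h2 : (b : ℝ) ^ N ≤ (b : ℝ) ^ (M * s0) := pow_le_pow_right₀ hb1 hNle
            have h3 : (1 : ℝ) ≤ (b : ℝ) ^ (ε * N) := Real.one_le_rpow hb1 (by positivity)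
            calc (b : ℝ) ^ N ≤ (b : ℝ) ^ (M * s0) := h2
              _ ≤ C1 + (b : ℝ) ^ (M * s0) := by linarith
              _ = (C1 + (b : ℝ) ^ (M * s0)) * 1 := by ring
              _ ≤ (C1 + (b : ℝ) ^ (M * s0)) * (b : ℝ) ^ (ε * N) := by gcongr
          have h2 : (1 : ℝ≥0∞) ≤ (P : ℝ≥0∞) ^ Q := by
            apply one_le_pow₀
            exact_mod_cast hPone F P hP
          calc ENNReal.ofReal ((b : ℝ) ^ N) = ENNReal.ofReal ((b : ℝ) ^ N) * 1 := (mul_one _).symm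
            _ ≤ _ := mul_le_mul' h1 h2
      _ = _ := by ring

end Pool.Agent.V114.KakCx
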