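import Pool.Agent.V114.KakCx.Vis

/-!
Integrals of products of functions of the positions, along a segment.
-/

open MeasureTheory Set Filter Topology
open scoped ENNReal NNReal

namespace Pool.Agent.V114.KakCx

variable {m : ℕ}

/-- the product, as a function of the last cell -/
noncomputable def Phi (n b s m : ℕ) (Rf : ℕ → (Fin n → ℤ) → ℝ≥0∞) : ℕ → (Fin n → ℤ) → ℝ≥0∞
  | 0, _ => 1
  | l + 1, y => Phi n b s m Rf l (fun q => y q / (b : ℤ) ^ (m * s + s)) *
      Rf l (fun q => y q % (b : ℤ) ^ s)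

lemma prod_eq_Phi {b : ℕ} (hb : 0 < b) (s c : ℕ) (p : Fin (m + 1) → ℝ) (v : Fin m → ℝ)
    (Rf : ℕ → (Fin (m + 1) → ℤ) → ℝ≥0∞) (t : ℝ) (Q : ℕ) :
    ∏ l ∈ Finset.range Q, Rf l
      (fun q => cell b ((c + (l + 1) * (m + 1)) * s) (pt p v t) q % (b : ℤ) ^ s) =
    Phi (m + 1) b s m Rf Q (cell b ((c + Q * (m + 1)) * s) (pt p v t)) := by
  induction Q with
  | zero => simp [Phi]
  | succ Q ih =>
    rw [Finset.prod_range_succ, ih]
    simp only [Phi]
    congr 2
    funext q
    have h := cell_ediv hb ((c + Q * (m + 1)) * s) (m * s + s) (pt p v t) q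
    rw [← h]
    congr 2
    ring

lemma anc_mem_vis {b : ℕ} (hb : 0 < b) {j e : ℕ} {p : Fin (m + 1) → ℝ} {v : Fin m → ℝ}
    {y : Fin (m + 1) → ℤ} (hy : y ∈ vis b (j + e) p v) :
    (fun q => y q / (b : ℤ) ^ e) ∈ vis b j p v := by
  obtain ⟨t, ht, rfl⟩ := mem_vis.1 hy
  refine mem_vis.2 ⟨t, ht, ?_⟩
  funext q
  exact (cell_ediv hb j e (pt p v t) q).symm

lemma sum_Phi {b : ℕ} (hb : 0 < b) (s c : ℕ) (p : Fin (m + 1) → ℝ) {v : Fin m → ℝ} {R : ℕ}
    (hv : ∀ j, |v j| ≤ R) (hs : 2 * ((R : ℝ) + 1) ≤ (b : ℝ) ^ s)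
    (Rf : ℕ → (Fin (m + 1) → ℤ) → ℝ≥0∞) (W : ℝ≥0∞) (Q : ℕ) :
    (∀ l < Q, ∑ a ∈ box (m + 1) b s, Rf l a ≤ W) →
    ∑ y ∈ vis b ((c + Q * (m + 1)) * s) p v, Phi (m + 1) b s m Rf Q y ≤
      (W * (hits b (m * s) s R v).card) ^ Q * (vis b (c * s) p v).card := by
  classical
  induction Q with
  | zero => intro _; simp [Phi]
  | succ Q ih' =>
    intro hW
    have ih := ih' (fun l hl => hW l (by omega))
    set K := (c + Q * (m + 1)) * s with hK
    have hK' : (c + (Q + 1) * (m + 1)) * s = K + m * s + s := by rw [hK]; ring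
    rw [hK']
    set anc : (Fin (m + 1) → ℤ) → (Fin (m + 1) → ℤ) := fun y q => y q / (b : ℤ) ^ (m * s + s) with hanc
    set rel : (Fin (m + 1) → ℤ) → (Fin (m + 1) → ℤ) := fun y q => y q % (b : ℤ) ^ s with hrel
    have hmaps : ∀ y ∈ vis b (K + m * s + s) p v, anc y ∈ vis b K p v := by
      intro y hy
      rw [add_assoc] at hy
      exact anc_mem_vis hb hy
    rw [← Finset.sum_fiberwise_of_maps_to hmaps]
    have hN : (0 : ℤ) < (b : ℤ) ^ s := by positivity
    have hin : ∀ y ∈ vis b K p v, ∑ y' ∈ (vis b (K + m * s + s) p v).filter (fun y' => anc y' = y),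
        Phi (m + 1) b s m Rf (Q + 1) y' ≤
        Phi (m + 1) b s m Rf Q y * (W * (hits b (m * s) s R v).card) := by
      intro y _
      have h1 : ∑ y' ∈ (vis b (K + m * s + s) p v).filter (fun y' => anc y' = y),
          Phi (m + 1) b s m Rf (Q + 1) y' =
          Phi (m + 1) b s m Rf Q y * ∑ y' ∈ (vis b (K + m * s + s) p v).filter
            (fun y' => anc y' = y), Rf Q (rel y') := by
        rw [Finset.mul_sum]
        apply Finset.sum_congr rfl
        intro y' hy'
        rw [← (Finset.mem_filter.1 hy').2]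
        rfl
      rw [h1]
      gcongr
      have hmaps2 : ∀ y' ∈ (vis b (K + m * s + s) p v).filter (fun y' => anc y' = y),
          rel y' ∈ box (m + 1) b s := by
        intro y' _
        rw [mem_box]
        intro q
        exact ⟨Int.emod_nonneg _ hN.ne', Int.emod_lt_of_pos _ hN⟩
      rw [← Finset.sum_fiberwise_of_maps_to hmaps2]
      calc _ ≤ ∑ a ∈ box (m + 1) b s, Rf Q a * (hits b (m * s) s R v).card := by
            apply Finset.sum_le_sum
            intro a _
            have h2 : ∑ y' ∈ ((vis b (K + m * s + s) p v).filter (fun y' => anc y' = y)).filter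
                (fun y' => rel y' = a), Rf Q (rel y') =
                (((vis b (K + m * s + s) p v).filter (fun y' => anc y' = y)).filter
                (fun y' => rel y' = a)).card * Rf Q a := by
              rw [Finset.sum_congr rfl (fun y' hy' => by
                rw [(Finset.mem_filter.1 hy').2]), Finset.sum_const, nsmul_eq_mul]
            rw [h2, mul_comm]
            gcongr
            have h3 := count_vis hb K s p hv hs y a
            refine le_trans (le_of_eq ?_) h3
            rw [Finset.filter_filter]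
            congr 1
            apply Finset.filter_congr
            intro y' _
            simp only [hanc, hrel, funext_iff]
        _ = (∑ a ∈ box (m + 1) b s, Rf Q a) * (hits b (m * s) s R v).card := by
            rw [Finset.sum_mul]
        _ ≤ _ := by
            gcongr
            exact hW Q (by omega)
    refine (Finset.sum_le_sum hin).trans ?_
    rw [← Finset.sum_mul, pow_succ]
    calc _ ≤ ((W * (hits b (m * s) s R v).card) ^ Q * (vis b (c * s) p v).card) *
          (W * (hits b (m * s) s R v).card) := by gcongr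
      _ = _ := by ring

theorem class_prod {b : ℕ} (hb : 0 < b) (s c : ℕ) (p : Fin (m + 1) → ℝ) {v : Fin m → ℝ} {R : ℕ}
    (hv : ∀ j, |v j| ≤ R) (hs : 2 * ((R : ℝ) + 1) ≤ (b : ℝ) ^ s)
    (Rf : ℕ → (Fin (m + 1) → ℤ) → ℝ≥0∞) (W : ℝ≥0∞) (Q : ℕ)
    (hW : ∀ l < Q, ∑ a ∈ box (m + 1) b s, Rf l a ≤ W) :
    ∫⁻ t in Icc (0 : ℝ) 1, ∏ l ∈ Finset.range Q, Rf l
      (fun q => cell b ((c + (l + 1) * (m + 1)) * s) (pt p v t) q % (b : ℤ) ^ s) ≤
      (W * (hits b (m * s) s R v).card) ^ Q * (vis b (c * s) p v).card *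
        ENNReal.ofReal (1 / (b : ℝ) ^ ((c + Q * (m + 1)) * s)) := by
  simp_rw [prod_eq_Phi hb s c p v Rf _ Q]
  refine (lintegral_vis hb _ p v _).trans ?_
  gcongr
  exact sum_Phi hb s c p hv hs Rf W Q hW

end Pool.Agent.V114.KakCx
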