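import Pool.Agent.V114.KakCx.Cells

/-!
The time which a segment spends in a given place of the cells.
-/

open MeasureTheory Set Filter Topology
open scoped ENNReal NNReal

namespace Pool.Agent.V114.KakCx

variable {m : ℕ}

open Classical in
/-- The integers `h`, `|h| ≤ b ^ k`, for which `h v` is close to an integer vector. -/
noncomputable def hits (b k s : ℕ) (R : ℝ) (v : Fin m → ℝ) : Finset ℤ :=
  (Finset.Icc (-((b : ℤ) ^ k)) ((b : ℤ) ^ k)).filter
    (fun h => ∃ w : Fin m → ℤ, ∀ j, |(h : ℝ) * v j - w j| < (R + 1) / (b : ℝ) ^ s)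

/-- The point at time `t`. -/
def pt (p : Fin (m + 1) → ℝ) (v : Fin m → ℝ) (t : ℝ) : Fin (m + 1) → ℝ :=
  fun i => p i + t * (Fin.cons 1 v : Fin (m + 1) → ℝ) i

lemma pt_zero (p : Fin (m + 1) → ℝ) (v : Fin m → ℝ) (t : ℝ) : pt p v t 0 = p 0 + t := by
  simp [pt]

lemma pt_succ (p : Fin (m + 1) → ℝ) (v : Fin m → ℝ) (t : ℝ) (j : Fin m) :
    pt p v t j.succ = p j.succ + t * v j := by
  simp [pt]

lemma floor_bds {x : ℝ} {q : ℤ} (h : ⌊x⌋ = q) : (q : ℝ) ≤ x ∧ x < q + 1 := by
  subst h
  exact ⟨Int.floor_le x, Int.lt_floor_add_one x⟩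

lemma time_le {b : ℕ} (hb : 0 < b) (k s : ℕ) (p : Fin (m + 1) → ℝ) (v : Fin m → ℝ) {R : ℝ}
    (hv : ∀ j, |v j| ≤ R) {ℓ : ℝ} (hℓ : ℓ ≤ 1) (a : Fin (m + 1) → ℤ) :
    volume {t | t ∈ Icc 0 ℓ ∧ ∀ i, cell b (k + s) (pt p v t) i % (b : ℤ) ^ s = a i} ≤
      (hits b k s R v).card * ENNReal.ofReal (1 / (b : ℝ) ^ (k + s)) := by
  classical
  set T := {t | t ∈ Icc 0 ℓ ∧ ∀ i, cell b (k + s) (pt p v t) i % (b : ℤ) ^ s = a i} with hT
  have hbs : (0 : ℝ) < (b : ℝ) ^ s := by positivity
  have hbk : (0 : ℝ) < (b : ℝ) ^ k := by positivity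
  have hbks : (0 : ℝ) < (b : ℝ) ^ (k + s) := by positivity
  by_cases hne : T.Nonempty
  swap
  · rw [not_nonempty_iff_eq_empty.1 hne]
    simp
  obtain ⟨t0, ht0⟩ := hne
  set z0 := cell b k (pt p v t0) with hz0
  -- the two inequalities for each time
  have hbd : ∀ t ∈ T, ∀ i, (b : ℝ) ^ s * (cell b k (pt p v t) i : ℝ) + a i ≤
      (b : ℝ) ^ (k + s) * pt p v t i ∧ (b : ℝ) ^ (k + s) * pt p v t i <
      (b : ℝ) ^ s * (cell b k (pt p v t) i : ℝ) + a i + 1 := by
    intro t ht i
    have h1 := cell_eq hb k s (pt p v t) i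
    rw [ht.2 i] at h1
    have h2 := floor_bds (x := (b : ℝ) ^ (k + s) * pt p v t i) (q := _) h1
    push_cast at h2
    exact h2
  set I : ℤ → Set ℝ := fun h => Ico
    (((b : ℝ) ^ s * ((z0 0 : ℝ) + h) + a 0) / (b : ℝ) ^ (k + s) - p 0)
    (((b : ℝ) ^ s * ((z0 0 : ℝ) + h) + a 0) / (b : ℝ) ^ (k + s) - p 0 + 1 / (b : ℝ) ^ (k + s)) with hI
  have hsub : T ⊆ ⋃ h ∈ hits b k s R v, I h := by
    intro t ht
    set h : ℤ := cell b k (pt p v t) 0 - z0 0 with hh
    have e0 := hbd t ht 0
    have f0 := hbd t0 ht0 0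
    have habs : |(b : ℝ) ^ (k + s) * (t - t0) - (b : ℝ) ^ s * (h : ℝ)| < 1 := by
      rw [pt_zero] at e0 f0
      rw [hh, abs_lt]
      push_cast
      constructor <;> nlinarith [e0.1, e0.2, f0.1, f0.2]
    have hts : |t - t0| ≤ 1 := by
      have h1 := ht.1
      have h2 := ht0.1
      rw [abs_le]
      constructor <;> linarith [h1.1, h1.2, h2.1, h2.2]
    have hb1 : (1 : ℝ) ≤ (b : ℝ) ^ s := one_le_pow₀ (by exact_mod_cast hb)
    rw [mem_iUnion₂]
    refine ⟨h, ?_, ?_⟩
    · unfold hits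
      rw [Finset.mem_filter, Finset.mem_Icc]
      refine ⟨?_, fun j => cell b k (pt p v t) j.succ - z0 j.succ, fun j => ?_⟩
      · have h3 : |(b : ℝ) ^ s * (h : ℝ)| < (b : ℝ) ^ (k + s) + 1 := by
          have h4 : |(b : ℝ) ^ (k + s) * (t - t0)| ≤ (b : ℝ) ^ (k + s) := by
            rw [abs_mul, abs_of_pos hbks]
            nlinarith
          have h5 : (b : ℝ) ^ s * (h : ℝ) = (b : ℝ) ^ (k + s) * (t - t0) -
              ((b : ℝ) ^ (k + s) * (t - t0) - (b : ℝ) ^ s * (h : ℝ)) := by ring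
          rw [h5]
          calc _ ≤ |(b : ℝ) ^ (k + s) * (t - t0)| +
              |(b : ℝ) ^ (k + s) * (t - t0) - (b : ℝ) ^ s * (h : ℝ)| := abs_sub _ _
            _ < _ := by linarith
        have h6 : |(h : ℝ)| < (b : ℝ) ^ k + 1 := by
          rw [abs_mul, abs_of_pos hbs, pow_add] at h3
          have : (b : ℝ) ^ s * |(h : ℝ)| < (b : ℝ) ^ s * ((b : ℝ) ^ k + 1) := by nlinarith
          exact lt_of_mul_lt_mul_left this hbs.le
        have h7 : |h| < (b : ℤ) ^ k + 1 := by exact_mod_cast h6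
        have h8 := abs_lt.1 h7
        constructor <;> omega
      · have ej := hbd t ht j.succ
        have fj := hbd t0 ht0 j.succ
        rw [pt_succ] at ej fj
        have h1 : |(b : ℝ) ^ (k + s) * (t - t0) * v j -
            (b : ℝ) ^ s * ((cell b k (pt p v t) j.succ : ℝ) - z0 j.succ)| < 1 := by
          rw [abs_lt]
          constructor <;> nlinarith [ej.1, ej.2, fj.1, fj.2]
        rw [lt_div_iff₀ hbs]
        have h2 : ((h : ℝ) * v j - ((cell b k (pt p v t) j.succ - z0 j.succ : ℤ) : ℝ)) * (b : ℝ) ^ s =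
            -(((b : ℝ) ^ (k + s) * (t - t0) - (b : ℝ) ^ s * (h : ℝ)) * v j) +
            ((b : ℝ) ^ (k + s) * (t - t0) * v j -
            (b : ℝ) ^ s * ((cell b k (pt p v t) j.succ : ℝ) - z0 j.succ)) := by
          push_cast
          ring
        have h3 : |((b : ℝ) ^ (k + s) * (t - t0) - (b : ℝ) ^ s * (h : ℝ)) * v j| ≤ R := by
          rw [abs_mul]
          calc _ ≤ 1 * R := mul_le_mul habs.le (hv j) (abs_nonneg _) zero_le_one
            _ = R := one_mul R
        have h4 : |(h : ℝ) * v j - ((cell b k (pt p v t) j.succ - z0 j.succ : ℤ) : ℝ)| * (b : ℝ) ^ s =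
            |((h : ℝ) * v j - ((cell b k (pt p v t) j.succ - z0 j.succ : ℤ) : ℝ)) * (b : ℝ) ^ s| := by
          rw [abs_mul, abs_of_pos hbs]
        rw [h4, h2]
        calc _ ≤ |-(((b : ℝ) ^ (k + s) * (t - t0) - (b : ℝ) ^ s * (h : ℝ)) * v j)| +
              |(b : ℝ) ^ (k + s) * (t - t0) * v j -
              (b : ℝ) ^ s * ((cell b k (pt p v t) j.succ : ℝ) - z0 j.succ)| := abs_add_le _ _
          _ < R + 1 := by
            rw [abs_neg]
            linarith
    · rw [pt_zero] at e0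
      have h1 : (z0 0 : ℝ) + h = cell b k (pt p v t) 0 := by
        rw [hh]; push_cast; ring
      simp only [hI, mem_Ico]
      rw [h1]
      constructor
      · rw [sub_le_iff_le_add, div_le_iff₀ hbks]
        nlinarith [e0.1]
      · rw [sub_add_eq_add_sub, lt_sub_iff_add_lt, ← add_div, lt_div_iff₀ hbks]
        nlinarith [e0.2]
  refine (measure_mono hsub).trans ((measure_biUnion_finset_le _ _).trans ?_)
  have hvol : ∀ h ∈ hits b k s R v, volume (I h) ≤ ENNReal.ofReal (1 / (b : ℝ) ^ (k + s)) := by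
    intro h _
    simp only [hI, Real.volume_Ico]
    apply ENNReal.ofReal_le_ofReal
    linarith
  refine (Finset.sum_le_sum hvol).trans ?_
  rw [Finset.sum_const, nsmul_eq_mul]

/-- A bound for the time outside of the good cells. -/
lemma time_out {K : Set (Fin (m + 1) → ℝ)} {b : ℕ} (hb : 0 < b) (hK : Bornology.IsBounded K)
    {kk ss D : ℕ → ℕ} (hk : ∀ i, kk (i + 1) = kk i + ss i) (p : Fin (m + 1) → ℝ)
    (v : Fin m → ℝ) {R : ℝ} (hv : ∀ j, |v j| ≤ R) {ℓ : ℝ} (hℓ : ℓ ≤ 1)
    (hseg : ∀ t ∈ Icc 0 ℓ, pt p v t ∈ K) (j : ℕ) : ∀ i : ℕ,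
    volume {t | t ∈ Icc 0 ℓ ∧ cell b (kk i) (pt p v t) ∉ H K b kk ss D j i} ≤
      ∑ l ∈ Finset.range j, ((Set.range (ty K b (kk (i + l)))).ncard : ℝ≥0∞) * (D (i + l) : ℝ≥0∞) *
        ((hits b (kk (i + l)) (ss (i + l)) R v).card *
          ENNReal.ofReal (1 / (b : ℝ) ^ (kk (i + l + 1)))) := by
  classical
  induction j with
  | zero =>
    intro i
    have : {t | t ∈ Icc 0 ℓ ∧ cell b (kk i) (pt p v t) ∉ H K b kk ss D 0 i} = ∅ := by
      rw [eq_empty_iff_forall_notMem]
      rintro t ⟨ht, h⟩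
      exact h (ty_cell_nonempty hb _ (hseg t ht))
    rw [this]
    simp
  | succ j ih =>
    intro i
    set k := kk i with hki
    set s := ss i with hsi
    -- the thin patterns
    set pat : (Fin (m + 1) → ℤ) → Finset (Fin (m + 1) → ℤ) := fun z =>
      (box (m + 1) b s).filter (fun a => child b s z a ∈ H K b kk ss D j (i + 1)) with hpat
    have hfin : (Set.range (ty K b k)).Finite := finite_types hK hb k
    have hrep : ∀ τ : Set (Fin (m + 1) → ℝ), ∃ z, τ ∈ Set.range (ty K b k) → ty K b k z = τ := by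
      intro τ
      by_cases h : τ ∈ Set.range (ty K b k)
      · obtain ⟨z, hz⟩ := h
        exact ⟨z, fun _ => hz⟩
      · exact ⟨0, fun h' => absurd h' h⟩
    choose rep hrep using hrep
    set A : Finset (Fin (m + 1) → ℤ) :=
      (hfin.toFinset.filter (fun τ => rep τ ∉ H K b kk ss D (j + 1) i)).biUnion
        (fun τ => pat (rep τ)) with hA
    have hAcard : A.card ≤ (Set.range (ty K b k)).ncard * D i := by
      rw [hA]
      refine Finset.card_biUnion_le.trans ?_
      calc ∑ τ ∈ hfin.toFinset.filter (fun τ => rep τ ∉ H K b kk ss D (j + 1) i),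
            (pat (rep τ)).card
          ≤ ∑ τ ∈ hfin.toFinset.filter (fun τ => rep τ ∉ H K b kk ss D (j + 1) i), D i := by
            apply Finset.sum_le_sum
            intro τ hτ
            have h1 := (Finset.mem_filter.1 hτ).2
            simp only [H, mem_ofPred_eq, not_le] at h1
            exact h1.le
        _ = (hfin.toFinset.filter (fun τ => rep τ ∉ H K b kk ss D (j + 1) i)).card * D i := by
            rw [Finset.sum_const, smul_eq_mul]
        _ ≤ _ := by
            apply Nat.mul_le_mul_right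
            rw [Set.ncard_eq_toFinset_card _ hfin]
            exact Finset.card_filter_le _ _
    have hsub : {t | t ∈ Icc 0 ℓ ∧ cell b k (pt p v t) ∉ H K b kk ss D (j + 1) i} ⊆
        {t | t ∈ Icc 0 ℓ ∧ cell b (kk (i + 1)) (pt p v t) ∉ H K b kk ss D j (i + 1)} ∪
        ⋃ a ∈ A, {t | t ∈ Icc 0 ℓ ∧ ∀ q, cell b (k + s) (pt p v t) q % (b : ℤ) ^ s = a q} := by
      rintro t ⟨ht, hbad⟩
      by_cases hg : cell b (kk (i + 1)) (pt p v t) ∈ H K b kk ss D j (i + 1)
      · right
        rw [mem_iUnion₂]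
        set a : Fin (m + 1) → ℤ := fun q => cell b (k + s) (pt p v t) q % (b : ℤ) ^ s with ha
        set z := cell b k (pt p v t) with hz
        have hch : child b s z a = cell b (k + s) (pt p v t) := by
          funext q
          simp only [child, ha, hz]
          exact (cell_eq hb k s (pt p v t) q).symm
        have habox : a ∈ box (m + 1) b s := by
          rw [mem_box]
          intro q
          have hN : (0 : ℤ) < (b : ℤ) ^ s := by positivity
          exact ⟨Int.emod_nonneg _ hN.ne', Int.emod_lt_of_pos _ hN⟩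
        have hty := hrep (ty K b k z) ⟨z, rfl⟩
        have hpz : pat (rep (ty K b k z)) = pat z := by
          simp only [hpat]
          apply Finset.filter_congr
          intro a' ha'
          apply H_congr hb hk j (i + 1)
          rw [hk i, ty_child K hb _ _ _ a' (mem_box.1 ha'), ty_child K hb _ _ _ a' (mem_box.1 ha'),
            hty]
        refine ⟨a, ?_, ht, fun q => rfl⟩
        rw [hA, Finset.mem_biUnion]
        refine ⟨ty K b k z, ?_, ?_⟩
        · rw [Finset.mem_filter, Set.Finite.mem_toFinset]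
          refine ⟨⟨z, rfl⟩, ?_⟩
          rw [H_congr hb hk (j + 1) i _ z hty]
          exact hbad
        · rw [hpz, hpat, Finset.mem_filter]
          refine ⟨habox, ?_⟩
          rw [hch]
          rw [hk i] at hg
          exact hg
      · left
        exact ⟨ht, hg⟩
    refine (measure_mono hsub).trans ((measure_union_le _ _).trans ?_)
    rw [Finset.sum_range_succ']
    apply add_le_add
    · refine (ih (i + 1)).trans (le_of_eq ?_)
      apply Finset.sum_congr rfl
      intro l _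
      have e1 : i + 1 + l = i + (l + 1) := by ring
      rw [e1]
    · refine (measure_biUnion_finset_le _ _).trans ?_
      refine (Finset.sum_le_sum (fun a _ => time_le hb k s p v hv hℓ a)).trans ?_
      rw [Finset.sum_const, nsmul_eq_mul, add_zero, ← hki, ← hsi, hk i, ← hki, ← hsi]
      gcongr
      exact_mod_cast hAcard

end Pool.Agent.V114.KakCx
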