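import Pool.Agent.V114.KakCx.Cells

/-!
A good cell contains a regular tree of cells.
-/

open MeasureTheory Set Filter Topology
open scoped ENNReal NNReal

namespace Pool.Agent.V114.KakCx

variable {n : ℕ}

lemma kk_mono {kk ss : ℕ → ℕ} (hk : ∀ i, kk (i + 1) = kk i + ss i) : Monotone kk :=
  monotone_nat_of_le_succ (fun i => by rw [hk i]; exact Nat.le_add_right _ _)

lemma div_div_pow (b : ℕ) {e f g : ℕ} (h : e = f + g) (y : ℤ) :
    y / (b : ℤ) ^ e = y / (b : ℤ) ^ f / (b : ℤ) ^ g := by
  rw [h, pow_add, Int.ediv_ediv_of_nonneg (by positivity)]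

lemma child_div {b : ℕ} (hb : 0 < b) (s : ℕ) (z a : Fin n → ℤ)
    (ha : ∀ i, 0 ≤ a i ∧ a i < (b : ℤ) ^ s) (q : Fin n) :
    child b s z a q / (b : ℤ) ^ s = z q := by
  have hN : (0 : ℤ) < (b : ℤ) ^ s := by positivity
  simp only [child]
  rw [Int.mul_add_ediv_left _ _ hN.ne', Int.ediv_eq_zero_of_lt (ha q).1 (ha q).2, add_zero]

lemma child_inj {b s : ℕ} {z a a' : Fin n → ℤ} (h : child b s z a = child b s z a') : a = a' := by
  funext q
  have := congrFun h q
  simp only [child] at this
  linarith

lemma tree {K : Set (Fin n → ℝ)} {b : ℕ} (hb : 0 < b) {kk ss D : ℕ → ℕ}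
    (hk : ∀ i, kk (i + 1) = kk i + ss i) (j : ℕ) : ∀ (i : ℕ) (z : Fin n → ℤ),
    z ∈ H K b kk ss D j i →
    ∃ F : Finset (Fin n → ℤ), (∀ y ∈ F, (ty K b (kk (i + j)) y).Nonempty) ∧
      (∀ y ∈ F, ∀ q, y q / (b : ℤ) ^ (kk (i + j) - kk i) = z q) ∧
      F.card = ∏ l ∈ Finset.range j, D (i + l) ∧
      ∀ l ≤ j, ∀ c : Fin n → ℤ,
        (F.filter (fun y => ∀ q, y q / (b : ℤ) ^ (kk (i + j) - kk (i + l)) = c q)).card ≤
          ∏ l' ∈ Finset.Ico l j, D (i + l') := by
  classical
  have hmono := kk_mono hk
  induction j with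
  | zero =>
    intro i z hz
    refine ⟨{z}, ?_, ?_, ?_, ?_⟩
    · intro y hy
      rw [Finset.mem_singleton] at hy
      subst hy
      exact hz
    · intro y hy q
      rw [Finset.mem_singleton] at hy
      subst hy
      simp
    · simp
    · intro l hl c
      have : l = 0 := by omega
      subst this
      simp only [Finset.Ico_self, Finset.prod_empty]
      exact (Finset.card_filter_le _ _).trans (by simp)
  | succ j ih =>
    intro i z hz
    set s := ss i with hs
    have hz' : D i ≤ ((box n b s).filter
      (fun a => child b s z a ∈ H K b kk ss D j (i + 1))).card := hz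
    obtain ⟨S, hS, hScard⟩ := Finset.exists_subset_card_eq hz'
    have hex : ∀ a : Fin n → ℤ, ∃ F : Finset (Fin n → ℤ), a ∈ S →
        (∀ y ∈ F, (ty K b (kk (i + 1 + j)) y).Nonempty) ∧
        (∀ y ∈ F, ∀ q, y q / (b : ℤ) ^ (kk (i + 1 + j) - kk (i + 1)) = child b s z a q) ∧
        F.card = ∏ l ∈ Finset.range j, D (i + 1 + l) ∧
        ∀ l ≤ j, ∀ c : Fin n → ℤ,
          (F.filter (fun y => ∀ q, y q / (b : ℤ) ^ (kk (i + 1 + j) - kk (i + 1 + l)) =
            c q)).card ≤ ∏ l' ∈ Finset.Ico l j, D (i + 1 + l') := by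
      intro a
      by_cases ha : a ∈ S
      · obtain ⟨F, hF⟩ := ih (i + 1) (child b s z a) (Finset.mem_filter.1 (hS ha)).2
        exact ⟨F, fun _ => hF⟩
      · exact ⟨∅, fun h => absurd h ha⟩
    choose F hF using hex
    have hbox : ∀ a ∈ S, ∀ i, 0 ≤ a i ∧ a i < (b : ℤ) ^ s := fun a ha =>
      mem_box.1 (Finset.mem_filter.1 (hS ha)).1
    have e1 : i + (j + 1) = i + 1 + j := by ring
    have hdisj : ∀ a ∈ S, ∀ a' ∈ S, ∀ y, y ∈ F a → y ∈ F a' → a = a' := by
      intro a ha a' ha' y hy hy'
      apply child_inj (b := b) (s := s) (z := z)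
      funext q
      rw [← (hF a ha).2.1 y hy q, ← (hF a' ha').2.1 y hy' q]
    refine ⟨S.biUnion F, ?_, ?_, ?_, ?_⟩
    · intro y hy
      obtain ⟨a, ha, hya⟩ := Finset.mem_biUnion.1 hy
      rw [e1]
      exact (hF a ha).1 y hya
    · intro y hy q
      obtain ⟨a, ha, hya⟩ := Finset.mem_biUnion.1 hy
      have h1 : kk (i + (j + 1)) - kk i = (kk (i + 1 + j) - kk (i + 1)) + s := by
        have h2 := hmono (show i + 1 ≤ i + 1 + j by omega)
        rw [e1, hs]
        have := hk i
        omega
      rw [div_div_pow b h1, (hF a ha).2.1 y hya q]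
      exact child_div hb s z a (hbox a ha) q
    · rw [Finset.card_biUnion]
      · rw [Finset.sum_congr rfl (fun a ha => (hF a ha).2.2.1), Finset.sum_const, hScard,
          smul_eq_mul, Finset.prod_range_succ', add_zero, mul_comm]
        congr 1
        apply Finset.prod_congr rfl
        intro l _
        congr 1
        ring
      · intro a ha a' ha' hne
        rw [Function.onFun, Finset.disjoint_left]
        intro y hy hy'
        exact hne (hdisj a ha a' ha' y hy hy')
    · intro l hl c
      rcases Nat.eq_zero_or_pos l with hl0 | hl0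
      · subst hl0
        refine (Finset.card_filter_le _ _).trans ?_
        rw [Finset.card_biUnion]
        · rw [Finset.sum_congr rfl (fun a ha => (hF a ha).2.2.1), Finset.sum_const, hScard,
            smul_eq_mul, ← Finset.range_eq_Ico, Finset.prod_range_succ', add_zero, mul_comm]
          apply le_of_eq
          congr 1
          apply Finset.prod_congr rfl
          intro l _
          congr 1
          ring
        · intro a ha a' ha' hne
          rw [Function.onFun, Finset.disjoint_left]
          intro y hy hy'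
          exact hne (hdisj a ha a' ha' y hy hy')
      · obtain ⟨l', rfl⟩ : ∃ l', l = l' + 1 := ⟨l - 1, by omega⟩
        have e2 : i + (l' + 1) = i + 1 + l' := by ring
        rw [e1, e2]
        rcases Finset.eq_empty_or_nonempty ((S.biUnion F).filter
          (fun y => ∀ q, y q / (b : ℤ) ^ (kk (i + 1 + j) - kk (i + 1 + l')) = c q)) with h0 | ⟨y0, h0⟩
        · rw [h0]; simp
        · rw [Finset.mem_filter] at h0
          obtain ⟨a0, ha0, hy0⟩ := Finset.mem_biUnion.1 h0.1
          have h1 : kk (i + 1 + j) - kk (i + 1) =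
              (kk (i + 1 + j) - kk (i + 1 + l')) + (kk (i + 1 + l') - kk (i + 1)) := by
            have h2 := hmono (show i + 1 + l' ≤ i + 1 + j by omega)
            have h3 := hmono (show i + 1 ≤ i + 1 + l' by omega)
            omega
          have hsub : (S.biUnion F).filter
              (fun y => ∀ q, y q / (b : ℤ) ^ (kk (i + 1 + j) - kk (i + 1 + l')) = c q) ⊆
              (F a0).filter
              (fun y => ∀ q, y q / (b : ℤ) ^ (kk (i + 1 + j) - kk (i + 1 + l')) = c q) := by
            intro y hy
            rw [Finset.mem_filter] at hy ⊢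
            obtain ⟨a, ha, hya⟩ := Finset.mem_biUnion.1 hy.1
            have haa : a = a0 := by
              apply child_inj (b := b) (s := s) (z := z)
              funext q
              rw [← (hF a ha).2.1 y hya q, ← (hF a0 ha0).2.1 y0 hy0 q, div_div_pow b h1,
                div_div_pow b h1, hy.2 q, h0.2 q]
            rw [← haa]
            exact ⟨hya, hy.2⟩
          refine (Finset.card_le_card hsub).trans (((hF a0 ha0).2.2.2 l' (by omega) c).trans ?_)
          apply le_of_eq
          rw [← Finset.prod_Ico_add' (fun x => D (i + x)) l' j 1]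
          apply Finset.prod_congr rfl
          intro x _
          congr 1
          ring

end Pool.Agent.V114.KakCx
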