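import Pool.Agent.V114.KakCx.Dirs
import Pool.Agent.V114.KakCx.Tree

/-!
The cells visited by a segment.
-/

open MeasureTheory Set Filter Topology
open scoped ENNReal NNReal

namespace Pool.Agent.V114.KakCx

variable {m : ℕ}

open Classical in
/-- The cells of level `k` which are visited by the segment. -/
noncomputable def vis (b k : ℕ) (p : Fin (m + 1) → ℝ) (v : Fin m → ℝ) : Finset (Fin (m + 1) → ℤ) :=
  (Fintype.piFinset (fun i => Finset.Icc
    ⌊(b : ℝ) ^ k * p i - (b : ℝ) ^ k * |(Fin.cons 1 v : Fin (m + 1) → ℝ) i|⌋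
    ⌊(b : ℝ) ^ k * p i + (b : ℝ) ^ k * |(Fin.cons 1 v : Fin (m + 1) → ℝ) i|⌋)).filter
    (fun y => ∃ t ∈ Icc (0 : ℝ) 1, cell b k (pt p v t) = y)

lemma mem_vis {b k : ℕ} {p : Fin (m + 1) → ℝ} {v : Fin m → ℝ} {y : Fin (m + 1) → ℤ} :
    y ∈ vis b k p v ↔ ∃ t ∈ Icc (0 : ℝ) 1, cell b k (pt p v t) = y := by
  classical
  unfold vis
  rw [Finset.mem_filter]
  constructor
  · exact fun h => h.2
  · rintro ⟨t, ht, rfl⟩
    refine ⟨?_, t, ht, rfl⟩
    rw [Fintype.mem_piFinset]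
    intro i
    rw [Finset.mem_Icc]
    set d : ℝ := (Fin.cons 1 v : Fin (m + 1) → ℝ) i with hd
    have hb : (0 : ℝ) ≤ (b : ℝ) ^ k := by positivity
    have h1 : |t * d| ≤ |d| := by
      rw [abs_mul, abs_of_nonneg ht.1]
      exact mul_le_of_le_one_left (abs_nonneg _) ht.2
    have h2 := abs_le.1 h1
    simp only [cell, pt]
    rw [← hd]
    constructor
    · apply Int.floor_le_floor
      nlinarith [h2.1]
    · apply Int.floor_le_floor
      nlinarith [h2.2]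

lemma card_Icc_floor' {x r : ℝ} (hr : 0 ≤ r) :
    ((Finset.Icc ⌊x - r⌋ ⌊x + r⌋).card : ℝ) ≤ 2 * r + 2 := by
  rw [Int.card_Icc]
  have h1 := Int.lt_floor_add_one (x - r)
  have h2 := Int.floor_le (x + r)
  have h3 : ⌊x - r⌋ ≤ ⌊x + r⌋ := Int.floor_le_floor (by linarith)
  have h4 : ((⌊x + r⌋ + 1 - ⌊x - r⌋).toNat : ℤ) = ⌊x + r⌋ + 1 - ⌊x - r⌋ :=
    Int.toNat_of_nonneg (by omega)
  have h5 : ((⌊x + r⌋ + 1 - ⌊x - r⌋).toNat : ℝ) = ⌊x + r⌋ + 1 - ⌊x - r⌋ := by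
    exact_mod_cast congrArg (Int.cast (R := ℝ)) h4
  rw [h5]
  linarith

lemma vis_card {b : ℕ} (hb : 0 < b) (k : ℕ) (p : Fin (m + 1) → ℝ) {v : Fin m → ℝ} {R : ℕ}
    (hv : ∀ j, |v j| ≤ R) :
    ((vis b k p v).card : ℝ) ≤ ((2 * R + 4) * (b : ℝ) ^ k) ^ (m + 1) := by
  classical
  have hb1 : (1 : ℝ) ≤ (b : ℝ) ^ k := one_le_pow₀ (by exact_mod_cast hb)
  have hd : ∀ i, |(Fin.cons 1 v : Fin (m + 1) → ℝ) i| ≤ R + 1 := by
    intro i
    refine Fin.cases ?_ (fun j => ?_) i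
    · simp
    · rw [Fin.cons_succ]
      linarith [hv j]
  have h1 : (vis b k p v).card ≤ (Fintype.piFinset (fun i => Finset.Icc
    ⌊(b : ℝ) ^ k * p i - (b : ℝ) ^ k * |(Fin.cons 1 v : Fin (m + 1) → ℝ) i|⌋
    ⌊(b : ℝ) ^ k * p i + (b : ℝ) ^ k * |(Fin.cons 1 v : Fin (m + 1) → ℝ) i|⌋)).card :=
    Finset.card_filter_le _ _
  rw [Fintype.card_piFinset] at h1
  have h2 : ((vis b k p v).card : ℝ) ≤ ∏ i : Fin (m + 1), ((Finset.Icc
    ⌊(b : ℝ) ^ k * p i - (b : ℝ) ^ k * |(Fin.cons 1 v : Fin (m + 1) → ℝ) i|⌋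
    ⌊(b : ℝ) ^ k * p i + (b : ℝ) ^ k * |(Fin.cons 1 v : Fin (m + 1) → ℝ) i|⌋).card : ℝ) := by
    exact_mod_cast h1
  refine h2.trans ?_
  calc _ ≤ ∏ _i : Fin (m + 1), ((2 * R + 4) * (b : ℝ) ^ k) := by
        apply Finset.prod_le_prod
        · intro i _; positivity
        · intro i _
          refine (card_Icc_floor' (by positivity)).trans ?_
          have := hd i
          nlinarith
    _ = _ := by simp

lemma measurable_cell (b k : ℕ) (p : Fin (m + 1) → ℝ) (v : Fin m → ℝ) :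
    Measurable (fun t => cell b k (pt p v t)) := by
  rw [measurable_pi_iff]
  intro i
  apply Int.measurable_floor.comp
  unfold pt
  fun_prop

/-- From the integral to the sum over the visited cells. -/
lemma lintegral_vis {b : ℕ} (hb : 0 < b) (k : ℕ) (p : Fin (m + 1) → ℝ) (v : Fin m → ℝ)
    (g : (Fin (m + 1) → ℤ) → ℝ≥0∞) :
    ∫⁻ t in Icc (0 : ℝ) 1, g (cell b k (pt p v t)) ≤
      (∑ y ∈ vis b k p v, g y) * ENNReal.ofReal (1 / (b : ℝ) ^ k) := by
  classical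
  set T : (Fin (m + 1) → ℤ) → Set ℝ := fun y => {t | cell b k (pt p v t) = y} with hT
  have hTm : ∀ y, MeasurableSet (T y) := fun y =>
    (measurable_cell b k p v) (measurableSet_singleton y)
  have h1 : ∫⁻ t in Icc (0 : ℝ) 1, g (cell b k (pt p v t)) =
      ∫⁻ t in Icc (0 : ℝ) 1, ∑ y ∈ vis b k p v, (T y).indicator (fun _ => g y) t := by
    apply setLIntegral_congr_fun measurableSet_Icc
    intro t ht
    have hmem : cell b k (pt p v t) ∈ vis b k p v := mem_vis.2 ⟨t, ht, rfl⟩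
    simp only
    rw [Finset.sum_eq_single_of_mem _ hmem]
    · simp [hT, Set.indicator]
    · intro y _ hy
      rw [Set.indicator_of_notMem]
      intro h
      exact hy (h : cell b k (pt p v t) = y).symm
  rw [h1, lintegral_finsetSum _ (fun y _ => measurable_const.indicator (hTm y)), Finset.sum_mul]
  apply Finset.sum_le_sum
  intro y _
  rw [lintegral_indicator (hTm y), lintegral_const]
  apply mul_le_mul_of_nonneg_left _ bot_le
  rw [Measure.restrict_apply MeasurableSet.univ, Set.univ_inter]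
  refine (Measure.restrict_apply_le _ _).trans ?_
  have hbk : (0 : ℝ) < (b : ℝ) ^ k := by positivity
  have hsub : T y ⊆ Ico ((y 0 : ℝ) / (b : ℝ) ^ k - p 0)
      ((y 0 : ℝ) / (b : ℝ) ^ k - p 0 + 1 / (b : ℝ) ^ k) := by
    intro t ht
    have h2 : cell b k (pt p v t) 0 = y 0 := congrFun ht 0
    have h3 := floor_bds (x := (b : ℝ) ^ k * pt p v t 0) h2
    rw [pt_zero] at h3
    rw [mem_Ico]
    constructor
    · rw [sub_le_iff_le_add, div_le_iff₀ hbk]
      nlinarith [h3.1]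
    · rw [sub_add_eq_add_sub, lt_sub_iff_add_lt, ← add_div, lt_div_iff₀ hbk]
      nlinarith [h3.2]
  refine (measure_mono hsub).trans ?_
  rw [Real.volume_Ico]
  apply ENNReal.ofReal_le_ofReal
  linarith

/-- The number of visited cells in a given cell `y` of level `j` and with a given position `a`. -/
lemma count_vis {b : ℕ} (hb : 0 < b) (j s : ℕ) (p : Fin (m + 1) → ℝ) {v : Fin m → ℝ} {R : ℕ}
    (hv : ∀ j, |v j| ≤ R) (hs : 2 * ((R : ℝ) + 1) ≤ (b : ℝ) ^ s) (y a : Fin (m + 1) → ℤ) :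
    ((vis b (j + m * s + s) p v).filter (fun y' => (∀ q, y' q / (b : ℤ) ^ (m * s + s) = y q) ∧
      ∀ q, y' q % (b : ℤ) ^ s = a q)).card ≤ (hits b (m * s) s R v).card := by
  classical
  set S := (vis b (j + m * s + s) p v).filter (fun y' =>
    (∀ q, y' q / (b : ℤ) ^ (m * s + s) = y q) ∧ ∀ q, y' q % (b : ℤ) ^ s = a q) with hS
  rcases S.eq_empty_or_nonempty with h0 | ⟨y0, hy0⟩
  · rw [h0]; simp
  have hbs : (0 : ℝ) < (b : ℝ) ^ s := by positivity
  have hbj : (0 : ℝ) < (b : ℝ) ^ j := by positivity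
  have hbms : (0 : ℝ) < (b : ℝ) ^ (m * s) := by positivity
  have hb1 : (1 : ℝ) ≤ (b : ℝ) ^ s := one_le_pow₀ (by exact_mod_cast hb)
  have hb1' : (1 : ℝ) ≤ (b : ℝ) ^ (m * s) := one_le_pow₀ (by exact_mod_cast hb)
  -- data of a member
  have key : ∀ y' ∈ S, ∃ t : ℝ, (∀ q, (b : ℝ) ^ s * ((y' q / (b : ℤ) ^ s : ℤ) : ℝ) + a q ≤
      (b : ℝ) ^ (j + m * s + s) * pt p v t q ∧ (b : ℝ) ^ (j + m * s + s) * pt p v t q <
      (b : ℝ) ^ s * ((y' q / (b : ℤ) ^ s : ℤ) : ℝ) + a q + 1) ∧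
      (y 0 : ℝ) ≤ (b : ℝ) ^ j * (p 0 + t) ∧ (b : ℝ) ^ j * (p 0 + t) < y 0 + 1 := by
    intro y' hy'
    rw [hS, Finset.mem_filter] at hy'
    obtain ⟨hv', h1, h2⟩ := hy'
    obtain ⟨t, -, ht⟩ := mem_vis.1 hv'
    refine ⟨t, fun q => ?_, ?_⟩
    · have h3 := congrFun ht q
      have h4 : y' q = (b : ℤ) ^ s * (y' q / (b : ℤ) ^ s) + a q := by
        rw [← h2 q]
        exact (Int.mul_ediv_add_emod _ _).symm
      rw [h4] at h3
      have h5 := floor_bds (x := (b : ℝ) ^ (j + m * s + s) * pt p v t q) (q := _) h3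
      push_cast at h5 ⊢
      exact h5
    · have h3 : cell b j (pt p v t) 0 = y 0 := by
        have h4 := cell_ediv hb j (m * s + s) (pt p v t) 0
        rw [← h4, ← h1 0, ← congrFun ht 0, add_assoc]
      have h5 := floor_bds (x := (b : ℝ) ^ j * pt p v t 0) (q := _) h3
      rw [pt_zero] at h5
      exact h5
  obtain ⟨t0, f, f0⟩ := key y0 hy0
  set z0 : Fin (m + 1) → ℤ := fun q => y0 q / (b : ℤ) ^ s with hz0
  -- the comparison
  have key2 : ∀ y' ∈ S, |((y' 0 / (b : ℤ) ^ s - z0 0 : ℤ) : ℝ)| ≤ (b : ℝ) ^ (m * s) ∧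
      ∀ i : Fin m, |((y' 0 / (b : ℤ) ^ s - z0 0 : ℤ) : ℝ) * v i -
        ((y' i.succ / (b : ℤ) ^ s - z0 i.succ : ℤ) : ℝ)| < ((R : ℝ) + 1) / (b : ℝ) ^ s := by
    intro y' hy'
    obtain ⟨t, e, e0⟩ := key y' hy'
    set h : ℤ := y' 0 / (b : ℤ) ^ s - z0 0 with hh
    have hpow : (b : ℝ) ^ (j + m * s + s) = (b : ℝ) ^ j * (b : ℝ) ^ (m * s) * (b : ℝ) ^ s := by
      rw [pow_add, pow_add]
    have habs : |(b : ℝ) ^ (j + m * s + s) * (t - t0) - (b : ℝ) ^ s * (h : ℝ)| < 1 := by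
      have e1 := e 0
      have f1 := f 0
      rw [pt_zero] at e1 f1
      rw [hh, hz0, abs_lt]
      push_cast at e1 f1 ⊢
      constructor <;> nlinarith [e1.1, e1.2, f1.1, f1.2]
    have hts : |(b : ℝ) ^ j * (t - t0)| < 1 := by
      rw [abs_lt]
      constructor <;> nlinarith [e0.1, e0.2, f0.1, f0.2]
    constructor
    · have h3 : |(b : ℝ) ^ s * (h : ℝ)| < (b : ℝ) ^ (m * s) * (b : ℝ) ^ s + 1 := by
        have h4 : |(b : ℝ) ^ (j + m * s + s) * (t - t0)| ≤ (b : ℝ) ^ (m * s) * (b : ℝ) ^ s := by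
          have h5 : (b : ℝ) ^ (j + m * s + s) * (t - t0) =
              (b : ℝ) ^ j * (t - t0) * ((b : ℝ) ^ (m * s) * (b : ℝ) ^ s) := by
            rw [hpow]; ring
          rw [h5, abs_mul, abs_of_pos (by positivity : 0 < (b : ℝ) ^ (m * s) * (b : ℝ) ^ s)]
          exact mul_le_of_le_one_left (by positivity) hts.le
        have h5 : (b : ℝ) ^ s * (h : ℝ) = (b : ℝ) ^ (j + m * s + s) * (t - t0) -
            ((b : ℝ) ^ (j + m * s + s) * (t - t0) - (b : ℝ) ^ s * (h : ℝ)) := by ring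
        rw [h5]
        calc _ ≤ |(b : ℝ) ^ (j + m * s + s) * (t - t0)| +
            |(b : ℝ) ^ (j + m * s + s) * (t - t0) - (b : ℝ) ^ s * (h : ℝ)| := abs_sub _ _
          _ < _ := by linarith
      have h6 : |(h : ℝ)| < (b : ℝ) ^ (m * s) + 1 := by
        rw [abs_mul, abs_of_pos hbs] at h3
        have : (b : ℝ) ^ s * |(h : ℝ)| < (b : ℝ) ^ s * ((b : ℝ) ^ (m * s) + 1) := by nlinarith
        exact lt_of_mul_lt_mul_left this hbs.le
      have h7 : |h| < (b : ℤ) ^ (m * s) + 1 := by exact_mod_cast h6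
      have h8 : |h| ≤ (b : ℤ) ^ (m * s) := by omega
      exact_mod_cast h8
    · intro i
      have ej := e i.succ
      have fj := f i.succ
      rw [pt_succ] at ej fj
      have h1 : |(b : ℝ) ^ (j + m * s + s) * (t - t0) * v i -
          (b : ℝ) ^ s * ((y' i.succ / (b : ℤ) ^ s - z0 i.succ : ℤ) : ℝ)| < 1 := by
        rw [hz0, abs_lt]
        push_cast at ej fj ⊢
        constructor <;> nlinarith [ej.1, ej.2, fj.1, fj.2]
      rw [lt_div_iff₀ hbs]
      have h2 : ((h : ℝ) * v i - ((y' i.succ / (b : ℤ) ^ s - z0 i.succ : ℤ) : ℝ)) * (b : ℝ) ^ s =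
          -(((b : ℝ) ^ (j + m * s + s) * (t - t0) - (b : ℝ) ^ s * (h : ℝ)) * v i) +
          ((b : ℝ) ^ (j + m * s + s) * (t - t0) * v i -
          (b : ℝ) ^ s * ((y' i.succ / (b : ℤ) ^ s - z0 i.succ : ℤ) : ℝ)) := by
        ring
      have h3 : |((b : ℝ) ^ (j + m * s + s) * (t - t0) - (b : ℝ) ^ s * (h : ℝ)) * v i| ≤ R := by
        rw [abs_mul]
        calc _ ≤ 1 * (R : ℝ) := mul_le_mul habs.le (hv i) (abs_nonneg _) zero_le_one
          _ = R := one_mul _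
      have h4 : |(h : ℝ) * v i - ((y' i.succ / (b : ℤ) ^ s - z0 i.succ : ℤ) : ℝ)| * (b : ℝ) ^ s =
          |((h : ℝ) * v i - ((y' i.succ / (b : ℤ) ^ s - z0 i.succ : ℤ) : ℝ)) * (b : ℝ) ^ s| := by
        rw [abs_mul, abs_of_pos hbs]
      rw [h4, h2]
      calc _ ≤ |-(((b : ℝ) ^ (j + m * s + s) * (t - t0) - (b : ℝ) ^ s * (h : ℝ)) * v i)| +
            |(b : ℝ) ^ (j + m * s + s) * (t - t0) * v i -
            (b : ℝ) ^ s * ((y' i.succ / (b : ℤ) ^ s - z0 i.succ : ℤ) : ℝ)| := abs_add_le _ _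
        _ < (R : ℝ) + 1 := by
          rw [abs_neg]
          linarith
  have hhalf : ((R : ℝ) + 1) / (b : ℝ) ^ s ≤ 1 / 2 := by
    rw [div_le_iff₀ hbs]; linarith
  apply Finset.card_le_card_of_injOn (fun y' => y' 0 / (b : ℤ) ^ s - z0 0)
  · intro y' hy'
    obtain ⟨g1, g2⟩ := key2 y' hy'
    simp only [hits, Finset.coe_filter, Finset.mem_Icc, mem_ofPred_eq]
    have g3 : |(y' 0 / (b : ℤ) ^ s - z0 0)| ≤ (b : ℤ) ^ (m * s) := by exact_mod_cast g1
    exact ⟨abs_le.1 g3, fun i => y' i.succ / (b : ℤ) ^ s - z0 i.succ, g2⟩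
  · intro y1 hy1 y2 hy2 h12
    simp only at h12
    have hz : ∀ q, y1 q / (b : ℤ) ^ s = y2 q / (b : ℤ) ^ s := by
      intro q
      refine Fin.cases ?_ (fun i => ?_) q
      · linarith
      · have g1 := (key2 y1 hy1).2 i
        have g2 := (key2 y2 hy2).2 i
        rw [h12] at g1
        have g3 : |((y1 i.succ / (b : ℤ) ^ s - z0 i.succ : ℤ) : ℝ) -
            ((y2 i.succ / (b : ℤ) ^ s - z0 i.succ : ℤ) : ℝ)| < 1 := by
          have e1 := abs_lt.1 g1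
          have e2 := abs_lt.1 g2
          rw [abs_lt]
          constructor <;> linarith [e1.1, e1.2, e2.1, e2.2]
        have g4 : |(y1 i.succ / (b : ℤ) ^ s - z0 i.succ) - (y2 i.succ / (b : ℤ) ^ s - z0 i.succ)| < 1 := by
          exact_mod_cast g3
        have g5 := Int.abs_lt_one_iff.1 g4
        linarith
    funext q
    have m1 := ((Finset.mem_filter.1 hy1).2).2 q
    have m2 := ((Finset.mem_filter.1 hy2).2).2 q
    rw [← Int.mul_ediv_add_emod (y1 q) ((b : ℤ) ^ s), ← Int.mul_ediv_add_emod (y2 q) ((b : ℤ) ^ s),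
      hz q, m1, m2]

end Pool.Agent.V114.KakCx
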